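import Pool.Agent.Lib.MP_6d95fe_co.Hn.Cong

/-!
From a cocompact group with a family of disjoint walls to a labelled chamber.
-/

namespace Pool.Agent.Lib.MP_6d95fe_co.Hn

structure D1 (n p : ℕ) where
  Chi : (V n ≃ₗ[ℝ] V n) → ZMod p → Prop
  lor : ∀ {g j}, Chi g j → IsLor g
  mul : ∀ {g j h k}, Chi g j → Chi h k → Chi (g * h) (j + k)
  inv : ∀ {g j}, Chi g j → Chi g⁻¹ (-j)
  rot : ∀ j, ∃ ρ, Chi ρ j ∧ ρ (oV n) = oV n
  v0 : V n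
  unit : B v0 v0 = 1
  sep : ∀ {g j}, Chi g j → |B (g v0) v0| ≤ 2 → g v0 = v0 ∧ j = 0
  off : ∀ {g j}, Chi g j → B (oV n) (g v0) ≠ 0
  finP : ∀ C, {y | (∃ g j, Chi g j ∧ y = g (oV n)) ∧ -B y (oV n) ≤ C}.Finite
  finW : ∀ C, {w | (∃ g j, Chi g j ∧ w = g v0) ∧ |B (oV n) w| ≤ C}.Finite
  cocpt : ∃ R, ∀ x, Hyp x → ∃ g j, Chi g j ∧ -B x (g (oV n)) ≤ R

theorem shield_all {n : ℕ} {ν ν' x y : V n} (h1 : B ν ν = 1) (h2 : B ν' ν' = 1)
    (h : 2 < B ν ν') (hx : Hyp x) (hy : Hyp y) (h3 : B x ν < B x ν') : B y ν < B y ν' := by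
  have h4 : B (ν - ν') (ν - ν') < 0 := by
    simp only [B_sub_left, B_sub_right, h1, h2, B_comm ν' ν]; linarith
  have h5 := future_of_B_neg h4 hx.neg hx.2 (by rw [B_comm, B_sub_right]; linarith)
  have := B_neg_of_future hy.neg hy.2 h4 h5
  rw [B_sub_right] at this; linarith

namespace D1

variable {n p : ℕ} (D : D1 n p)

def Lab (w : V n) (j : ZMod p) : Prop := ∃ g, D.Chi g j ∧ (w = g D.v0 ∨ w = -g D.v0)

theorem Lab.neg {D : D1 n p} {w : V n} {j : ZMod p} (h : D.Lab w j) : D.Lab (-w) j := by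
  obtain ⟨g, h1, h2 | h2⟩ := h
  · exact ⟨g, h1, Or.inr (by rw [h2])⟩
  · exact ⟨g, h1, Or.inl (by rw [h2, neg_neg])⟩

theorem Lab.map {D : D1 n p} {w : V n} {j k : ZMod p} (h : D.Lab w j) {g : V n ≃ₗ[ℝ] V n}
    (hg : D.Chi g k) : D.Lab (g w) (j + k) := by
  obtain ⟨g', h1, h2⟩ := h
  refine ⟨g * g', add_comm j k ▸ D.mul hg h1, ?_⟩
  rcases h2 with h2 | h2
  · left; rw [h2]; rfl
  · right; rw [h2, map_neg]; rfl

theorem Lab.unit {D : D1 n p} {w : V n} {j : ZMod p} (h : D.Lab w j) : B w w = 1 := by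
  obtain ⟨g, h1, h2 | h2⟩ := h
  · rw [h2, (D.lor h1).1, D.unit]
  · rw [h2, B_neg_left, B_neg_right, (D.lor h1).1, D.unit]; ring

theorem Lab.off {D : D1 n p} {w : V n} {j : ZMod p} (h : D.Lab w j) : B (oV n) w ≠ 0 := by
  obtain ⟨g, h1, h2 | h2⟩ := h
  · rw [h2]; exact D.off h1
  · rw [h2, B_neg_right]; exact neg_ne_zero.2 (D.off h1)

theorem Lab.sep {D : D1 n p} {w w' : V n} {j k : ZMod p} (h : D.Lab w j) (h' : D.Lab w' k)
    (hb : |B w w'| ≤ 2) : (w = w' ∨ w = -w') ∧ j = k := by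
  obtain ⟨g, h1, h2⟩ := h
  obtain ⟨g', h1', h2'⟩ := h'
  have h3 := D.sep (D.mul (D.inv h1') h1) (by
    rw [LinearEquiv.mul_apply, (D.lor h1').B_inv]
    rcases h2 with rfl | rfl <;> rcases h2' with rfl | rfl <;>
      simpa only [B_neg_left, B_neg_right, abs_neg] using hb)
  have h4 : g D.v0 = g' D.v0 := by
    conv_rhs => rw [← h3.1, LinearEquiv.mul_apply, self_apply_inv]
  refine ⟨?_, by linear_combination h3.2⟩
  rcases h2 with rfl | rfl <;> rcases h2' with rfl | rfl <;> simp [h4]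

open Classical in
noncomputable def ℓ (w : V n) : ZMod p := if h : ∃ j, D.Lab w j then h.choose else 0

theorem Lab.ℓ_eq {D : D1 n p} {w : V n} {j : ZMod p} (h : D.Lab w j) : D.ℓ w = j := by
  have h1 : ∃ j, D.Lab w j := ⟨j, h⟩
  unfold ℓ; rw [dif_pos h1]
  exact (h1.choose_spec.sep h (by rw [h.unit]; norm_num)).2

def N : Set (V n) := {ν | (∃ j, D.Lab ν j) ∧ B (oV n) ν < 0}

def S : Set (V n) := {ν | ν ∈ D.N ∧ ¬ ∃ ν' ∈ D.N, 2 < B ν ν' ∧ B (oV n) ν < B (oV n) ν'}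

theorem finN (C : ℝ) : {ν | ν ∈ D.N ∧ -B (oV n) ν ≤ C}.Finite := by
  apply ((D.finW C).union ((D.finW C).image fun w => -w)).subset
  rintro _ ⟨⟨⟨j, g, h1, rfl | rfl⟩, h2⟩, h3⟩
  · exact Or.inl ⟨⟨g, j, h1, rfl⟩, by rwa [abs_of_neg h2]⟩
  · refine Or.inr ⟨_, ⟨⟨g, j, h1, rfl⟩, ?_⟩, rfl⟩
    rw [B_neg_right] at h2 h3
    rw [abs_of_pos (by linarith)]; linarith

theorem mem_N_or {w : V n} {j : ZMod p} (h : D.Lab w j) : w ∈ D.N ∨ -w ∈ D.N := by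
  rcases lt_or_gt_of_ne h.off with h1 | h1
  · exact Or.inl ⟨⟨j, h⟩, h1⟩
  · exact Or.inr ⟨⟨j, h.neg⟩, by rw [B_neg_right]; linarith⟩

theorem not_both {w : V n} (h : w ∈ D.N) : -w ∉ D.N := fun h' => by
  have := h'.2; rw [B_neg_right] at this; linarith [h.2]

theorem exists_S (p : V n → Prop) {ν : V n} (hν : ν ∈ D.N) (hp : p ν)
    (hcl : ∀ a ∈ D.N, ∀ b ∈ D.N, p a → 2 < B a b → B (oV n) a < B (oV n) b → p b) :
    ∃ s ∈ D.S, p s := by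
  obtain ⟨s, ⟨⟨h1, h2⟩, h3⟩, h4⟩ := Set.exists_max_image
    ({ν' | ν' ∈ D.N ∧ -B (oV n) ν' ≤ -B (oV n) ν} ∩ {ν' | p ν'}) (fun w => B (oV n) w)
    ((D.finN _).inter_of_left _) ⟨ν, ⟨hν, le_rfl⟩, hp⟩
  refine ⟨s, ⟨h1, ?_⟩, h3⟩
  rintro ⟨b, hb, h5, h6⟩
  have := h4 b ⟨⟨hb, by linarith⟩, hcl s h1 b hb h3 h5 h6⟩
  linarith

theorem all_N {x : V n} (hx : Hyp x) (h : ∀ s ∈ D.S, B x s ≤ 0) : ∀ ν ∈ D.N, B x ν ≤ 0 := by
  intro ν hν
  by_contra hc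
  obtain ⟨s, hs, h1⟩ := D.exists_S (fun w => 0 < B x w) hν (not_le.1 hc) (by
    rintro a ⟨⟨_, ha⟩, -⟩ b ⟨⟨_, hb⟩, -⟩ h1 h2 h3
    exact h1.trans (shield_all ha.unit hb.unit h2 Hyp_oV hx h3))
  exact absurd (h s hs) (not_le.2 h1)

def PresN (g : V n ≃ₗ[ℝ] V n) : Prop := ∀ ν, ν ∈ D.N ↔ g ν ∈ D.N

theorem PresN.mul {D : D1 n p} {g h : V n ≃ₗ[ℝ] V n} (hg : D.PresN g) (hh : D.PresN h) :
    D.PresN (g * h) := fun ν => (hh ν).trans (hg _)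

theorem PresN.inv {D : D1 n p} {g : V n ≃ₗ[ℝ] V n} (hg : D.PresN g) : D.PresN g⁻¹ :=
  fun ν => by rw [hg (g⁻¹ ν), self_apply_inv]

theorem presN_of_fix {g : V n ≃ₗ[ℝ] V n} {j : ZMod p} (hg : D.Chi g j) (h : g (oV n) = oV n) :
    D.PresN g := by
  intro ν
  have e : B (oV n) (g ν) = B (oV n) ν := by
    conv_lhs => rw [← h]
    exact (D.lor hg).1 _ _
  constructor
  · rintro ⟨⟨k, h1⟩, h2⟩; exact ⟨⟨_, h1.map hg⟩, by rwa [e]⟩
  · rintro ⟨⟨k, h1⟩, h2⟩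
    have := h1.map (D.inv hg)
    rw [inv_apply_self] at this
    exact ⟨⟨_, this⟩, by rwa [← e]⟩

def X0 : Set (V n) := {y | ∃ g j, D.Chi g j ∧ D.PresN g ∧ y = g (oV n)}

theorem S_map {g : V n ≃ₗ[ℝ] V n} {j : ZMod p} (hg : D.Chi g j) (hp : D.PresN g) {s : V n}
    (hs : s ∈ D.S) : g s ∈ D.S := by
  refine ⟨(hp s).1 hs.1, ?_⟩
  rintro ⟨ν', h1, h2, h3⟩
  have h4 := (hp.inv ν').1 h1
  obtain ⟨k, hk⟩ := hs.1.1
  obtain ⟨k', hk'⟩ := h4.1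
  have l := D.lor hg
  have h5 : 2 < B s (g⁻¹ ν') := by rw [← l.1, self_apply_inv]; exact h2
  refine hs.2 ⟨_, h4, h5, shield_all hk.unit hk'.unit h5 (l.inv.2 _ Hyp_oV) Hyp_oV ?_⟩
  rw [l.B_inv, l.B_inv, self_apply_inv]; exact h3

theorem symP {g : V n ≃ₗ[ℝ] V n} {j : ZMod p} (hg : D.Chi g j) (hp : D.PresN g) :
    SymP D.S D.ℓ D.X0 g j := by
  refine ⟨D.lor hg, fun s => ⟨D.S_map hg hp, fun h => ?_⟩, fun s hs => ?_, fun x => ⟨?_, ?_⟩⟩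
  · have := D.S_map (D.inv hg) hp.inv h
    rwa [inv_apply_self] at this
  · obtain ⟨k, hk⟩ := hs.1.1
    rw [hk.ℓ_eq, (hk.map hg).ℓ_eq]
  · rintro ⟨h, k, h1, h2, rfl⟩
    exact ⟨g * h, _, D.mul hg h1, hp.mul h2, rfl⟩
  · rintro ⟨h, k, h1, h2, h3⟩
    exact ⟨g⁻¹ * h, _, D.mul (D.inv hg) h1, hp.inv.mul h2, by
      rw [LinearEquiv.mul_apply, ← h3, inv_apply_self]⟩

theorem cocptΩ : ∃ R, ∀ y, Hyp y → (∀ s ∈ D.S, B y s ≤ 0) → ∃ x ∈ D.X0, -B x y ≤ R := by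
  classical
  obtain ⟨R, hR⟩ := D.cocpt
  let Adm : (V n ≃ₗ[ℝ] V n) → Prop := fun g => (∃ j, D.Chi g j) ∧
    ∀ ν ∈ D.N, g ν ∉ D.N → -B (oV n) ν ≤ R
  let A : (V n ≃ₗ[ℝ] V n) → Set (V n) := fun g => {ν | (ν ∈ D.N ∧ -B (oV n) ν ≤ R) ∧ g ν ∉ D.N}
  let f : Set (V n) → ℝ := fun a =>
    if h : ∃ g, Adm g ∧ A g = a then -B (oV n) (h.choose⁻¹ (oV n)) else 0
  obtain ⟨M, hM⟩ := ((D.finN R).finite_subsets.image f).bddAbove
  refine ⟨2 * R * M, fun x hx hs => ?_⟩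
  obtain ⟨g, j, hg, h1⟩ := hR x hx
  have l := D.lor hg
  have hN := D.all_N hx hs
  have hadm : Adm g := by
    refine ⟨⟨j, hg⟩, fun ν hν h => ?_⟩
    obtain ⟨k, hk⟩ := hν.1
    have h2 := hN _ ((D.mem_N_or (hk.map hg)).resolve_left h)
    rw [B_neg_right, ← l.B_inv] at h2
    have h3 := (sep_bound hk.unit Hyp_oV (l.inv.2 _ hx) hν.2.le (by linarith)).1
    rw [B_comm (oV n) (g⁻¹ x), l.B_inv] at h3
    linarith
  have hex : ∃ g', Adm g' ∧ A g' = A g := ⟨g, hadm, rfl⟩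
  have hb : f (A g) ≤ M := hM ⟨A g, fun _ h => h.1, rfl⟩
  simp only [f, dif_pos hex] at hb
  obtain ⟨⟨⟨j', hg'⟩, hadm'⟩, hA⟩ := hex.choose_spec
  generalize hex.choose = g' at hb hg' hadm' hA
  have l' := D.lor hg'
  have k1 : ∀ ν ∈ D.N, (g ν ∈ D.N ↔ g' ν ∈ D.N) := by
    intro ν hν
    rw [← not_iff_not]
    constructor
    · intro h
      have : ν ∈ A g := ⟨⟨hν, hadm.2 ν hν h⟩, h⟩
      rw [← hA] at this; exact this.2
    · intro h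
      have : ν ∈ A g' := ⟨⟨hν, hadm' ν hν h⟩, h⟩
      rw [hA] at this; exact this.2
  have k2 : ∀ ν k, D.Lab ν k → (g ν ∈ D.N ↔ g' ν ∈ D.N) := by
    intro ν k hk
    rcases D.mem_N_or hk with h | h
    · exact k1 ν h
    · have := k1 _ h
      rw [map_neg, map_neg] at this
      constructor
      · intro h1
        exact (D.mem_N_or (hk.map hg')).resolve_right fun h2 => D.not_both h1 (this.2 h2)
      · intro h1
        exact (D.mem_N_or (hk.map hg)).resolve_right fun h2 => D.not_both h1 (this.1 h2)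
  have hp : D.PresN (g * g'⁻¹) := by
    intro μ
    constructor
    · intro h
      obtain ⟨k, hk⟩ := h.1
      exact (k2 _ _ (hk.map (D.inv hg'))).2 (by rwa [self_apply_inv])
    · intro h
      obtain ⟨k, hk⟩ := h.1
      have h2 := hk.map (D.inv hg)
      rw [LinearEquiv.mul_apply, inv_apply_self] at h2
      have := (k2 _ _ h2).1 h
      rwa [self_apply_inv] at this
  refine ⟨_, ⟨_, _, D.mul hg (D.inv hg'), hp, rfl⟩, ?_⟩
  have h2 := B_tri (l.inv.2 _ hx) Hyp_oV (l'.inv.2 _ Hyp_oV)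
  rw [l.B_inv, l.B_inv] at h2
  rw [B_comm, LinearEquiv.mul_apply]
  have h3 := hx.B_le (l.2 _ Hyp_oV)
  have h4 := Hyp_oV.B_le (l'.inv.2 _ Hyp_oV)
  have : -B x (g (oV n)) * -B (oV n) (g'⁻¹ (oV n)) ≤ R * M :=
    mul_le_mul h1 hb (by linarith) (by linarith)
  linarith

noncomputable def toD2 : D2 n p where
  S := D.S
  ℓ := D.ℓ
  X0 := D.X0
  unit := fun s hs => by obtain ⟨k, hk⟩ := hs.1.1; exact hk.unit
  far := fun s hs t ht hst => by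
    obtain ⟨k, hk⟩ := hs.1.1
    obtain ⟨k', hk'⟩ := ht.1.1
    have h1 : ¬ |B s t| ≤ 2 := fun h => by
      rcases (hk.sep hk' h).1 with h | h
      · exact hst h
      · exact D.not_both ht.1 (h ▸ hs.1)
    by_contra h2
    have h3 : 2 < B s t := by
      by_contra h3
      exact h1 (abs_le.2 ⟨by linarith, by linarith⟩)
    rcases lt_trichotomy (B (oV n) s) (B (oV n) t) with h | h | h
    · exact hs.2 ⟨t, ht.1, h3, h⟩
    · have := orth_timelike (w := s - t) (Hyp_oV (n := n)).neg (by rw [B_sub_right, h, sub_self])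
      simp only [B_sub_left, B_sub_right, hk.unit, hk'.unit, B_comm t s] at this
      linarith
    · exact ht.2 ⟨s, hs.1, by rwa [B_comm], h⟩
  o_mem := by
    obtain ⟨ρ, h1, h2⟩ := D.rot 0
    exact ⟨ρ, 0, h1, D.presN_of_fix h1 h2, h2.symm⟩
  hyp := by rintro _ ⟨g, j, h1, -, rfl⟩; exact (D.lor h1).2 _ Hyp_oV
  ins := by
    rintro _ ⟨g, j, h1, h2, rfl⟩ s hs
    have := ((h2.inv s).1 hs.1).2
    rwa [B_comm, (D.lor h1).B_inv, B_comm] at this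
  labels := fun j => by
    obtain ⟨ρ₀, h0, -⟩ := D.rot 0
    have h1 : D.Lab (ρ₀ D.v0) 0 := ⟨ρ₀, h0, Or.inl rfl⟩
    obtain ⟨ν, hν⟩ : ∃ ν, ν ∈ D.N := (D.mem_N_or h1).elim (fun h => ⟨_, h⟩) fun h => ⟨_, h⟩
    obtain ⟨s, hs, -⟩ := D.exists_S (fun _ => True) hν trivial (by simp)
    obtain ⟨ρ, h2, h3⟩ := D.rot (j - D.ℓ s)
    have := D.symP h2 (D.presN_of_fix h2 h3)
    exact ⟨ρ s, (this.2.1 s).1 hs, by rw [this.2.2.1 s hs]; ring⟩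
  finX := fun C => (D.finP C).subset (by
    rintro _ ⟨⟨g, j, h1, -, rfl⟩, h⟩; exact ⟨⟨g, j, h1, rfl⟩, h⟩)
  finS := fun C => (D.finN C).subset fun _ h => ⟨h.1.1, h.2⟩
  cocpt := D.cocptΩ
  sym := by
    rintro _ ⟨g, j, h1, h2, rfl⟩ _ ⟨g', j', h1', h2', rfl⟩ k
    obtain ⟨ρ, h3, h4⟩ := D.rot (k - j' + j)
    refine ⟨g' * ρ * g⁻¹, ?_, by
      rw [LinearEquiv.mul_apply, LinearEquiv.mul_apply, inv_apply_self, h4]⟩
    have := D.symP (D.mul (D.mul h1' h3) (D.inv h1))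
      ((h2'.mul (D.presN_of_fix h3 h4)).mul h2.inv)
    rwa [show j' + (k - j' + j) + -j = k by ring] at this

end D1

end Pool.Agent.Lib.MP_6d95fe_co.Hn
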