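import Pool.Agent.Lib.MP_6d95fe_co.Hn.Cocompact
import Pool.Agent.Lib.MP_6d95fe_co.Hn.Chamber

/-!
The arithmetic group with its character, and the main theorem.
-/

set_option linter.unusedSectionVars false

namespace Pool.Agent.Lib.MP_6d95fe_co.Hn

open Real

theorem cos_mul_le {p k : ℕ} (hp : 7 ≤ p) (h1 : 1 ≤ k) (h2 : k < p) :
    cos (k * (2 * π / p)) ≤ cos (2 * π / p) := by
  have hp' : (7 : ℝ) ≤ p := by exact_mod_cast hp
  have h1' : (1 : ℝ) ≤ k := by exact_mod_cast h1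
  have h2' : (k : ℝ) + 1 ≤ p := by exact_mod_cast h2
  have h0 : 0 < 2 * π / p := by have := pi_pos; positivity
  have e : (p : ℝ) * (2 * π / p) = 2 * π := by field_simp
  by_cases hk : k * (2 * π / p) ≤ π
  · exact cos_le_cos_of_nonneg_of_le_pi h0.le hk (by nlinarith)
  · rw [← cos_two_pi_sub (k * (2 * π / p))]
    exact cos_le_cos_of_nonneg_of_le_pi h0.le (by linarith) (by nlinarith)

namespace ArU

variable {A I : Type} [CommRing A] [IsDomain A] [Fintype I] {p : ℕ} {σ : I → A →+* ℝ}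
  {i0 i1 : I} {θ u : A} (h : ArU p σ i0 i1 θ u) {m : ℕ}

def Chi (_h : ArU p σ i0 i1 θ u) (m N : ℕ) (g : V (m + 2) ≃ₗ[ℝ] V (m + 2)) (j : ZMod p) : Prop :=
  IsLor g ∧ (∀ v, ∃ w, g (Ψ σ θ u i0 v) = Rz m p j (Ψ σ θ u i0 v) + (N : ℝ) • Ψ σ θ u i0 w) ∧
    ∀ v, ∃ w, g⁻¹ (Ψ σ θ u i0 v) = Ψ σ θ u i0 w

include h

theorem Ψ_nat (N : ℕ) (w : Fin (m + 3) → A) :
    Ψ σ θ u i0 ((N : A) • w) = (N : ℝ) • Ψ σ θ u i0 w := by
  rw [Ψ_smul, map_natCast]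

theorem lat {N : ℕ} {g : V (m + 2) ≃ₗ[ℝ] V (m + 2)} {j : ZMod p} (hg : h.Chi m N g j)
    (v : Fin (m + 3) → A) : ∃ w, g (Ψ σ θ u i0 v) = Ψ σ θ u i0 w := by
  obtain ⟨w, hw⟩ := hg.2.1 v
  obtain ⟨r, hr, -⟩ := h.Ψ_Rz j v
  exact ⟨r + (N : A) • w, by rw [Ψ_add, h.Ψ_nat, hr, hw]⟩

theorem FF_eq {v w v' w' : Fin (m + 3) → A}
    (e : B (Ψ σ θ u i0 v) (Ψ σ θ u i0 w) = B (Ψ σ θ u i0 v') (Ψ σ θ u i0 w')) :
    FF θ u v w = FF θ u v' w' := h.inj i0 (by rw [← h.B_Ψ, ← h.B_Ψ, e])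

theorem FF_v0 : FF θ u (mk3 1 u 0 fun _ : Fin m => 0) (mk3 1 u 0 fun _ => 0) = 2 := by
  simp only [FF, mk3_0, mk3_1, mk3_2, mk3_3]
  simp only [mul_zero, Finset.sum_const_zero]
  ring

theorem B_v0 : B (Ψ σ θ u i0 (mk3 1 u 0 fun _ : Fin m => 0)) (Ψ σ θ u i0 (mk3 1 u 0 fun _ => 0))
    = 1 := by
  have := h.B_Ψ (mk3 1 u 0 fun _ : Fin m => 0) (mk3 1 u 0 fun _ => 0)
  rw [h.FF_v0, map_ofNat] at this
  linarith

theorem B_Rz (j : ZMod p) : B (Rz m p j (Ψ σ θ u i0 (mk3 1 u 0 fun _ => 0)))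
    (Ψ σ θ u i0 (mk3 1 u 0 fun _ => 0)) = 1 - σ i0 u ^ 2 * (1 - cos (j.val * (2 * π / p))) := by
  have h1 := Real.mul_self_sqrt (abs_nonneg (σ i0 u ^ 2 - 1))
  rw [abs_of_pos h.a0_pos] at h1
  simp only [B3, Rz, rotE_apply, rotL_apply, Ψ, mk3_0, mk3_1, mk3_2, mk3_3, map_zero, map_one,
    mul_zero, Finset.sum_const_zero, abs_of_pos h.a0_pos]
  linear_combination -h1

theorem oV_eq : oV (m + 2) = (√|σ i0 u ^ 2 - 1|)⁻¹ • Ψ σ θ u i0 (mk3 1 0 0 fun _ => 0) := by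
  funext j; revert j
  have h1 : oV (m + 2) (j1 m) = 0 := Pi.single_eq_of_ne (Fin.succ_ne_zero _) _
  have h2 : oV (m + 2) (j2 m) = 0 := Pi.single_eq_of_ne (Fin.succ_ne_zero _) _
  have h3 : ∀ j, oV (m + 2) (j3 j) = 0 := fun j => Pi.single_eq_of_ne (Fin.succ_ne_zero _) _
  have h0 : oV (m + 2) 0 = 1 := Pi.single_eq_same _ _
  have := (h.α_pos i0).ne'
  apply cases3 <;> simp only [Ψ, Pi.smul_apply, smul_eq_mul, mk3_0, mk3_1, mk3_2, mk3_3, h0, h1,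
    h2, h3, map_zero, map_one, mul_zero, add_zero, implies_true]
  field_simp

theorem sep {N : ℕ} (hN : 6 + 4 * σ i0 u ^ 2 < N) {g : V (m + 2) ≃ₗ[ℝ] V (m + 2)} {j : ZMod p}
    (hg : h.Chi m N g j) (hb : |B (g (Ψ σ θ u i0 (mk3 1 u 0 fun _ => 0)))
      (Ψ σ θ u i0 (mk3 1 u 0 fun _ => 0))| ≤ 2) :
    g (Ψ σ θ u i0 (mk3 1 u 0 fun _ => 0)) = Ψ σ θ u i0 (mk3 1 u 0 fun _ => 0) ∧ j = 0 := by
  have hp : NeZero p := ⟨by have := h.seven; omega⟩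
  have hc := h.B_Rz (m := m) j
  have hF := h.FF_v0 (m := m)
  have hB := h.B_v0 (m := m)
  set v : Fin (m + 3) → A := mk3 1 u 0 fun _ => 0
  obtain ⟨z, hz⟩ := hg.2.1 v
  obtain ⟨r, hr, -⟩ := h.Ψ_Rz j v
  have hw : g (Ψ σ θ u i0 v) = Ψ σ θ u i0 (r + (N : A) • z) := by rw [Ψ_add, h.Ψ_nat, hr, hz]
  have e1 : FF θ u (r + (N : A) • z) v = FF θ u r v + N * FF θ u z v := h.inj i0 (by
    rw [map_add, map_mul, map_natCast, ← h.B_Ψ, ← h.B_Ψ, ← h.B_Ψ, Ψ_add, h.Ψ_nat, B_add_left,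
      B_smul_left]; ring)
  have f1 : FF θ u (r + (N : A) • z) (r + (N : A) • z) = 2 := by
    rw [← hF]; apply h.FF_eq; rw [← hw, hg.1.1]
  have f2 : FF θ u r r = 2 := by
    rw [← hF]; apply h.FF_eq; rw [hr]; exact (rotE_lor _ _).1 _ _
  have hu := sq_nonneg (σ i0 u)
  have hN0 : (0 : ℝ) < N := by linarith
  have e2 : FF θ u z v = 0 := h.small_zero fun i => by
    have e3 : (N : ℝ) * σ i (FF θ u z v) = σ i (FF θ u (r + (N : A) • z) v) - σ i (FF θ u r v) := by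
      rw [e1, map_add, map_mul, map_natCast]; ring
    have e4 : |σ i (FF θ u (r + (N : A) • z) v) - σ i (FF θ u r v)| < N := by
      refine (abs_sub _ _).trans_lt ?_
      by_cases hi : i = i0
      · rw [hi, ← h.B_Ψ, ← h.B_Ψ, ← hw, hr, hc, abs_mul, abs_mul, abs_two]
        have : |1 - σ i0 u ^ 2 * (1 - cos (j.val * (2 * π / p)))| ≤ 1 + 2 * σ i0 u ^ 2 := by
          rw [abs_le]
          constructor <;> nlinarith [cos_le_one (j.val * (2 * π / p)),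
            neg_one_le_cos (j.val * (2 * π / p))]
        linarith
      · linarith [h.FF_cs hi f1 hF, h.FF_cs hi f2 hF]
    rw [← e3, abs_mul, abs_of_pos hN0] at e4
    nlinarith
  have e5 : B (g (Ψ σ θ u i0 v)) (Ψ σ θ u i0 v) = B (Rz m p j (Ψ σ θ u i0 v)) (Ψ σ θ u i0 v) := by
    have a1 := h.B_Ψ (r + (N : A) • z) v
    have a2 := h.B_Ψ r v
    rw [e1, e2, mul_zero, add_zero, ← hw] at a1
    rw [hr] at a2
    linarith
  have hj : j = 0 := by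
    by_contra hj
    have a1 := cos_mul_le h.seven (k := j.val)
      (Nat.one_le_iff_ne_zero.2 (mt (ZMod.val_eq_zero j).1 hj)) (ZMod.val_lt j)
    rw [e5, hc, abs_le] at hb
    nlinarith [h.u_big]
  refine ⟨?_, hj⟩
  rw [hj, Rz_zero, hB] at e5
  have a3 : r + (N : A) • z + -v = 0 := h.aniso (h.inj i0 (by
    rw [← h.B_Ψ, Ψ_add, Ψ_neg, ← hw, map_zero]
    simp only [B_add_left, B_add_right, B_neg_left, B_neg_right, hg.1.1, hB, e5,
      B_comm (Ψ σ θ u i0 v) (g _)]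
    ring))
  rw [hw, add_neg_eq_zero.1 a3]

noncomputable def toD1 (m : ℕ) {N : ℕ} (hN : 6 + 4 * σ i0 u ^ 2 < N) : D1 (m + 2) p :=
  have hp : NeZero p := ⟨by have := h.seven; omega⟩
  have hN6 : (6 : ℝ) < N := by linarith [sq_nonneg (σ i0 u)]
  { Chi := h.Chi m N
    lor := fun hg => hg.1
    mul := fun {g j g' k} hg hg' => ⟨hg.1.mul hg'.1, fun v => by
        obtain ⟨w, hw⟩ := hg'.2.1 v
        obtain ⟨r, hr, -⟩ := h.Ψ_Rz k v
        obtain ⟨w1, hw1⟩ := hg.2.1 r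
        obtain ⟨w2, hw2⟩ := h.lat hg w
        refine ⟨w1 + w2, ?_⟩
        rw [LinearEquiv.mul_apply, hw, map_add, map_smul, ← hr, hw1, hw2, hr, Rz_add, Ψ_add,
          smul_add, add_assoc], fun v => by
        obtain ⟨w, hw⟩ := hg.2.2 v
        obtain ⟨w', hw'⟩ := hg'.2.2 w
        exact ⟨w', by rw [mul_inv_rev, LinearEquiv.mul_apply, hw, hw']⟩⟩
    inv := fun {g j} hg => ⟨hg.1.inv, fun v => by
        obtain ⟨r, hr, -⟩ := h.Ψ_Rz (-j) v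
        obtain ⟨w1, hw1⟩ := hg.2.1 r
        obtain ⟨w2, hw2⟩ := hg.2.2 w1
        refine ⟨-w2, ?_⟩
        rw [hr, ← Rz_add, add_neg_cancel, Rz_zero] at hw1
        have e := congrArg (g⁻¹ : V (m + 2) ≃ₗ[ℝ] V (m + 2)) hw1
        rw [inv_apply_self, map_add, map_smul, hw2] at e
        rw [e, Ψ_neg, smul_neg, add_neg_cancel_right], fun v => by
        rw [inv_inv]; exact h.lat hg v⟩
    rot := fun j => ⟨Rz m p j, ⟨rotE_lor _ _, fun v => ⟨0, by rw [Ψ_zero, smul_zero, add_zero]⟩,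
        fun v => by
          obtain ⟨r, hr, -⟩ := h.Ψ_Rz (-j) v
          refine ⟨r, ?_⟩
          rw [hr]
          conv_lhs => rw [← Rz_zero m p (Ψ σ θ u i0 v), ← add_neg_cancel j, Rz_add,
            inv_apply_self]⟩, rotE_o _ _⟩
    v0 := Ψ σ θ u i0 (mk3 1 u 0 fun _ => 0)
    unit := h.B_v0
    sep := fun hg hb => h.sep hN hg hb
    off := fun {g j} hg h0 => by
      obtain ⟨z, hz⟩ := hg.2.1 (mk3 1 u 0 fun _ => 0)
      obtain ⟨r, hr, hr0⟩ := h.Ψ_Rz j (mk3 1 u 0 fun _ : Fin m => 0)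
      rw [hz, ← hr, ← h.Ψ_nat, ← Ψ_add, B_comm, B_oV, neg_eq_zero] at h0
      simp only [Ψ, mk3_0, mul_eq_zero, (h.α_pos i0).ne', false_or, Pi.add_apply, Pi.smul_apply,
        smul_eq_mul, hr0] at h0
      have h1 : 1 + (N : A) * z 0 = 0 := h.inj i0 (by rw [h0, map_zero])
      have h2 : z 0 = 0 := h.small_zero fun i => by
        have h3 := congrArg (σ i) h1
        rw [map_add, map_one, map_mul, map_natCast, map_zero] at h3
        rw [abs_lt]; constructor <;> nlinarith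
      rw [h2, mul_zero, add_zero] at h1
      exact one_ne_zero h1
    finP := fun C => by
      apply ((h.finF (m := m) (FF θ u (mk3 1 0 0 fun _ : Fin m => 0) (mk3 1 0 0 fun _ => 0))
        (√|σ i0 u ^ 2 - 1| * C)).image
          fun w => (√|σ i0 u ^ 2 - 1|)⁻¹ • Ψ σ θ u i0 w).subset
      rintro _ ⟨⟨g, j, hg, rfl⟩, hC⟩
      obtain ⟨w, hw⟩ := h.lat hg (mk3 1 0 0 fun _ => 0)
      have e : g (oV (m + 2)) = (√|σ i0 u ^ 2 - 1|)⁻¹ • Ψ σ θ u i0 w := by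
        rw [h.oV_eq, map_smul, hw]
      have h1 := (hg.1.2 _ Hyp_oV).2
      rw [B_oV, neg_neg] at hC
      rw [e, Pi.smul_apply, smul_eq_mul] at h1 hC
      have hα := h.α_pos i0
      refine ⟨w, ⟨h.FF_eq (by rw [← hw, hg.1.1]), ?_⟩, e.symm⟩
      rw [inv_mul_le_iff₀ hα] at hC
      rwa [abs_of_pos ((mul_pos_iff_of_pos_left (inv_pos.2 hα)).1 h1)]
    finW := fun C => by
      apply ((h.finF (m := m) 2 C).image (Ψ σ θ u i0)).subset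
      rintro _ ⟨⟨g, j, hg, rfl⟩, hC⟩
      obtain ⟨w, hw⟩ := h.lat hg (mk3 1 u 0 fun _ => 0)
      rw [B_comm, B_oV, abs_neg, hw] at hC
      exact ⟨w, ⟨by rw [← h.FF_v0 (m := m)]; exact h.FF_eq (by rw [← hw, hg.1.1]), hC⟩, hw.symm⟩
    cocpt := by
      obtain ⟨R, hR⟩ := h.cocompact (m := m) (N := N) (by rintro rfl; norm_num at hN6)
      refine ⟨R, fun x hx => ?_⟩
      obtain ⟨g, h1, h2, h3, h4⟩ := hR x hx
      refine ⟨g, 0, ⟨h1, fun v => by rw [Rz_zero]; exact h2 v, fun v => ?_⟩, h4⟩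
      obtain ⟨w, hw⟩ := h3 v
      exact ⟨v + (N : A) • w, by rw [hw, Ψ_add, h.Ψ_nat]⟩ }

end ArU

theorem exists_D1 (m : ℕ) {p : ℕ} (hp : 7 ≤ p) : Nonempty (D1 (m + 2) p) := by
  obtain ⟨A, I, _, _, _, σ, i0, θ, h⟩ := exists_ArH hp
  obtain ⟨i1, u, hu⟩ := h.exists_u hp
  obtain ⟨N, hN⟩ := exists_nat_gt (6 + 4 * σ i0 u ^ 2)
  exact ⟨hu.toD1 m hN⟩

theorem main (n : ℕ) (hn : 2 ≤ n) (K : ℕ) : ∃ T : Set (Set (HypSpace n)), IsTiling T ∧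
    IsMonohedral T ∧ IsFaceToFace T ∧ CoronasCongruent T K ∧ ¬IsIsohedral T := by
  obtain ⟨m, rfl⟩ : ∃ m, n = m + 2 := ⟨n - 2, by omega⟩
  have h1 : 1 ≤ 2 ^ (4 * K + 3) := Nat.one_le_two_pow
  have : NeZero (12 * 2 ^ (4 * K + 3)) := ⟨by omega⟩
  obtain ⟨D⟩ := exists_D1 m (p := 12 * 2 ^ (4 * K + 3)) (by omega)
  exact D.toD2.main rfl le_rfl

end Pool.Agent.Lib.MP_6d95fe_co.Hn
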