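import Pool.Agent.Lib.MP_6d95fe_co.Hn.Lattice

/-!
Cocompactness of the congruence subgroups.
-/

set_option linter.unusedSectionVars false

namespace Pool.Agent.Lib.MP_6d95fe_co.Hn

open Real Module

theorem eq_zero_of_basis {n : ℕ} {y : Fin (n + 1) → V n} (hy : LinearIndependent ℝ y) {ν : V n}
    (h : ∀ k, B ν (y k) = 0) : ν = 0 := by
  let b := basisOfLinearIndependentOfCardEqFinrank hy (by simp)
  apply eq_zero_of_B
  intro x
  rw [← b.sum_repr x, B_comm, B_sum_left]
  refine Finset.sum_eq_zero fun k _ => ?_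
  rw [B_smul_left, coe_basisOfLinearIndependentOfCardEqFinrank, B_comm, h, mul_zero]

theorem exists_coeff {n : ℕ} {y : Fin (n + 1) → V n} (hy : LinearIndependent ℝ y) (x : V n) :
    ∃ t : Fin (n + 1) → ℝ, ∑ k, t k • y k = x := by
  let b := basisOfLinearIndependentOfCardEqFinrank hy (by simp)
  refine ⟨b.repr x, ?_⟩
  conv_rhs => rw [← b.sum_repr x]
  simp only [b, coe_basisOfLinearIndependentOfCardEqFinrank]

theorem B_sum_sum {n : ℕ} (y : Fin (n + 1) → V n) (s t : Fin (n + 1) → ℝ) :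
    B (∑ k, s k • y k) (∑ k, t k • y k) = ∑ k, ∑ l, s k * t l * B (y k) (y l) := by
  rw [B_sum_left]
  refine Finset.sum_congr rfl fun k _ => ?_
  rw [B_comm, B_sum_left]
  refine Finset.sum_congr rfl fun l _ => ?_
  rw [B_smul_left, B_smul_right, B_comm]; ring

theorem exists_equiv {n : ℕ} {y y' : Fin (n + 1) → V n} (hy : LinearIndependent ℝ y)
    (hy' : LinearIndependent ℝ y') (h : ∀ k l, B (y' k) (y' l) = B (y k) (y l)) :
    ∃ g : V n ≃ₗ[ℝ] V n, (∀ k, g (y k) = y' k) ∧ ∀ x x', B (g x) (g x') = B x x' := by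
  let b := basisOfLinearIndependentOfCardEqFinrank hy (by simp)
  let b' := basisOfLinearIndependentOfCardEqFinrank hy' (by simp)
  have h1 : ∀ k, b.equiv b' (Equiv.refl _) (y k) = y' k := fun k => by
    have := b.equiv_apply k b' (Equiv.refl _)
    simpa only [b, b', coe_basisOfLinearIndependentOfCardEqFinrank, Equiv.refl_apply] using this
  refine ⟨b.equiv b' (Equiv.refl _), h1, fun x x' => ?_⟩
  obtain ⟨s, rfl⟩ := exists_coeff hy x
  obtain ⟨t, rfl⟩ := exists_coeff hy x'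
  simp only [map_sum, map_smul, h1, B_sum_sum, h]

namespace ArU

variable {A I : Type} [CommRing A] [IsDomain A] [Fintype I] {p : ℕ} {σ : I → A →+* ℝ}
  {i0 i1 : I} {θ u : A} (h : ArU p σ i0 i1 θ u) {m : ℕ}
include h

theorem hat_dual (ψ : I × Fin (m + 3) → ℝ)
    (hψ : ∀ v : Fin (m + 3) → A, ∑ a, ψ a * Ψ σ θ u a.1 v a.2 = 0) : ψ = 0 := by
  classical
  simp only [Fintype.sum_prod_type, sum3] at hψ
  have e0 := h.span_top (c := fun i => ψ (i, 0) * √|σ i u ^ 2 - 1|) fun a => by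
    have := hψ (mk3 a 0 0 fun _ => 0)
    simp only [Ψ, mk3_0, mk3_1, mk3_2, mk3_3, map_zero, mul_zero, add_zero,
      Finset.sum_const_zero] at this
    simpa only [mul_assoc] using this
  have e1 := h.span_top (c := fun i => ψ (i, j1 m)) fun a => by
    have := hψ (mk3 0 a 0 fun _ => 0)
    simpa only [Ψ, mk3_0, mk3_1, mk3_2, mk3_3, map_zero, mul_zero, add_zero, zero_add,
      Finset.sum_const_zero] using this
  have e1' : ∀ i, ψ (i, j1 m) = 0 := fun i => congrFun e1 i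
  have e2 := h.span_top (c := fun i => ψ (i, j2 m) * √(1 - (σ i θ / 2) ^ 2)) fun a => by
    have := hψ (mk3 0 0 a fun _ => 0)
    simp only [Ψ, mk3_0, mk3_1, mk3_2, mk3_3, map_zero, mul_zero, add_zero, zero_add, e1',
      zero_mul, Finset.sum_const_zero] at this
    simpa only [mul_assoc] using this
  have e3 := fun j => h.span_top (c := fun i => ψ (i, j3 j)) fun a => by
    have := hψ (mk3 0 0 0 (Pi.single j a))
    simp only [Ψ, mk3_0, mk3_1, mk3_2, mk3_3, map_zero, mul_zero, add_zero, zero_add] at this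
    rw [← this]
    refine Finset.sum_congr rfl fun i _ => ?_
    rw [Finset.sum_eq_single j (fun k _ hk => by simp [hk]) (by simp)]
    simp
  funext ⟨i, j⟩
  revert j
  apply cases3
  · simpa [(h.α_pos i).ne'] using congrFun e0 i
  · exact e1' i
  · simpa [(h.γ_pos i).ne'] using congrFun e2 i
  · exact fun j => congrFun (e3 j) i

theorem short_basis : ∃ C : ℝ, ∀ x, Hyp x → ∃ v : Fin (m + 3) → Fin (m + 3) → A,
    LinearIndependent ℝ (fun k => Ψ σ θ u i0 (v k)) ∧ (∀ k, |B x (Ψ σ θ u i0 (v k))| ≤ C) ∧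
    ∀ k l i, |σ i (FF θ u (v k) (v l))| ≤ C := by
  classical
  let e : (Fin (m + 3) → A) →+ (I × Fin (m + 3) → ℝ) :=
    { toFun := fun v a => Ψ σ θ u a.1 v a.2
      map_zero' := by funext a; simp [Ψ_zero]
      map_add' := fun v w => by funext a; simp [Ψ_add] }
  have hm : (0 : ℝ) ≤ m := Nat.cast_nonneg m
  obtain ⟨C, hC⟩ := mink_short e.range (fun ψ hψ => h.hat_dual ψ fun v => hψ _ ⟨v, rfl⟩)
    (c := 1 / (2 * (m + 3))) (by positivity)
  refine ⟨max C (2 * ((m + 3) * C ^ 2)), fun x hx => ?_⟩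
  obtain ⟨T, hT, hTT, hTx⟩ := exists_boost hx
  have hTT' : ∀ y, T (T y) = y := fun y => by rw [← LinearEquiv.mul_apply, hTT]; rfl
  let T' : (I × Fin (m + 3) → ℝ) →ₗ[ℝ] (I × Fin (m + 3) → ℝ) :=
    { toFun := fun z a => if a.1 = i0 then T (fun k => z (i0, k)) a.2 else z a
      map_add' := fun z w => by
        funext a
        simp only [Pi.add_apply]
        split_ifs
        · rw [← Pi.add_apply (T _), ← map_add]; rfl
        · rfl
      map_smul' := fun r z => by
        funext a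
        simp only [Pi.smul_apply, RingHom.id_apply]
        split_ifs
        · rw [← Pi.smul_apply r (T _), ← map_smul]; rfl
        · rfl }
  have t0 : ∀ z k, T' z (i0, k) = T (fun k => z (i0, k)) k := fun z k => if_pos rfl
  have t1 : ∀ z i k, i ≠ i0 → T' z (i, k) = z (i, k) := fun z i k hi => if_neg hi
  have gram : ∀ (v w : Fin (m + 3) → A) (c : ℝ), (∀ a, |T' (e v) a| ≤ c) → (∀ a, |T' (e w) a| ≤ c) →
      ∀ i, |σ i (FF θ u v w)| ≤ 2 * ((m + 3) * c ^ 2) := by
    intro v w c hv hw i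
    by_cases hi : i = i0
    · rw [hi, ← h.B_Ψ, ← hT.1, abs_mul, abs_two]
      have := abs_B_le (x := T (Ψ σ θ u i0 v)) (y := T (Ψ σ θ u i0 w)) (C := c)
        (fun k => by have := hv (i0, k); rwa [t0] at this)
        (fun k => by have := hw (i0, k); rwa [t0] at this)
      push_cast at this; linarith
    · rw [← h.E_Ψ hi, abs_mul, abs_two]
      have := abs_sum_le (x := Ψ σ θ u i v) (y := Ψ σ θ u i w) (C := c)
        (fun k => by have := hv (i, k); rwa [t1 _ _ _ hi] at this)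
        (fun k => by have := hw (i, k); rwa [t1 _ _ _ hi] at this)
      have h2 := Finset.abs_sum_le_sum_abs (fun j => Ψ σ θ u i v j * Ψ σ θ u i w j) Finset.univ
      push_cast at this; linarith
  have H := hC T' (by
      apply LinearMap.ext
      intro z
      funext ⟨i, k⟩
      by_cases hi : i = i0
      · subst hi
        simp only [LinearMap.comp_apply, t0, LinearMap.id_apply]
        exact congrFun (hTT' fun k => z (i, k)) k
      · simp only [LinearMap.comp_apply, t1 _ _ _ hi, LinearMap.id_apply])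
    (by
      rintro _ ⟨v, rfl⟩ hv
      rw [h.aniso (v := v) (h.small_zero fun i => ?_), map_zero]
      refine (gram v v _ (fun a => (hv a).le) (fun a => (hv a).le) i).trans_lt ?_
      rw [show 2 * (((m : ℝ) + 3) * (1 / (2 * (m + 3))) ^ 2) = 1 / (2 * (m + 3)) by field_simp,
        div_lt_one (by positivity)]
      linarith)
  let U : Set (V (m + 2)) := {y | ∃ v, (∀ a, |T' (e v) a| ≤ C) ∧ y = T (Ψ σ θ u i0 v)}
  have hU : Submodule.span ℝ U = ⊤ := span_eq_top_of_dual fun ψ hψ => by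
    by_contra hne
    obtain ⟨_, ⟨v, rfl⟩, h1, h2⟩ := H (fun a => if a.1 = i0 then ψ a.2 else 0) (by
      intro h0
      apply hne
      funext k
      simpa using congrFun h0 (i0, k))
    apply h1
    rw [Fintype.sum_prod_type, Finset.sum_eq_single i0 (fun i _ hi => by simp [hi]) (by simp)]
    simp only [if_true, t0]
    exact hψ _ ⟨v, h2, rfl⟩
  obtain ⟨b, hb, hs, hli⟩ := exists_linearIndependent ℝ U
  rw [hU] at hs
  have hfin : Finite b := hli.set_finite_of_isNoetherian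
  have := Fintype.ofFinite b
  let β : Basis b ℝ (V (m + 2)) := Basis.mk hli (by simp [hs])
  have hcard : Fintype.card (Fin (m + 3)) = Fintype.card b := by
    rw [← finrank_eq_card_basis β]; simp
  let q := Fintype.equivOfCardEq hcard
  choose v hv1 hv2 using fun k => hb (q k).2
  refine ⟨v, ?_, fun k => ?_, fun k l i => (gram _ _ C (hv1 k) (hv1 l) i).trans (le_max_right _ _)⟩
  · have := (hli.comp q q.injective).map' T.toLinearMap T.ker
    have e : (fun k => Ψ σ θ u i0 (v k))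
        = ⇑T.toLinearMap ∘ (fun x : b => (x : V (m + 2))) ∘ q := by
      funext k
      simp only [Function.comp_apply, LinearEquiv.coe_coe]
      rw [hv2 k, hTT']
    rw [e]; exact this
  · rw [← hT.1, hTx, B_comm, B_oV, abs_neg]
    have := hv1 k (i0, 0)
    rw [t0] at this
    exact this.trans (le_max_left _ _)

theorem det_ne {v : Fin (m + 3) → Fin (m + 3) → A}
    (hv : LinearIndependent ℝ fun k => Ψ σ θ u i0 (v k)) :
    (Matrix.of fun k l => FF θ u (v k) (v l)).det ≠ 0 := by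
  intro h0
  have h1 := (σ i0).map_det (Matrix.of fun k l => FF θ u (v k) (v l))
  rw [h0, map_zero] at h1
  obtain ⟨t, ht, h2⟩ := Matrix.exists_vecMul_eq_zero_iff.2 h1.symm
  apply ht
  funext k
  apply Fintype.linearIndependent_iff.1 hv t
  apply eq_zero_of_basis hv
  intro l
  have := congrFun h2 l
  simp only [Matrix.vecMul, dotProduct, RingHom.mapMatrix_apply, Matrix.map_apply,
    Matrix.of_apply, ← h.B_Ψ, Pi.zero_apply] at this
  rw [B_sum_left]
  simp only [B_smul_left]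
  have e : ∑ k, t k * (2 * B (Ψ σ θ u i0 (v k)) (Ψ σ θ u i0 (v l)))
      = 2 * ∑ k, t k * B (Ψ σ θ u i0 (v k)) (Ψ σ θ u i0 (v l)) := by
    rw [Finset.mul_sum]; exact Finset.sum_congr rfl fun k _ => by ring
  linarith

theorem lat_map {v v' : Fin (m + 3) → Fin (m + 3) → A}
    (hv : LinearIndependent ℝ fun k => Ψ σ θ u i0 (v k)) {N : ℕ}
    (hd : ∀ k j, (Matrix.of fun k l => FF θ u (v k) (v l)).det * N ∣ v' k j - v k j)
    {g : V (m + 2) ≃ₗ[ℝ] V (m + 2)} (hg : ∀ k, g (Ψ σ θ u i0 (v k)) = Ψ σ θ u i0 (v' k))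
    (w : Fin (m + 3) → A) :
    ∃ w', g (Ψ σ θ u i0 w) = Ψ σ θ u i0 w + (N : ℝ) • Ψ σ θ u i0 w' := by
  set G : Matrix (Fin (m + 3)) (Fin (m + 3)) A := Matrix.of fun k l => FF θ u (v k) (v l) with hG
  have hD : σ i0 G.det ≠ 0 := fun h0 => h.det_ne hv (h.inj i0 (by rw [map_zero]; exact h0))
  choose z hz using hd
  have hz' : ∀ k, v' k = v k + (G.det * N) • z k := fun k => by
    funext j; simp only [Pi.add_apply, Pi.smul_apply, smul_eq_mul, ← hz]; ring
  set s := Matrix.vecMul (fun l => FF θ u w (v l)) G.adjugate with hs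
  have h1 : Matrix.vecMul s G = G.det • fun l => FF θ u w (v l) := by
    rw [hs, Matrix.vecMul_vecMul, Matrix.adjugate_mul, Matrix.vecMul_smul, Matrix.vecMul_one]
  have h2 : σ i0 G.det • Ψ σ θ u i0 w = ∑ k, σ i0 (s k) • Ψ σ θ u i0 (v k) := by
    apply sub_eq_zero.1
    apply eq_zero_of_basis hv
    intro l
    have := congrArg (σ i0) (congrFun h1 l)
    simp only [Matrix.vecMul, dotProduct, map_sum, map_mul, Pi.smul_apply, smul_eq_mul, hG,
      Matrix.of_apply, ← h.B_Ψ] at this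
    rw [B_sub_left, B_smul_left, B_sum_left]
    simp only [B_smul_left]
    have e : ∑ k, σ i0 (s k) * (2 * B (Ψ σ θ u i0 (v k)) (Ψ σ θ u i0 (v l)))
        = 2 * ∑ k, σ i0 (s k) * B (Ψ σ θ u i0 (v k)) (Ψ σ θ u i0 (v l)) := by
      rw [Finset.mul_sum]; exact Finset.sum_congr rfl fun k _ => by ring
    rw [← hG] at this
    linarith
  refine ⟨∑ k, s k • z k, smul_right_injective _ hD ?_⟩
  simp only
  rw [← map_smul, smul_add, h2, map_sum, Ψ_sum, Finset.smul_sum, Finset.smul_sum,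
    ← Finset.sum_add_distrib]
  refine Finset.sum_congr rfl fun k _ => ?_
  rw [map_smul, hg, hz', Ψ_add, Ψ_smul, Ψ_smul, map_mul, map_natCast]
  module

theorem cocompact {N : ℕ} (hN : N ≠ 0) : ∃ R, ∀ x, Hyp x → ∃ g : V (m + 2) ≃ₗ[ℝ] V (m + 2),
    IsLor g ∧ (∀ w, ∃ w', g (Ψ σ θ u i0 w) = Ψ σ θ u i0 w + (N : ℝ) • Ψ σ θ u i0 w') ∧
    (∀ w, ∃ w', g⁻¹ (Ψ σ θ u i0 w) = Ψ σ θ u i0 w + (N : ℝ) • Ψ σ θ u i0 w') ∧
    -B x (g (oV (m + 2))) ≤ R := by
  classical
  obtain ⟨C, hC⟩ := h.short_basis (m := m)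
  choose v hv1 hv2 hv3 using hC
  let Gr : {x : V (m + 2) // Hyp x} → Matrix (Fin (m + 3)) (Fin (m + 3)) A := fun x =>
    Matrix.of fun k l => FF θ u (v x.1 x.2 k) (v x.1 x.2 l)
  have hfin : (Set.range Gr).Finite := by
    apply (Set.Finite.pi' fun _ : Fin (m + 3) => Set.Finite.pi' fun _ : Fin (m + 3) =>
      h.finite C).subset
    rintro _ ⟨x, rfl⟩ k l i
    exact hv3 x.1 x.2 k l i
  let Dall : A := (∏ G ∈ hfin.toFinset, G.det) * N
  have hNA : (N : A) ≠ 0 := fun h0 => hN (by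
    have := congrArg (σ i0) h0
    rw [map_natCast, map_zero] at this
    exact_mod_cast this)
  have hDall : Dall ≠ 0 := mul_ne_zero (Finset.prod_ne_zero_iff.2 fun G hG => by
    obtain ⟨x, rfl⟩ := hfin.mem_toFinset.1 hG
    exact h.det_ne (hv1 x.1 x.2)) hNA
  have hdvd : ∀ x, (Gr x).det * N ∣ Dall := fun x =>
    mul_dvd_mul_right (Finset.dvd_prod_of_mem _ (hfin.mem_toFinset.2 ⟨x, rfl⟩)) _
  have := h.quot Dall hDall
  have := hfin.to_subtype
  let tG : Matrix (Fin (m + 3)) (Fin (m + 3)) A → Fin (m + 3) → ℝ := fun G =>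
    if hh : ∃ t : Fin (m + 3) → ℝ, ∑ k, ∑ l, t k * t l * (σ i0 (G k l) / 2) < 0 then hh.choose
    else 0
  have gr : ∀ x k l, B (Ψ σ θ u i0 (v x.1 x.2 k)) (Ψ σ θ u i0 (v x.1 x.2 l))
      = σ i0 (Gr x k l) / 2 := fun x k l => by
    simp only [Gr, Matrix.of_apply, ← h.B_Ψ]; ring
  let uu : {x : V (m + 2) // Hyp x} → V (m + 2) := fun x =>
    ∑ k, tG (Gr x) k • Ψ σ θ u i0 (v x.1 x.2 k)
  have huu : ∀ x, B (uu x) (uu x) < 0 := fun x => by
    have hh : ∃ t : Fin (m + 3) → ℝ, ∑ k, ∑ l, t k * t l * (σ i0 (Gr x k l) / 2) < 0 := by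
      obtain ⟨t, ht⟩ := exists_coeff (hv1 x.1 x.2) (oV (m + 2))
      refine ⟨t, ?_⟩
      have := B_sum_sum (fun k => Ψ σ θ u i0 (v x.1 x.2 k)) t t
      rw [ht, Hyp_oV.1] at this
      simp only [gr] at this
      linarith
    simp only [uu, B_sum_sum, gr, tG, dif_pos hh]
    exact hh.choose_spec
  let d : {x : V (m + 2) // Hyp x} → Set.range Gr ×
      (Fin (m + 3) → Fin (m + 3) → A ⧸ Ideal.span {Dall}) × Prop := fun x =>
    (⟨Gr x, x, rfl⟩, fun k j => Ideal.Quotient.mk _ (v x.1 x.2 k j), 0 < uu x 0)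
  have : Nonempty {x : V (m + 2) // Hyp x} := ⟨⟨_, Hyp_oV⟩⟩
  choose tc htc using fun x : {x : V (m + 2) // Hyp x} =>
    exists_coeff (hv1 x.1 x.2) (oV (m + 2))
  obtain ⟨M, hM⟩ := (Set.finite_range fun a => ∑ k, |tc (Function.invFun d a) k|).bddAbove
  refine ⟨M * C, fun x hx => ?_⟩
  set x' : {x : V (m + 2) // Hyp x} := ⟨x, hx⟩ with hx'
  have hM' : ∑ k, |tc (Function.invFun d (d x')) k| ≤ M := hM ⟨d x', rfl⟩
  have hd : d (Function.invFun d (d x')) = d x' := Function.invFun_eq ⟨x', rfl⟩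
  generalize Function.invFun d (d x') = y at hM' hd
  have e1 : Gr y = Gr x' := congrArg (fun a => a.1.1) hd
  have e2 : ∀ k j, Dall ∣ v y.1 y.2 k j - v x'.1 x'.2 k j := fun k j => by
    rw [← Ideal.mem_span_singleton, ← Ideal.Quotient.eq]
    exact congrFun (congrFun (congrArg (fun a => a.2.1) hd) k) j
  have e3 : (0 < uu y 0) ↔ 0 < uu x' 0 := iff_of_eq (congrArg (fun a => a.2.2) hd)
  obtain ⟨g, hg1, hg2⟩ := exists_equiv (hv1 y.1 y.2) (hv1 x'.1 x'.2) fun k l => by
    rw [gr, gr, e1]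
  have e4 : g (uu y) = uu x' := by simp only [uu, map_sum, map_smul, hg1, e1]
  have hlor : IsLor g := by
    by_cases h0 : 0 < uu y 0
    · exact isLor_of hg2 (huu y) h0 (by rw [e4]; exact e3.1 h0)
    · apply isLor_of hg2 (u := -uu y) (by rw [B_neg_left, B_neg_right, neg_neg]; exact huu y)
      · have := lt_of_le_of_ne (not_lt.1 h0) (time_ne_zero (huu y))
        simpa using this
      · have := lt_of_le_of_ne (not_lt.1 (mt e3.2 h0)) (time_ne_zero (huu x'))
        rw [map_neg, e4]; simpa using this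
  refine ⟨g, hlor, h.lat_map (hv1 y.1 y.2) (fun k j => (hdvd y).trans ?_) hg1,
    h.lat_map (hv1 x'.1 x'.2) (fun k j => (hdvd x').trans (e2 k j)) fun k => by
      rw [← hg1, inv_apply_self], ?_⟩
  · rw [← neg_sub]; exact (e2 k j).neg_right
  · rw [← htc y, map_sum, B_comm, B_sum_left]
    have hC0 : 0 ≤ C := (abs_nonneg _).trans (hv2 x hx 0)
    refine le_trans ?_ (mul_le_mul_of_nonneg_right hM' hC0)
    rw [Finset.sum_mul, ← Finset.sum_neg_distrib]
    refine Finset.sum_le_sum fun k _ => ?_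
    rw [map_smul, hg1, B_smul_left, B_comm]
    refine (neg_le_abs _).trans ?_
    rw [abs_mul]
    exact mul_le_mul_of_nonneg_left (hv2 x hx k) (abs_nonneg _)

end ArU

end Pool.Agent.Lib.MP_6d95fe_co.Hn
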