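import Pool.Agent.Lib.MP_6d95fe_co.Hn.Tree

/-!
Congruence of coronas, and injectivity of the family of tilings.
-/

set_option linter.unusedSectionVars false

namespace Pool.Agent.Lib.MP_6d95fe_co.Hn

namespace D2

variable {n H : ℕ} [NeZero (12 * H)] (D : D2 n (12 * H))

def mapS {h : V n ≃ₗ[ℝ] V n} {δ : ZMod (12 * H)} (hs : SymP D.S D.ℓ D.X0 h δ) (s : D.S) : D.S :=
  ⟨h s.1, (hs.2.1 _).1 s.2⟩

theorem mapS_inv {h : V n ≃ₗ[ℝ] V n} {δ : ZMod (12 * H)} (hs : SymP D.S D.ℓ D.X0 h δ)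
    (w : List D.S) : (w.map (D.mapS hs.inv)).map (D.mapS hs) = w := by
  rw [List.map_map]
  conv_rhs => rw [← List.map_id w]
  congr 1
  funext s
  exact Subtype.ext (self_apply_inv h s.1)

theorem wφ_map {h : V n ≃ₗ[ℝ] V n} {δ : ZMod (12 * H)} (hs : SymP D.S D.ℓ D.X0 h δ)
    (w : List D.S) : D.wφ (w.map (D.mapS hs)) * h = h * D.wφ w := by
  induction w with
  | nil => simp [wφ_nil]
  | cons s w ih =>
    rw [List.map_cons, wφ_cons, wφ_cons, mul_assoc, ih, ← mul_assoc, ← mul_assoc]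
    congr 1
    exact hs.1.refl_conj s.1

theorem lev_map {k : ℕ} (hH : H = 2 ^ k) {h : V n ≃ₗ[ℝ] V n} {δ : ZMod (12 * H)}
    (hs : SymP D.S D.ℓ D.X0 h δ) (w : List D.S) : ∀ (l m : ℕ) (s s' : St (12 * H)),
    w.length ≤ m → l + m ≤ k + 1 → Lev δ (l + m) s s' →
    Lev δ l (D.wst w s) (D.wst (w.map (D.mapS hs)) s') := by
  induction w with
  | nil =>
    intro l m s s' _ _ h
    simp only [List.map_nil, wst_nil]
    clear * - h
    induction m with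
    | zero => exact h
    | succ m ih => exact ih h.mono
  | cons t w ih =>
    intro l m s s' h1 h2 h3
    obtain ⟨m, rfl⟩ : ∃ m', m = m' + 1 := ⟨m - 1, by simp at h1; omega⟩
    rw [List.map_cons, wst_cons, wst_cons]
    apply ih l m _ _ (by simpa using h1) (by omega)
    have := Lev.mv (l := l + m) (by rw [hH]; exact pow_dvd_pow 2 (by omega)) h3 (D.ℓ t.1)
    rwa [← hs.2.2.1 _ t.2] at this

theorem near {φ : V n ≃ₗ[ℝ] V n} (hφ : IsLor φ) {st : St (12 * H)} {x z : V n} (hx : x ∈ D.X0)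
    (hc : st.cen = true) (hz : Hyp z) (hn : ∀ x' ∈ D.Pts φ st, B z x' ≤ B z (φ x)) :
    ∃ v : List D.S, v.length ≤ 2 ∧ ∃ y₀, D.Ω0 y₀ ∧ z = (φ * D.wφ v) y₀ := by
  obtain ⟨u, y₀, h1, h2⟩ := D.cover (hφ.inv.2 _ hz)
  have h3 : z = (φ * D.wφ u) y₀ := by rw [LinearEquiv.mul_apply, ← h2, self_apply_inv]
  obtain ⟨w, h4, -, x₀, h5, h6⟩ := D.loc (hφ.mul (D.wφ_lor u)) (st := D.wst u st) (x := φ x) h1
    (by rw [Pts_act]; exact ⟨[], hc, x, hx, rfl⟩) (by rw [Pts_act, ← h3]; exact hn)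
  have h7 : D.wφ (u ++ w) x₀ = x := by
    apply φ.injective
    rw [h6, wφ_append]; rfl
  have h8 := (D.uniq hx h5 h7).1
  refine ⟨w.reverse, by simpa using h4, y₀, h1, ?_⟩
  rw [h3, ← one_mul (D.wφ w.reverse), ← h8, wφ_append, mul_assoc (D.wφ u), wφ_rev', mul_one]

theorem cell_map {k : ℕ} (hH : H = 2 ^ k) {R : ℝ} {h Γ φ φ' : V n ≃ₗ[ℝ] V n} {δ : ZMod (12 * H)}
    (hs : SymP D.S D.ℓ D.X0 h δ) (hΓ : IsLor Γ) (hφ : IsLor φ) (hφ' : IsLor φ')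
    (he : Γ * φ = φ' * h) {s s' : St (12 * H)} (D' : Del (D.Pts φ' s') R) {l : ℕ}
    (hl : l + 4 ≤ k + 1) (hlev : Lev δ (l + 4) s s') (hc : s.cen = true) {x : V n}
    (hx : x ∈ D.X0) {z : HypSpace n} (hz : z ∈ cell (D.Pts φ s) (φ x)) :
    hΓ.toEquiv z ∈ cell (D.Pts φ' s') (φ' (h x)) := by
  obtain ⟨v, hv, y₀, hy, h1⟩ := D.near hφ hx hc z.2 hz
  have he' : ∀ w : List D.S, ∀ y, Γ (φ (D.wφ w y)) = φ' (D.wφ (w.map (D.mapS hs)) (h y)) := by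
    intro w y
    rw [← LinearEquiv.mul_apply Γ, he, LinearEquiv.mul_apply, ← LinearEquiv.mul_apply h,
      ← D.wφ_map hs]; rfl
  have h2 : Γ z.1 = (φ' * D.wφ (v.map (D.mapS hs))) (h y₀) := by rw [h1]; exact he' v y₀
  have hy' : D.Ω0 (h y₀) := ⟨hs.1.2 _ hy.1, fun t ht => by
    rw [← self_apply_inv h t, hs.1.1]; exact hy.2 _ ((hs.inv.2.1 _).1 ht)⟩
  obtain ⟨x'', h3, h4⟩ := D'.exists_nearest (hΓ.2 _ z.2)
  obtain ⟨w', h5, h6, x₀, h7, h8⟩ := D.loc (hφ'.mul (D.wφ_lor (v.map (D.mapS hs))))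
    (st := D.wst (v.map (D.mapS hs)) s') (x := x'') hy'
    (by rw [Pts_act]; exact h3) (by rw [Pts_act, ← h2]; exact h4)
  have h9 := D.lev_map hH hs (v ++ w'.map (D.mapS hs.inv)) l 4 s s' (by simp; omega) hl hlev
  rw [List.map_append, mapS_inv, D.wst_append _ w'] at h9
  have h10 : φ (D.wφ (v ++ w'.map (D.mapS hs.inv)) (h⁻¹ x₀)) ∈ D.Pts φ s :=
    ⟨_, h9.1.trans h6, _, (hs.inv.2.2.2 _).1 h7, rfl⟩
  have h11 := hz _ h10
  rw [← hΓ.1, ← hΓ.1 z.1, he', List.map_append, mapS_inv, self_apply_inv, wφ_append,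
    ← LinearEquiv.mul_apply Γ, he] at h11
  intro x' hx'
  refine (h4 x' hx').trans ?_
  rw [h8]
  exact h11

theorem cell_image {k : ℕ} (hH : H = 2 ^ k) {R : ℝ} {h Γ φ φ' : V n ≃ₗ[ℝ] V n}
    {δ : ZMod (12 * H)}
    (hs : SymP D.S D.ℓ D.X0 h δ) (hΓ : IsLor Γ) (hφ : IsLor φ) (hφ' : IsLor φ')
    (he : Γ * φ = φ' * h) {s s' : St (12 * H)} (D₀ : Del (D.Pts φ s) R)
    (D' : Del (D.Pts φ' s') R) {l : ℕ}
    (hl : l + 4 ≤ k + 1) (hlev : Lev δ (l + 4) s s') (hc : s.cen = true) {x : V n}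
    (hx : x ∈ D.X0) : hΓ.toEquiv '' cell (D.Pts φ s) (φ x) = cell (D.Pts φ' s') (φ' (h x)) := by
  apply Set.Subset.antisymm
  · rintro _ ⟨z, hz, rfl⟩
    exact D.cell_map hH hs hΓ hφ hφ' he D' hl hlev hc hx hz
  · intro z hz
    have := D.cell_map hH hs.inv hΓ.inv hφ' hφ (by
      rw [inv_mul_eq_iff_eq_mul, ← mul_assoc, he, mul_inv_cancel_right]) D₀ hl hlev.symm
      (hlev.1 ▸ hc) ((hs.2.2.2 _).1 hx) hz
    rw [inv_apply_self] at this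
    exact ⟨_, this, Subtype.ext (self_apply_inv Γ z.1)⟩

theorem corona_map {k : ℕ} (hH : H = 2 ^ k) {R : ℝ} {X : Set (V n)} (DX : Del X R)
    {h Γ φ φ' : V n ≃ₗ[ℝ] V n} {δ : ZMod (12 * H)}
    (hs : SymP D.S D.ℓ D.X0 h δ) (hΓ : IsLor Γ) (hφ : IsLor φ) (hφ' : IsLor φ')
    (he : Γ * φ = φ' * h) {s s' : St (12 * H)} (e : D.Pts φ s = X) (e' : D.Pts φ' s' = X) {K : ℕ}
    (hK : 4 * K + 4 ≤ k + 1) (hlev : Lev δ (4 * K + 4) s s') (hc : s.cen = true) {x : V n}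
    (hx : x ∈ D.X0) : ∀ Q ∈ corona (vor X) K (cell X (φ x)),
      hΓ.toEquiv '' Q ∈ corona (vor X) K (hΓ.toEquiv '' cell X (φ x)) := by
  apply corona_sub hΓ.toEquiv (fun l P => l ≤ K ∧ ∃ φ s φ' s' x, D.Pts φ s = X ∧ D.Pts φ' s' = X ∧
    IsLor φ ∧ IsLor φ' ∧ Γ * φ = φ' * h ∧ Lev δ (4 * l + 4) s s' ∧ s.cen = true ∧ x ∈ D.X0 ∧
    P = cell X (φ x)) K
  · rintro l _ ⟨hl, φ, s, φ', s', x, e, e', hφ, hφ', he, hlev, hc, hx, rfl⟩
    have := D.cell_image hH hs hΓ hφ hφ' he (e ▸ DX) (e' ▸ DX) (by omega) hlev hc hx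
    rw [e, e'] at this
    rw [this]
    refine ⟨_, ?_, rfl⟩
    rw [← e']
    exact ⟨[], hlev.1 ▸ hc, _, (hs.2.2.2 _).1 hx, rfl⟩
  · rintro l _ _ ⟨hl, φ, s, φ', s', x, e, e', hφ, hφ', he, hlev, hc, hx, rfl⟩ ⟨x'', hx'', rfl⟩
      ⟨z, hz1, hz2⟩
    obtain ⟨v, hv, y₀, hy, h1⟩ := D.near hφ hx hc z.2 (by rw [e]; exact hz1)
    obtain ⟨w, h5, h6, x₀, h7, h8⟩ := D.loc (hφ.mul (D.wφ_lor v)) (st := D.wst v s) (x := x'') hy
      (by rw [Pts_act, e]; exact hx'') (by rw [Pts_act, ← h1, e]; exact hz2)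
    refine ⟨by omega, φ * D.wφ (v ++ w), D.wst (v ++ w) s, φ' * D.wφ ((v ++ w).map (D.mapS hs)),
      D.wst ((v ++ w).map (D.mapS hs)) s', x₀, by rw [Pts_act, e], by rw [Pts_act, e'],
      hφ.mul (D.wφ_lor _), hφ'.mul (D.wφ_lor _), ?_,
      D.lev_map hH hs _ _ 4 s s' (by simp; omega) (by omega) hlev, by rwa [wst_append], h7, ?_⟩
    · rw [← mul_assoc, he, mul_assoc, mul_assoc, wφ_map]
    · rw [h8, wφ_append]; rfl
  · exact ⟨le_rfl, φ, s, φ', s', x, e, e', hφ, hφ', he, hlev, hc, hx, rfl⟩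

theorem coronasCongruent {k : ℕ} (hH : H = 2 ^ k) {R : ℝ} {st : St (12 * H)}
    (DX : Del (D.Pts 1 st) R) {K : ℕ} (hK : 4 * K + 4 ≤ k + 1) :
    CoronasCongruent (vor (D.Pts 1 st)) K := by
  rintro _ ⟨_, ⟨w, hc, x, hx, rfl⟩, rfl⟩ _ ⟨_, ⟨w', hc', x', hx', rfl⟩, rfl⟩
  obtain ⟨h, hs, rfl⟩ := D.sym x hx x' hx' ((D.wst w' st).f - (D.wst w st).f)
  have hφ := IsLor.one.mul (D.wφ_lor w)
  have hφ' := IsLor.one.mul (D.wφ_lor w')
  have hΓ := (hφ'.mul hs.1).mul hφ.inv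
  have he : 1 * D.wφ w' * h * (1 * D.wφ w)⁻¹ * (1 * D.wφ w) = 1 * D.wφ w' * h :=
    inv_mul_cancel_right _ _
  have hlev : Lev ((D.wst w' st).f - (D.wst w st).f) (4 * K + 4) (D.wst w st) (D.wst w' st) :=
    ⟨hc.trans hc'.symm, 0, by simp⟩
  have e := D.Pts_act 1 st w
  have e' := D.Pts_act 1 st w'
  have a0 := D.cell_image hH hs hΓ hφ hφ' he (e ▸ DX) (e' ▸ DX) hK hlev hc hx
  rw [e, e'] at a0
  have a1 := D.corona_map hH DX hs hΓ hφ hφ' he e e' hK hlev hc hx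
  have a2 := D.corona_map hH DX hs.inv hΓ.inv hφ' hφ (by
    rw [inv_mul_eq_iff_eq_mul, ← mul_assoc, he, mul_inv_cancel_right]) e' e hK hlev.symm hc'
    ((hs.2.2.2 _).1 hx)
  have e3 : ∀ Q, hΓ.toEquiv '' (hΓ.inv.toEquiv '' Q) = Q := fun Q =>
    hΓ.toEquiv.image_symm_image Q
  have e4 : ∀ Q, hΓ.inv.toEquiv '' (hΓ.toEquiv '' Q) = Q := fun Q =>
    hΓ.toEquiv.symm_image_image Q
  rw [← a0, e4, a0] at a2
  rw [a0] at a1
  refine ⟨hΓ.toEquiv, hΓ.isIsom, a0, ?_⟩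
  ext Q
  constructor
  · rintro ⟨Q, hQ, rfl⟩; exact a1 Q hQ
  · intro hQ; exact ⟨_, a2 Q hQ, e3 Q⟩

theorem fold_lt {x₀ : V n} (hx₀ : x₀ ∈ D.X0) (w : List D.S) : ∀ (t : D.S) (y : V n), Hyp y →
    B y t.1 < 0 → (t :: w).IsChain (· ≠ ·) → B y (D.wφ (t :: w) x₀) < B y x₀ := by
  induction w with
  | nil =>
    intro t y _ h _
    rw [wφ_cons, wφ_nil, mul_one, B_refl (D.unit _ t.2)]
    nlinarith [D.ins _ hx₀ _ t.2]
  | cons r w ih =>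
    intro t y hy h hw
    rw [List.isChain_cons_cons] at hw
    have lt := refl_lor (s := t.1) (by rw [D.unit _ t.2]; norm_num)
    have a := D.far1 hw.1 (lt.2 _ hy)
    rw [B_refl_self (D.unit _ t.2)] at a
    have b := ih r _ (lt.2 _ hy) (by linarith) hw.2
    rw [wφ_cons, LinearEquiv.mul_apply, ← refl_B t.1, refl_refl]
    refine b.trans ?_
    rw [B_comm, B_refl (D.unit _ t.2), B_comm x₀ y]
    nlinarith [D.ins _ hx₀ _ t.2]

theorem side_of_uniq {φ : V n ≃ₗ[ℝ] V n} (hφ : IsLor φ) {st : St (12 * H)} {x : V n}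
    {z : V n} (hz : Hyp z) (hx : x ∈ D.Pts φ st) (hn : ∀ x' ∈ D.Pts φ st, B z x' ≤ B z x)
    (hc : st.cen = true) {s : D.S} (h1 : B z (φ s.1) < 0) : B x (φ s.1) < 0 := by
  obtain ⟨w₀, -, x₀, hx₀, rfl⟩ := hx
  obtain ⟨w, hw, -, h3, -⟩ := D.reduce w₀
  rw [← h3] at hn ⊢
  rw [hφ.1]
  have h4 := hn _ ⟨[], hc, x₀, hx₀, rfl⟩
  rw [← hφ.B_inv] at h1
  rw [← hφ.B_inv, ← hφ.B_inv, wφ_nil] at h4
  have hy := hφ.inv.2 _ hz
  generalize φ⁻¹ z = y at h1 h4 hy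
  cases w with
  | nil => exact D.ins _ hx₀ _ s.2
  | cons t w =>
    have h5 := D.nested (D.X0_Ω0 hx₀) w t hw
    by_cases hts : t = s
    · subst hts
      exfalso
      exact absurd h4 (not_le.2 (D.fold_lt hx₀ w t y hy h1 hw))
    · have := D.far1 hts ((D.wφ_lor (t :: w)).2 _ (D.hyp _ hx₀))
      have : (0 : ℝ) ≤ w.length := Nat.cast_nonneg _
      linarith

/-- Some tile has points on both sides of the hyperplane. -/
def Cross (T : Set (Set (HypSpace n))) (ν : V n) : Prop :=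
  ∃ P ∈ T, ∃ y ∈ P, ∃ y' ∈ P, B y.1 ν < 0 ∧ 0 < B y'.1 ν

theorem not_cross {φ : V n ≃ₗ[ℝ] V n} (hφ : IsLor φ) {st : St (12 * H)} (hc : st.cen = true)
    {s : D.S} (hc' : (st.mv (D.ℓ s.1)).cen = true) : ¬ Cross (vor (D.Pts φ st)) (φ s.1) := by
  rintro ⟨_, ⟨x, hx, rfl⟩, y, hy, y', hy', h1, h2⟩
  have a := D.side_of_uniq hφ y.2 hx hy hc h1
  have e : (φ * D.wφ [s]) s.1 = - φ s.1 := by
    rw [wφ_cons, wφ_nil, mul_one, LinearEquiv.mul_apply, refl_apply (D.unit _ s.2),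
      D.unit _ s.2, ← map_neg]
    congr 1; module
  have b := D.side_of_uniq (hφ.mul (D.wφ_lor [s])) (st := D.wst [s] st) (x := x) y'.2
    (by rw [Pts_act]; exact hx) (by rw [Pts_act]; exact hy') hc' (s := s)
    (by rw [e, B_neg_right]; linarith)
  rw [e, B_neg_right] at b
  linarith

theorem cross {φ : V n ≃ₗ[ℝ] V n} (hφ : IsLor φ) {st : St (12 * H)} {R : ℝ}
    (DX : Del (D.Pts φ st) R) (hc : st.cen = true)
    {s : D.S} (hc' : (st.mv (D.ℓ s.1)).cen = false) : Cross (vor (D.Pts φ st)) (φ s.1) := by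
  have us := D.unit _ s.2
  have uν : B (φ s.1) (φ s.1) = 1 := by rw [hφ.1, us]
  obtain ⟨y₀, hy₀, h0⟩ : ∃ y₀, Hyp y₀ ∧ B y₀ s.1 = 0 := by
    set a := B (oV n) s.1 with ha
    have hq := Real.mul_self_sqrt (show 0 ≤ 1 + a ^ 2 by positivity)
    have hq0 := Real.sqrt_pos.2 (show 0 < 1 + a ^ 2 by positivity)
    have ho : B (oV n) (oV n) = -1 := Hyp_oV.1
    refine ⟨(√(1 + a ^ 2))⁻¹ • (oV n - a • s.1), hyp_of_B ?_ Hyp_oV ?_, ?_⟩
    · simp only [B_smul_left, B_smul_right, B_sub_left, B_sub_right, ho, us, B_comm s.1 (oV n),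
        ← ha]
      field_simp; nlinarith
    · simp only [B_smul_left, B_sub_left, ho, B_comm s.1 (oV n), ← ha]
      apply mul_neg_of_pos_of_neg (by positivity); nlinarith
    · simp only [B_smul_left, B_sub_left, us, ← ha]; ring
  have hΩ : D.Ω0 y₀ := ⟨hy₀, fun t ht => by
    by_cases h : s = ⟨t, ht⟩
    · rw [h] at h0; exact h0.le
    · have := D.far1 h hy₀
      simp only at this; linarith⟩
  have hne : ∀ x ∈ D.Pts φ st, 0 ≤ B x (φ s.1) → ¬ ∀ x' ∈ D.Pts φ st,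
      B (φ y₀) x' ≤ B (φ y₀) x := by
    rintro _ ⟨w₀, hw₀, x₀, hx₀, rfl⟩ h1 hn
    obtain ⟨w, hw, -, h3, h4⟩ := D.reduce w₀
    rw [← h3] at hn h1
    rw [← h4] at hw₀
    rw [hφ.1] at h1
    match w, hw with
    | [], _ => exact absurd h1 (not_le.2 (D.ins _ hx₀ _ s.2))
    | t :: w, hw =>
      have h5 := D.nested (D.X0_Ω0 hx₀) w t hw
      have h6 : (0 : ℝ) ≤ w.length := Nat.cast_nonneg _
      have hts : t = s := by
        by_contra hts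
        have := D.far1 hts ((D.wφ_lor (t :: w)).2 _ (D.hyp _ hx₀))
        linarith
      subst hts
      match w, hw with
      | [], _ => rw [wst_cons, wst_nil, hc'] at hw₀; exact absurd hw₀ (by simp)
      | r :: w, hw =>
        have h7 := hn _ ⟨[], hc, x₀, hx₀, rfl⟩
        rw [hφ.1, hφ.1, wφ_cons, LinearEquiv.mul_apply, B_refl us, h0] at h7
        rw [List.isChain_cons_cons] at hw
        have h8 := D.far1 hw.1 hy₀
        have := D.fold_lt hx₀ w r y₀ hy₀ (by linarith) hw.2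
        simp only [wφ_nil, LinearEquiv.coe_one, id_eq] at h7
        linarith
  have hcl := DX.isClosed_union {x | x ∈ D.Pts φ st ∧ 0 ≤ B x (φ s.1)} fun _ h => h.1
  obtain ⟨y', hy', h2⟩ := exists_push uν (x := ⟨φ y₀, hφ.2 _ hy₀⟩) (by rw [hφ.1]; exact h0)
    hcl.isOpen_compl (by
      intro h
      obtain ⟨x, hx⟩ := Set.mem_iUnion.1 h
      exact hne x.1 x.2.1 x.2.2 hx)
  obtain ⟨x, hx, h3⟩ := DX.exists_nearest (y := y'.1) y'.2
  refine ⟨_, ⟨x, hx, rfl⟩, _, DX.self_mem hx, y', h3, ?_, h2⟩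
  by_contra h4
  exact hy' (Set.mem_iUnion.2 ⟨⟨x, hx, not_lt.1 h4⟩, h3⟩)

theorem vor_injective {k : ℕ} (hH : H = 2 ^ k) {R : ℝ} (DX : ∀ st, Del (D.Pts 1 st) R) :
    Function.Injective fun ω : ℕ → Bool => vor (D.Pts 1 ⟨ω, 0, true⟩) := by
  intro ω ω' h
  have hcol : ∀ w : List D.S, (D.wst w ⟨ω, 0, true⟩).cen = true →
      (D.wst w ⟨ω', 0, true⟩).cen = true → ∀ l, 3 ∣ (l - (D.wst w ⟨ω, 0, true⟩).f).val ↔
        3 ∣ (l - (D.wst w ⟨ω', 0, true⟩).f).val := by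
    intro w h1 h2 l
    obtain ⟨s, hs, rfl⟩ := D.labels l
    have hφ := IsLor.one.mul (D.wφ_lor w)
    have e := D.Pts_act 1 ⟨ω, 0, true⟩ w
    have e' := D.Pts_act 1 ⟨ω', 0, true⟩ w
    have a1 := D.not_cross hφ h1 (s := ⟨s, hs⟩)
    have a2 := D.not_cross hφ h2 (s := ⟨s, hs⟩)
    have b1 := D.cross hφ (e ▸ DX _) h1 (s := ⟨s, hs⟩)
    have b2 := D.cross hφ (e' ▸ DX _) h2 (s := ⟨s, hs⟩)
    simp only at h
    rw [e, h] at a1 b1
    rw [e'] at a2 b2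
    rw [← not_iff_not, ← St.cen_mv_iff h1, ← St.cen_mv_iff h2]
    simp only [Bool.eq_false_iff] at b1 b2
    tauto
  exact decode hH (fun s s' => ∃ w : List D.S, s = D.wst w ⟨ω, 0, true⟩ ∧
      s' = D.wst w ⟨ω', 0, true⟩ ∧ s.cen = true ∧ s'.cen = true)
    (fun s s' ⟨_, _, _, h⟩ => h)
    (by rintro _ _ ⟨w, rfl, rfl, h1, h2⟩; exact hcol w h1 h2)
    (by
      rintro _ _ ⟨w, rfl, rfl, h1, h2⟩ l hl
      have hl' := mt (hcol w h1 h2 l).2 hl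
      obtain ⟨s, hs, rfl⟩ := D.labels l
      exact ⟨w ++ [⟨s, hs⟩], by rw [wst_append]; rfl, by rw [wst_append]; rfl,
        (St.cen_mv_iff h1).2 hl, (St.cen_mv_iff h2).2 hl'⟩)
    ⟨ω, 0, true⟩ ⟨ω', 0, true⟩ ⟨[], rfl, rfl, rfl, rfl⟩ rfl

include D in
theorem main {k : ℕ} (hH : H = 2 ^ k) {K : ℕ} (hK : 4 * K + 4 ≤ k + 1) :
    ∃ T : Set (Set (HypSpace n)), IsTiling T ∧ IsMonohedral T ∧ IsFaceToFace T ∧
      CoronasCongruent T K ∧ ¬ IsIsohedral T := by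
  obtain ⟨R, hR⟩ := D.exists_del
  have : Uncountable (ℕ → Bool) := by
    rw [← Cardinal.aleph0_lt_mk_iff]
    simp [Cardinal.aleph0_lt_continuum]
  obtain ⟨ω, hω⟩ := exists_not_isohedral (fun ω : ℕ → Bool => D.Pts 1 ⟨ω, 0, true⟩)
    (fun ω => hR _) D.Xhat_countable (fun ω => D.Pts_sub _) (D.vor_injective hH hR)
  have hc := D.coronasCongruent hH (hR ⟨ω, 0, true⟩) hK
  refine ⟨_, (hR _).isTiling, ?_, (hR _).isFaceToFace, hc, hω⟩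
  obtain ⟨x, hx, -⟩ := (hR ⟨ω, 0, true⟩).dense _ Hyp_oV
  refine ⟨cell (D.Pts 1 ⟨ω, 0, true⟩) x, fun P hP => ?_⟩
  obtain ⟨g, h1, h2, -⟩ := hc _ ⟨x, hx, rfl⟩ P hP
  exact ⟨g, h1, h2⟩

end D2

end Pool.Agent.Lib.MP_6d95fe_co.Hn
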