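import Pool.Agent.Lib.MP_6d95fe_co.Hn.Voronoi

/-!
Only countably many Voronoi tilings with sites in a countable set are isohedral.
-/

namespace Pool.Agent.Lib.MP_6d95fe_co.Hn

variable {n : ℕ}

/-- `c` is the centre of a smallest ball containing `P`. -/
def IsCen (P : Set (HypSpace n)) (c : HypSpace n) : Prop :=
  ∃ r, (∀ y ∈ P, -B c.1 y.1 ≤ r) ∧ ∀ (c' : HypSpace n) r', (∀ y ∈ P, -B c'.1 y.1 ≤ r') → r ≤ r'

theorem IsCen.unique {P : Set (HypSpace n)} {c c' : HypSpace n} (h : IsCen P c)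
    (h' : IsCen P c') : c = c' := by
  obtain ⟨r, h1, h2⟩ := h
  obtain ⟨r', h1', h2'⟩ := h'
  have hr : r = r' := le_antisymm (h2 c' r' h1') (h2' c r h1)
  subst hr
  by_contra hne
  have hc : Hyp c.1 := c.2
  have hc' : Hyp c'.1 := c'.2
  have h3 : B c.1 c'.1 < -1 := lt_of_not_ge fun h => hne (Subtype.ext (hc.eq_of_B hc' h))
  rcases P.eq_empty_or_nonempty with rfl | ⟨y₀, hy₀⟩
  · linarith [h2 c (r - 1) (by simp)]
  have hr1 : 1 ≤ r := by linarith [h1 y₀ hy₀, hc.B_le (y := y₀.1) y₀.2]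
  set N := √(2 - 2 * B c.1 c'.1) with hN
  have hN2 : N * N = 2 - 2 * B c.1 c'.1 := Real.mul_self_sqrt (by linarith)
  have hN0 : 0 ≤ N := Real.sqrt_nonneg _
  have hN3 : 2 < N := by nlinarith
  have hm : Hyp (N⁻¹ • (c.1 + c'.1)) := by
    apply hyp_of_B _ hc
    · simp only [B_smul_left, B_add_left, hc.1, B_comm c'.1 c.1]
      apply mul_neg_of_pos_of_neg (by positivity); linarith
    · simp only [B_smul_left, B_smul_right, B_add_left, B_add_right, hc.1, hc'.1, B_comm c'.1 c.1]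
      field_simp; nlinarith
  have h4 := h2 ⟨_, hm⟩ (N⁻¹ * (2 * r)) (by
    intro y hy
    simp only [B_smul_left, B_add_left]
    have := mul_le_mul_of_nonneg_left (show -(B c.1 y.1 + B c'.1 y.1) ≤ 2 * r by
      linarith [h1 y hy, h1' y hy]) (inv_nonneg.2 hN0)
    linarith)
  rw [← div_eq_inv_mul, le_div_iff₀ (by linarith)] at h4
  nlinarith

theorem exists_isCen {P : Set (HypSpace n)} {y₀ : HypSpace n} (hy₀ : y₀ ∈ P) {r₀ : ℝ}
    (h₀ : ∀ y ∈ P, -B y₀.1 y.1 ≤ r₀) : ∃ c, IsCen P c := by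
  let A : Set ℝ := {r | ∃ c : HypSpace n, ∀ y ∈ P, -B c.1 y.1 ≤ r}
  have hA : A.Nonempty := ⟨r₀, y₀, h₀⟩
  have hb : BddBelow A := ⟨1, by
    rintro r ⟨c, hc⟩
    linarith [hc y₀ hy₀, Hyp.B_le (x := c.1) (y := y₀.1) c.2 y₀.2]⟩
  let K : ℕ → Set (HypSpace n) := fun k => {c | ∀ y ∈ P, -B c.1 y.1 ≤ sInf A + 1 / ((k : ℝ) + 1)}
  have hcl : ∀ k, IsClosed (K k) := by
    intro k
    have : K k = ⋂ y ∈ P, {c | -B c.1 y.1 ≤ sInf A + 1 / ((k : ℝ) + 1)} := by ext c; simp [K]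
    rw [this]
    exact isClosed_biInter fun _ _ => isClosed_le (continuous_B_sub _).neg continuous_const
  obtain ⟨c, hc⟩ := IsCompact.nonempty_iInter_of_sequence_nonempty_isCompact_isClosed K
    (fun k c hc y hy => (hc y hy).trans (by
      have := Nat.one_div_le_one_div (α := ℝ) (Nat.le_succ k)
      linarith))
    (fun k => by
      obtain ⟨r, ⟨c, hc⟩, hr⟩ := exists_lt_of_csInf_lt hA
        (show sInf A < sInf A + 1 / ((k : ℝ) + 1) by
          have : (0 : ℝ) < 1 / ((k : ℝ) + 1) := Nat.one_div_pos_of_nat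
          linarith)
      exact ⟨c, fun y hy => (hc y hy).trans hr.le⟩)
    ((isCompact_ball y₀ _).of_isClosed_subset (hcl 0) fun c hc => hc y₀ hy₀) hcl
  refine ⟨c, sInf A, fun y hy => ?_, fun c' r' h => csInf_le hb ⟨c', h⟩⟩
  apply le_of_forall_pos_le_add
  intro ε hε
  obtain ⟨k, hk⟩ := exists_nat_one_div_lt hε
  have := Set.mem_iInter.1 hc k y hy
  linarith

theorem IsIsom.symm {g : HypSpace n ≃ HypSpace n} (hg : IsIsom g) : IsIsom g.symm :=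
  fun x y => by rw [← hg, g.apply_symm_apply, g.apply_symm_apply]

theorem IsCen.map {P : Set (HypSpace n)} {c : HypSpace n} (h : IsCen P c)
    {g : HypSpace n ≃ HypSpace n} (hg : IsIsom g) : IsCen (g '' P) (g c) := by
  rw [isIsom_iff] at hg
  obtain ⟨r, h1, h2⟩ := h
  refine ⟨r, ?_, fun c' r' h => h2 (g.symm c') r' fun y hy => ?_⟩
  · rintro _ ⟨y, hy, rfl⟩; rw [hg]; exact h1 y hy
  · rw [← hg, g.apply_symm_apply]; exact h _ ⟨y, hy, rfl⟩

theorem exists_finite_span {Z : Set (HypSpace n)}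
    (h : ∀ ν : V n, (∀ z ∈ Z, B z.1 ν = 0) → ν = 0) :
    ∃ b ⊆ Z, b.Finite ∧ ∀ ν : V n, (∀ z ∈ b, B z.1 ν = 0) → ν = 0 := by
  obtain ⟨b, hb, hs, hli⟩ := exists_linearIndependent ℝ (Subtype.val '' Z)
  have hf : b.Finite := hli.set_finite_of_isNoetherian
  refine ⟨{z | z ∈ Z ∧ z.1 ∈ b}, fun _ h => h.1, ?_, fun ν hν => h ν fun z hz => ?_⟩
  · exact (hf.preimage Subtype.val_injective.injOn).subset fun _ h => h.2
  · have h1 : Submodule.span ℝ b ≤ LinearMap.ker (Bl ν) := by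
      rw [Submodule.span_le]
      intro x hx
      obtain ⟨z, hz, rfl⟩ := hb hx
      exact hν z ⟨hz, hx⟩
    exact h1 (hs ▸ Submodule.subset_span ⟨z, hz, rfl⟩)

theorem countable_isoms {Z : Set (HypSpace n)} (hZ : Z.Countable) :
    {g : HypSpace n ≃ HypSpace n | IsIsom g ∧ ∃ b ⊆ Z, b.Finite ∧ (∀ z ∈ b, g z ∈ Z) ∧
      ∀ ν : V n, (∀ z ∈ b, B (g z).1 ν = 0) → ν = 0}.Countable := by
  have h1 := Set.countable_ofPred_finite_subset hZ
  apply Set.Countable.mono _ (h1.biUnion (t := fun b _ =>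
    {g : HypSpace n ≃ HypSpace n | IsIsom g ∧ (∀ z ∈ b, g z ∈ Z) ∧
      ∀ ν : V n, (∀ z ∈ b, B (g z).1 ν = 0) → ν = 0}) ?_)
  · rintro g ⟨hg, b, hb, hf, h2, h3⟩
    exact Set.mem_iUnion₂.2 ⟨b, ⟨hf, hb⟩, hg, h2, h3⟩
  · rintro b ⟨hf, -⟩
    have := hf.to_subtype
    apply Set.countable_of_injective_of_countable_image (f := fun g (z : b) => g z)
    · rintro g ⟨hg, -, h2⟩ g' ⟨hg', -, -⟩ h
      rw [isIsom_iff] at hg hg'
      ext1 y
      apply Subtype.ext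
      apply sub_eq_zero.1
      apply h2
      intro z hz
      have e : g z = g' z := congrFun h ⟨z, hz⟩
      rw [B_sub_right, hg, e, hg', sub_self]
    · apply (Set.countable_pi (s := fun _ : b => Z) fun _ => hZ).mono
      rintro _ ⟨g, ⟨-, h2, -⟩, rfl⟩ z
      exact h2 z z.2

def IsSym (T : Set (Set (HypSpace n))) (g : HypSpace n ≃ HypSpace n) : Prop :=
  (fun Q => g '' Q) '' T = T

theorem IsSym.mem {T : Set (Set (HypSpace n))} {g : HypSpace n ≃ HypSpace n} (h : IsSym T g)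
    {P : Set (HypSpace n)} (hP : P ∈ T) : g '' P ∈ T := by
  rw [← h]; exact ⟨P, hP, rfl⟩

theorem IsSym.symm_mem {T : Set (Set (HypSpace n))} {g : HypSpace n ≃ HypSpace n}
    (h : IsSym T g) {P : Set (HypSpace n)} (hP : P ∈ T) : g.symm '' P ∈ T := by
  rw [← h] at hP
  obtain ⟨Q, hQ, rfl⟩ := hP
  simpa only [Equiv.symm_image_image] using hQ

theorem IsSym.trans {T : Set (Set (HypSpace n))} {g a : HypSpace n ≃ HypSpace n}
    (hg : IsSym T g) (ha : IsSym T a) : IsSym T (a.trans g) := by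
  unfold IsSym at *
  conv_rhs => rw [← hg, ← ha]
  simp only [Set.image_image, Equiv.coe_trans, Function.comp_apply]

theorem IsSym.refl (T : Set (Set (HypSpace n))) : IsSym T (Equiv.refl _) := by
  simp [IsSym]

theorem vor_sub {X : Set (V n)} {R : ℝ} (D : Del X R) {T' : Set (Set (HypSpace n))}
    {P₀ : Set (HypSpace n)} (h₀ : P₀ ∈ vor X) (h₀' : P₀ ∈ T')
    {A : Set (HypSpace n ≃ HypSpace n)} (hA : ∀ g ∈ A, IsSym (vor X) g)
    (hA' : ∀ g ∈ A, IsSym T' g)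
    (hn : ∀ Q ∈ vor X, (P₀ ∩ Q).Nonempty → ∃ g ∈ A, g '' P₀ = Q) : vor X ⊆ T' := by
  have := D.connect (fun Q => ∃ g, IsSym (vor X) g ∧ IsSym T' g ∧ g '' P₀ = Q) h₀
    ⟨Equiv.refl _, IsSym.refl _, IsSym.refl _, by simp⟩ (by
      rintro _ - Q hQ ⟨z, hz, hz'⟩ ⟨g, h1, h2, rfl⟩
      obtain ⟨w, hw, rfl⟩ := hz
      obtain ⟨a, ha, h3⟩ := hn _ (h1.symm_mem hQ) ⟨w, hw, g w, hz', by simp⟩
      refine ⟨a.trans g, h1.trans (hA a ha), h2.trans (hA' a ha), ?_⟩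
      rw [Equiv.coe_trans, Set.image_comp, h3, Equiv.image_symm_image])
  intro Q hQ
  obtain ⟨g, -, h2, rfl⟩ := this Q hQ
  exact h2.mem h₀'

theorem exists_not_isohedral {ι : Type} [Uncountable ι] (X : ι → Set (V n)) {R : ℝ}
    (D : ∀ i, Del (X i) R) {Y : Set (V n)} (hY : Y.Countable) (hsub : ∀ i, X i ⊆ Y)
    (hinj : Function.Injective fun i => vor (X i)) : ∃ i, ¬ IsIsohedral (vor (X i)) := by
  by_contra hc
  push Not at hc
  let 𝓣 : Set (Set (HypSpace n)) :=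
    (fun a : Set (V n) × V n => cell a.1 a.2) '' ({F | F.Finite ∧ F ⊆ Y} ×ˢ Y)
  have h𝓣 : 𝓣.Countable := ((Set.countable_ofPred_finite_subset hY).prod hY).image _
  have hmem : ∀ i, vor (X i) ⊆ 𝓣 := by
    rintro i _ ⟨x, hx, rfl⟩
    exact ⟨(_, x), ⟨⟨(D i).fin x _ ((D i).hyp x hx), fun _ h => hsub i h.1⟩, hsub i hx⟩,
      ((D i).cell_eq_finite hx).symm⟩
  let Z : Set (HypSpace n) := ⋃ P ∈ 𝓣, {c | IsCen P c}
  have hZ : Z.Countable := h𝓣.biUnion fun P _ =>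
    Set.Subsingleton.countable fun _ h _ h' => IsCen.unique h h'
  have h𝓒 := countable_isoms hZ
  set 𝓒 := {g : HypSpace n ≃ HypSpace n | IsIsom g ∧ ∃ b ⊆ Z, b.Finite ∧ (∀ z ∈ b, g z ∈ Z) ∧
      ∀ ν : V n, (∀ z ∈ b, B (g z).1 ν = 0) → ν = 0}
  have hsym : ∀ i g, IsIsom g → IsSym (vor (X i)) g → g ∈ 𝓒 := by
    intro i g hg hs
    have hR := (D i).one_le
    obtain ⟨b, hb, hf, h1⟩ := exists_finite_span (Z := {c | ∃ P ∈ vor (X i), IsCen P c}) (by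
      intro ν hν
      apply dense_span (Z := Subtype.val '' {c | ∃ P ∈ vor (X i), IsCen P c}) (R := R)
      · rintro _ ⟨z, -, rfl⟩; exact z.2
      · intro y hy
        obtain ⟨x, hx, h⟩ := (D i).exists_nearest hy
        have h2 : ∀ z ∈ cell (X i) x, -B x z.1 ≤ R := fun z hz => by
          rw [B_comm]; exact (D i).cell_bound hz
        obtain ⟨c, hc⟩ := exists_isCen ((D i).self_mem hx) h2
        refine ⟨c.1, ⟨c, ⟨_, ⟨x, hx, rfl⟩, hc⟩, rfl⟩, ?_⟩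
        obtain ⟨r, h3, h4⟩ := hc
        exact (h3 ⟨y, hy⟩ h).trans (h4 ⟨x, (D i).hyp x hx⟩ R h2)
      · rintro _ ⟨z, hz, rfl⟩; exact hν z hz)
    refine ⟨hg, g.symm '' b, ?_, hf.image _, ?_, fun ν hν => h1 ν fun z hz => ?_⟩
    · rintro _ ⟨z, hz, rfl⟩
      obtain ⟨P, hP, h⟩ := hb hz
      exact Set.mem_iUnion₂.2 ⟨_, hmem i (hs.symm_mem hP), h.map hg.symm⟩
    · rintro _ ⟨z, hz, rfl⟩
      obtain ⟨P, hP, h⟩ := hb hz
      rw [g.apply_symm_apply]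
      exact Set.mem_iUnion₂.2 ⟨_, hmem i hP, h⟩
    · simpa using hν (g.symm z) ⟨z, hz, rfl⟩
  have key : ∀ i, ∃ a : Set (HypSpace n) × Set (HypSpace n ≃ HypSpace n),
      a ∈ 𝓣 ×ˢ {A | A.Finite ∧ A ⊆ 𝓒} ∧ a.1 ∈ vor (X i) ∧ (∀ g ∈ a.2, IsSym (vor (X i)) g) ∧
      ∀ Q ∈ vor (X i), (a.1 ∩ Q).Nonempty → ∃ g ∈ a.2, g '' a.1 = Q := by
    intro i
    obtain ⟨x, hx, -⟩ := (D i).dense _ Hyp_oV
    have hP : cell (X i) x ∈ vor (X i) := ⟨x, hx, rfl⟩
    have hN := (D i).finite_nbrs hP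
    have h1 : ∀ Q : {Q | Q ∈ vor (X i) ∧ (cell (X i) x ∩ Q).Nonempty}, ∃ g, IsIsom g ∧
        IsSym (vor (X i)) g ∧ g '' cell (X i) x = Q := fun Q => hc i _ hP Q Q.2.1
    choose g hg1 hg2 hg3 using h1
    have := hN.to_subtype
    refine ⟨(cell (X i) x, Set.range g), ⟨hmem i hP, Set.finite_range g, ?_⟩, hP, ?_,
      fun Q hQ h => ⟨g ⟨Q, hQ, h⟩, ⟨_, rfl⟩, hg3 _⟩⟩
    · rintro _ ⟨Q, rfl⟩; exact hsym i _ (hg1 Q) (hg2 Q)
    · rintro _ ⟨Q, rfl⟩; exact hg2 Q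
  choose a ha1 ha2 ha3 ha4 using key
  have hcount := h𝓣.prod (Set.countable_ofPred_finite_subset h𝓒)
  have hai : Function.Injective a := by
    intro i j h
    apply hinj
    apply Set.Subset.antisymm
    · exact vor_sub (D i) (ha2 i) (h ▸ ha2 j) (ha3 i) (h ▸ ha3 j) (ha4 i)
    · exact vor_sub (D j) (ha2 j) (h ▸ ha2 i) (ha3 j) (h ▸ ha3 i) (ha4 j)
  have : (Set.univ : Set ι).Countable :=
    Set.countable_of_injective_of_countable_image hai.injOn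
      (hcount.mono (by rintro _ ⟨i, -, rfl⟩; exact ha1 i))
  exact Set.not_countable_univ this

end Pool.Agent.Lib.MP_6d95fe_co.Hn
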