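import Mathlib

/-!
Tilings of hyperbolic `n`-space in the hyperboloid model.
-/

namespace Pool.Agent.Lib.MP_6d95fe_co.Hn

/-- The Lorentz form of signature `(n, 1)` on `ℝ^(n+1)`. -/
def lorentz {n : ℕ} (x y : Fin (n + 1) → ℝ) : ℝ :=
  -(x 0 * y 0) + ∑ i : Fin n, x i.succ * y i.succ

/-- Hyperbolic `n`-space: the upper sheet of the hyperboloid, with the subspace topology. -/
abbrev HypSpace (n : ℕ) : Type := {x : Fin (n + 1) → ℝ // lorentz x x = -1 ∧ 0 < x 0}

/-- The hyperbolic distance. -/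
noncomputable def hdist {n : ℕ} (x y : HypSpace n) : ℝ := Real.arcosh (-lorentz x.1 y.1)

/-- An isometry of hyperbolic space: a bijection preserving the hyperbolic distance. -/
def IsIsom {n : ℕ} (g : HypSpace n ≃ HypSpace n) : Prop :=
  ∀ x y, hdist (g x) (g y) = hdist x y

/-- A convex polytope: a compact set with nonempty interior that is the intersection of finitely
many closed half-spaces. Every closed half-space is the set of points at least as close to some
point `p` as to some other point `q`. -/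
def IsPolytope {n : ℕ} (P : Set (HypSpace n)) : Prop :=
  IsCompact P ∧ (interior P).Nonempty ∧
    ∃ A : Set (HypSpace n × HypSpace n), A.Finite ∧ (∀ a ∈ A, a.1 ≠ a.2) ∧
      P = {z | ∀ a ∈ A, hdist z a.1 ≤ hdist z a.2}

/-- `F` is a face of the polytope `P`: either `P` itself, or the intersection of `P` with the
boundary hyperplane of a closed half-space containing `P`. -/
def IsFaceOf {n : ℕ} (F P : Set (HypSpace n)) : Prop :=
  F = P ∨ ∃ p q : HypSpace n, p ≠ q ∧ (∀ z ∈ P, hdist z p ≤ hdist z q) ∧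
    F = P ∩ {z | hdist z p = hdist z q}

/-- A tiling: a countable family of closed sets covering the space, with pairwise disjoint
interiors. -/
def IsTiling {n : ℕ} (T : Set (Set (HypSpace n))) : Prop :=
  T.Countable ∧ (∀ P ∈ T, IsClosed P) ∧ (∀ z, ∃ P ∈ T, z ∈ P) ∧
    ∀ P ∈ T, ∀ Q ∈ T, P ≠ Q → Disjoint (interior P) (interior Q)

/-- All tiles are congruent to one prototile. -/
def IsMonohedral {n : ℕ} (T : Set (Set (HypSpace n))) : Prop :=
  ∃ P₀ : Set (HypSpace n), ∀ P ∈ T, ∃ g, IsIsom g ∧ g '' P₀ = P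

/-- Every tile is a convex polytope and any two tiles meet in the empty set or in a face of
each. -/
def IsFaceToFace {n : ℕ} (T : Set (Set (HypSpace n))) : Prop :=
  (∀ P ∈ T, IsPolytope P) ∧
    ∀ P ∈ T, ∀ Q ∈ T, P ∩ Q = ∅ ∨ (IsFaceOf (P ∩ Q) P ∧ IsFaceOf (P ∩ Q) Q)

/-- The `k`-th corona of the tile `P`: the tiles `Q` joined to `P` by a chain
`P = c 0, c 1, ..., c m = Q` of tiles with `m ≤ k` and consecutive tiles intersecting. -/
def corona {n : ℕ} (T : Set (Set (HypSpace n))) (k : ℕ) (P : Set (HypSpace n)) :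
    Set (Set (HypSpace n)) :=
  {Q | ∃ m ≤ k, ∃ c : ℕ → Set (HypSpace n), c 0 = P ∧ c m = Q ∧ (∀ i ≤ m, c i ∈ T) ∧
    ∀ i < m, (c i ∩ c (i + 1)).Nonempty}

/-- Condition (b) of the local criterion: any two tiles have their `k`-th coronas related by an
isometry carrying the one tile to the other. -/
def CoronasCongruent {n : ℕ} (T : Set (Set (HypSpace n))) (k : ℕ) : Prop :=
  ∀ P ∈ T, ∀ P' ∈ T, ∃ g, IsIsom g ∧ g '' P = P' ∧
    (fun Q => g '' Q) '' corona T k P = corona T k P'

/-- The symmetry group of the tiling acts transitively on the tiles. -/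
def IsIsohedral {n : ℕ} (T : Set (Set (HypSpace n))) : Prop :=
  ∀ P ∈ T, ∀ P' ∈ T, ∃ g, IsIsom g ∧ (fun Q => g '' Q) '' T = T ∧ g '' P = P'

end Pool.Agent.Lib.MP_6d95fe_co.Hn
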