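import Mathlib

/-!
The ring of integers of the real field generated by `2 cos (2 π / p)`.
-/

set_option linter.unusedSectionVars false

namespace Pool.Agent.Lib.MP_6d95fe_co.Hn

open Real NumberField

structure ArH {A I : Type} [CommRing A] (p : ℕ) (σ : I → A →+* ℝ) (i0 : I) (θ : A) : Prop where
  σ_inj : Function.Injective σ
  inj : ∀ i, Function.Injective (σ i)
  finite : ∀ C : ℝ, {a | ∀ i, |σ i a| ≤ C}.Finite
  quot : ∀ d : A, d ≠ 0 → Finite (A ⧸ Ideal.span {d})
  θ0 : σ i0 θ = 2 * cos (2 * π / p)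
  θlt : ∀ i, |σ i θ| < 2

theorem cos_bounds {p : ℕ} (hp : 7 ≤ p) : 1 < 2 * cos (2 * π / p) ∧ 2 * cos (2 * π / p) < 2 := by
  have hp' : (7 : ℝ) ≤ p := by exact_mod_cast hp
  have h0 : 0 < 2 * π / p := by have := pi_pos; positivity
  have h1 : 2 * π / p < π / 3 := by
    rw [div_lt_div_iff₀ (by linarith) (by norm_num)]; nlinarith [pi_pos]
  have h2 := cos_lt_cos_of_nonneg_of_le_pi h0.le (by linarith [pi_pos]) h1
  have h3 := cos_lt_cos_of_nonneg_of_le_pi le_rfl (by linarith [pi_pos]) h0
  rw [cos_pi_div_three] at h2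
  rw [cos_zero] at h3
  constructor <;> linarith

theorem exists_ArH {p : ℕ} (hp : 7 ≤ p) : ∃ (A I : Type) (_ : CommRing A) (_ : IsDomain A)
    (_ : Fintype I) (σ : I → A →+* ℝ) (i0 : I) (θ : A), ArH p σ i0 θ := by
  set c : ℝ := 2 * cos (2 * π / p) with hc
  have hp0 : (p : ℝ) ≠ 0 := by positivity
  have hint : IsIntegral ℤ c := by
    have := Real.isIntegral_two_mul_cos_rat_mul_pi (2 / p)
    rwa [show ((2 / p : ℚ) : ℝ) * π = 2 * π / p by push_cast; ring] at this
  have hintQ : IsIntegral ℚ c := hint.tower_top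
  let K : IntermediateField ℚ ℝ := IntermediateField.adjoin ℚ {c}
  have : FiniteDimensional ℚ K := IntermediateField.adjoin.finiteDimensional hintQ
  have : NumberField K := {}
  let g : K := IntermediateField.AdjoinSimple.gen ℚ c
  have hg : (g : ℝ) = c := rfl
  have hgint : IsIntegral ℤ g := by
    rw [← isIntegral_algebraMap_iff (B := ℝ) (algebraMap K ℝ).injective]; exact hint
  have hC : (Polynomial.Chebyshev.C K p).eval g = 2 := by
    apply (algebraMap K ℝ).injective
    rw [Polynomial.Chebyshev.algebraMap_eval_C, map_ofNat]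
    show (Polynomial.Chebyshev.C ℝ p).eval c = 2
    rw [hc, Polynomial.Chebyshev.C_two_mul_real_cos]
    push_cast
    rw [show (p : ℝ) * (2 * π / p) = 2 * π by field_simp, cos_two_pi]; ring
  have hφ : ∀ φ : K →+* ℂ, ∃ t : ℝ, φ g = (2 * cos t : ℝ) := by
    intro φ
    obtain ⟨t, ht⟩ := Complex.cos_surjective (φ g / 2)
    have h1 : φ g = 2 * Complex.cos t := by rw [ht]; ring
    have h2 : (Polynomial.Chebyshev.C ℂ p).eval (φ g) = 2 := by
      rw [← Polynomial.Chebyshev.map_C φ, Polynomial.eval_map, Polynomial.eval₂_at_apply, hC,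
        map_ofNat]
    rw [h1, Polynomial.Chebyshev.C_two_mul_complex_cos] at h2
    obtain ⟨k, hk⟩ := Complex.cos_eq_one_iff.1 (show Complex.cos ((p : ℤ) * t) = 1 by
      linear_combination h2 / 2)
    refine ⟨k * (2 * π) / p, ?_⟩
    have hp1 : (p : ℂ) ≠ 0 := by exact_mod_cast hp0
    rw [h1]; push_cast at hk ⊢
    rw [hk]; congr 2; field_simp
  have hreal : ∀ φ : K →+* ℂ, ComplexEmbedding.IsReal φ := by
    intro φ
    rw [ComplexEmbedding.isReal_iff]
    apply (RingHom.equivRatAlgHom K ℂ).injective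
    apply IntermediateField.adjoin_algHom_ext
    rintro x rfl
    obtain ⟨t, ht⟩ := hφ φ
    show (starRingEnd ℂ) (φ g) = φ g
    rw [ht, Complex.conj_ofReal]
  have hb := cos_bounds hp
  refine ⟨𝓞 K, K →+* ℝ, inferInstance, inferInstance, inferInstance,
    fun φ => φ.comp (algebraMap (𝓞 K) K), algebraMap K ℝ, ⟨g, hgint⟩, ?_, ?_, ?_, ?_, rfl, ?_⟩
  · intro φ ψ h
    apply (RingHom.equivRatAlgHom K ℝ).injective
    apply IntermediateField.adjoin_algHom_ext
    rintro x rfl
    exact congrArg (fun f : 𝓞 K →+* ℝ => f ⟨g, hgint⟩) h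
  · intro φ
    exact φ.injective.comp (RingOfIntegers.coe_injective)
  · intro C
    apply Set.Finite.of_finite_image (f := algebraMap (𝓞 K) K) _
      RingOfIntegers.coe_injective.injOn
    apply (Embeddings.finite_of_norm_le K ℂ C).subset
    rintro _ ⟨a, ha, rfl⟩
    refine ⟨a.2, fun φ => ?_⟩
    rw [← (hreal φ).coe_embedding_apply, Complex.norm_real]
    exact ha (hreal φ).embedding
  · intro d hd
    exact Ideal.finiteQuotientOfFreeOfNeBot _ (by simpa using hd)
  · intro φ
    obtain ⟨t, ht⟩ := hφ (Complex.ofRealHom.comp φ)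
    have h1 : φ g = 2 * cos t := by
      have : ((φ g : ℝ) : ℂ) = (2 * cos t : ℝ) := ht
      exact_mod_cast this
    show |φ g| < 2
    have h2 : φ g ≠ 2 := fun h => by
      have : g = 2 := φ.injective (by rw [h, map_ofNat])
      have h3 : c = 2 := by rw [← hg, this]; rfl
      linarith [hb.2]
    have h3 : φ g ≠ -2 := fun h => by
      have : g = -2 := φ.injective (by rw [h, map_neg, map_ofNat])
      have h3 : c = -2 := by rw [← hg, this]; rfl
      linarith [hb.1]
    rw [abs_lt]
    exact ⟨lt_of_le_of_ne (by linarith [neg_one_le_cos t]) h3.symm,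
      lt_of_le_of_ne (by linarith [cos_le_one t]) h2⟩

namespace ArH

variable {A I : Type} [CommRing A] [IsDomain A] [Fintype I] {p : ℕ} {σ : I → A →+* ℝ} {i0 : I}
  {θ : A} (h : ArH p σ i0 θ)
include h

theorem small_zero {a : A} (ha : ∀ i, |σ i a| < 1) : a = 0 := by
  have h1 : (Set.range fun k : ℕ => a ^ k).Finite := (h.finite 1).subset (by
    rintro _ ⟨k, rfl⟩ i
    simp only [map_pow, abs_pow]
    exact pow_le_one₀ (abs_nonneg _) (ha i).le)
  by_contra hne
  apply Set.infinite_range_of_injective _ h1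
  intro k l hkl
  have h2 : 0 < |σ i0 a| := abs_pos.2 fun h0 => hne (h.inj i0 (by rw [h0, map_zero]))
  have h3 : |σ i0 a| ^ k = |σ i0 a| ^ l := by
    rw [← abs_pow, ← abs_pow, ← map_pow, ← map_pow]; exact congrArg (fun x => |σ i0 x|) hkl
  exact pow_right_injective₀ h2 (ha i0).ne h3

theorem exists_other (hp : 7 ≤ p) : ∃ i1, i1 ≠ i0 := by
  have hb := cos_bounds hp
  by_contra hc
  push Not at hc
  have := h.small_zero (a := θ - 1) fun i => by
    rw [hc i, map_sub, map_one, h.θ0, abs_lt]; constructor <;> linarith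
  have h1 := congrArg (σ i0) this
  rw [map_sub, map_one, h.θ0, map_zero] at h1
  linarith

theorem span_top {c : I → ℝ} (hc : ∀ a, ∑ i, c i * σ i a = 0) : c = 0 := by
  have h1 := (linearIndependent_monoidHom A ℝ).comp (fun i => (σ i : A →* ℝ))
    (fun i j hij => h.σ_inj (RingHom.coe_monoidHom_injective hij))
  rw [Fintype.linearIndependent_iff] at h1
  funext i
  apply h1 c
  funext a
  simpa using hc a

end ArH

end Pool.Agent.Lib.MP_6d95fe_co.Hn
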