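import Mathlib

/-!
Consequences of Minkowski's convex body theorem for boxes.
-/

namespace Pool.Agent.Lib.MP_6d95fe_co.Hn

open MeasureTheory Module

theorem span_eq_top_of_dual {J : Type} [Fintype J] {L : Set (J → ℝ)}
    (h : ∀ ψ : J → ℝ, (∀ v ∈ L, ∑ j, ψ j * v j = 0) → ψ = 0) : Submodule.span ℝ L = ⊤ := by
  classical
  by_contra hc
  obtain ⟨f, hf, h1⟩ := Submodule.exists_dual_map_eq_bot_of_lt_top (lt_top_iff_ne_top.2 hc)
    inferInstance
  have h2 : ∀ v, f v = ∑ j, f (Pi.single j 1) * v j := by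
    intro v
    rw [LinearMap.pi_apply_eq_sum_univ]
    refine Finset.sum_congr rfl fun j _ => ?_
    rw [smul_eq_mul, mul_comm]
    congr 2
    funext k
    simp [Pi.single_apply, eq_comm]
  have h3 := h (fun j => f (Pi.single j 1)) fun v hv => by
    rw [← h2]
    have : f v ∈ Submodule.map f (Submodule.span ℝ L) := ⟨v, Submodule.subset_span hv, rfl⟩
    rw [h1] at this
    simpa using this
  apply hf
  ext1 j
  ext
  simpa using congrFun h3 j

theorem mink_box {J : Type} [Fintype J] (L : AddSubgroup (J → ℝ))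
    (h : ∀ ψ : J → ℝ, (∀ v ∈ L, ∑ j, ψ j * v j = 0) → ψ = 0) :
    ∃ Vol : ℝ, 0 ≤ Vol ∧ ∀ T : (J → ℝ) →ₗ[ℝ] (J → ℝ), T ∘ₗ T = LinearMap.id →
      ∀ r : J → ℝ, (∀ j, 0 < r j) → Vol < ∏ j, r j → ∃ v ∈ L, v ≠ 0 ∧ ∀ j, |T v j| < r j := by
  classical
  obtain ⟨b, hb, hs, hli⟩ := exists_linearIndependent ℝ (L : Set (J → ℝ))
  rw [span_eq_top_of_dual h] at hs
  have hfin : Finite b := hli.set_finite_of_isNoetherian
  have := Fintype.ofFinite b
  let β : Basis b ℝ (J → ℝ) := Basis.mk hli (by simp [hs])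
  have hF := ZSpan.isAddFundamentalDomain' β (volume : Measure (J → ℝ))
  have hlt : volume (ZSpan.fundamentalDomain β) < ⊤ :=
    (ZSpan.fundamentalDomain_isBounded β).measure_lt_top
  refine ⟨(volume (ZSpan.fundamentalDomain β)).toReal, ENNReal.toReal_nonneg,
    fun T hT r hr hV => ?_⟩
  have hd : |LinearMap.det T| = 1 := by
    have := congrArg LinearMap.det hT
    rw [LinearMap.det_comp, LinearMap.det_id] at this
    rcases mul_self_eq_one_iff.1 this with h | h <;> simp [h]
  have hd0 : LinearMap.det T ≠ 0 := by intro h0; simp [h0] at hd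
  have hcount : Countable (Submodule.span ℤ (Set.range β)).toAddSubgroup :=
    inferInstanceAs (Countable (Submodule.span ℤ (Set.range β)))
  obtain ⟨x, hx0, hx⟩ := exists_ne_zero_mem_lattice_of_measure_mul_two_pow_lt_measure hF
    (s := T ⁻¹' Set.pi Set.univ fun j => Set.Ioo (-r j) (r j))
    (by
      intro x hx j _
      have := hx j trivial
      simp only [map_neg, Pi.neg_apply, Set.mem_Ioo] at this ⊢
      constructor <;> linarith [this.1, this.2])
    ((convex_pi fun j _ => convex_Ioo _ _).linear_preimage T)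
    (by
      rw [Measure.addHaar_preimage_linearMap _ hd0, abs_inv, hd, inv_one, ENNReal.ofReal_one,
        one_mul, Real.volume_pi_Ioo, ← ENNReal.ofReal_prod_of_nonneg (fun j _ => by linarith [hr j]),
        ← ENNReal.ofReal_toReal hlt.ne, finrank_fintype_fun_eq_card,
        show (2 : ENNReal) = ENNReal.ofReal 2 by simp, ← ENNReal.ofReal_pow (by norm_num),
        ← ENNReal.ofReal_mul ENNReal.toReal_nonneg, ENNReal.ofReal_lt_ofReal_iff]
      · rw [show (∏ j, (r j - -r j)) = (∏ j, r j) * 2 ^ Fintype.card J by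
          rw [← Finset.card_univ, ← Finset.prod_const, ← Finset.prod_mul_distrib]
          exact Finset.prod_congr rfl fun j _ => by ring]
        exact mul_lt_mul_of_pos_right hV (by positivity)
      · exact Finset.prod_pos fun j _ => by linarith [hr j])
  refine ⟨x.1, ?_, fun h0 => hx0 (Subtype.ext h0), fun j => abs_lt.2 (hx j trivial)⟩
  have : Submodule.span ℤ (Set.range β) ≤ L.toIntSubmodule := by
    rw [Submodule.span_le]
    rintro _ ⟨i, rfl⟩
    simp only [β, Basis.mk_apply]
    exact hb i.2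
  exact this x.2

theorem prod_update_eq {J : Type} [Fintype J] [DecidableEq J] (j : J) (ε R : ℝ) :
    ∏ k, Function.update (fun _ => ε) j R k = R * ε ^ (Fintype.card J - 1) := by
  rw [Finset.prod_update_of_mem (Finset.mem_univ j), Finset.prod_const, Finset.card_univ_sdiff,
    Finset.card_singleton]

theorem mink_short {J : Type} [Fintype J] (L : AddSubgroup (J → ℝ))
    (h : ∀ ψ : J → ℝ, (∀ v ∈ L, ∑ j, ψ j * v j = 0) → ψ = 0) {c : ℝ} (hc : 0 < c) :
    ∃ C : ℝ, ∀ T : (J → ℝ) →ₗ[ℝ] (J → ℝ), T ∘ₗ T = LinearMap.id →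
      (∀ v ∈ L, (∀ j, |T v j| < c) → v = 0) →
      ∀ ψ : J → ℝ, ψ ≠ 0 → ∃ v ∈ L, ∑ j, ψ j * T v j ≠ 0 ∧ ∀ j, |T v j| ≤ C := by
  classical
  obtain ⟨Vol, hV, H⟩ := mink_box L h
  set N := Fintype.card J with hN
  set ε := c / (N + 1) with hε
  have hε0 : 0 < ε := by positivity
  have hεc : (N + 1) * ε = c := by rw [hε]; field_simp
  have hN0 : (0 : ℝ) ≤ N := Nat.cast_nonneg _
  set R := (Vol + 1) / ε ^ (N - 1) with hR
  have hR0 : 0 < R := by positivity
  refine ⟨max ε R, fun T hT hmin ψ hψ => ?_⟩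
  obtain ⟨j₁, hj₁⟩ := Function.ne_iff.1 hψ
  obtain ⟨j₀, -, hj₀⟩ := Finset.exists_max_image Finset.univ (fun j => |ψ j|)
    ⟨j₁, Finset.mem_univ _⟩
  have hψ0 : 0 < |ψ j₀| := (abs_pos.2 hj₁).trans_le (hj₀ j₁ (Finset.mem_univ _))
  obtain ⟨v, hv, hv0, h1⟩ := H T hT (Function.update (fun _ => ε) j₀ R)
    (fun j => by rw [Function.update_apply]; split_ifs <;> assumption)
    (by rw [prod_update_eq, hR, div_mul_cancel₀ _ (by positivity)]; linarith)
  have h2 : ∀ j, j ≠ j₀ → |T v j| < ε := fun j hj => by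
    have := h1 j; rwa [Function.update_of_ne hj] at this
  refine ⟨v, hv, fun h0 => hv0 (hmin v hv fun j => ?_), fun j => ?_⟩
  · by_cases hj : j = j₀
    · subst hj
      rw [← Finset.add_sum_erase _ _ (Finset.mem_univ j)] at h0
      have h3 : |ψ j| * |T v j| ≤ ∑ k ∈ Finset.univ.erase j, |ψ j| * ε := by
        rw [← abs_mul, show ψ j * T v j = -∑ k ∈ Finset.univ.erase j, ψ k * T v k by linarith,
          abs_neg]
        refine (Finset.abs_sum_le_sum_abs _ _).trans (Finset.sum_le_sum fun k hk => ?_)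
        rw [abs_mul]
        exact mul_le_mul (hj₀ k (Finset.mem_univ _)) (h2 k (Finset.ne_of_mem_erase hk)).le
          (abs_nonneg _) (abs_nonneg _)
      rw [Finset.sum_const, nsmul_eq_mul] at h3
      have h4 : ((Finset.univ.erase j).card : ℝ) ≤ N := by
        exact_mod_cast Finset.card_le_univ _
      have h5 : |ψ j| * |T v j| ≤ |ψ j| * (N * ε) := by
        have := mul_le_mul_of_nonneg_right h4 (mul_pos hψ0 hε0).le
        linarith
      have := le_of_mul_le_mul_left h5 hψ0
      linarith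
    · have := h2 j hj
      nlinarith
  · have := h1 j
    rw [Function.update_apply] at this
    split_ifs at this
    · exact this.le.trans (le_max_right _ _)
    · exact this.le.trans (le_max_left _ _)

end Pool.Agent.Lib.MP_6d95fe_co.Hn
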