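import Pool.Agent.Lib.MP_6d95fe_co.Hn.Lor
import Pool.Agent.Lib.MP_6d95fe_co.Hn.Field
import Pool.Agent.Lib.MP_6d95fe_co.Hn.Mink

/-!
An anisotropic integral quadratic form with a rotation of order `p`.
-/

set_option linter.unusedSectionVars false

namespace Pool.Agent.Lib.MP_6d95fe_co.Hn

open Real

def mk3 {R : Type} {m : ℕ} (a b c : R) (d : Fin m → R) : Fin (m + 3) → R :=
  Fin.cons a (Fin.cons b (Fin.cons c d))

def j1 (m : ℕ) : Fin (m + 3) := Fin.succ 0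
def j2 (m : ℕ) : Fin (m + 3) := Fin.succ (Fin.succ 0)
def j3 {m : ℕ} (j : Fin m) : Fin (m + 3) := j.succ.succ.succ

section
variable {R : Type} {m : ℕ} (a b c : R) (d : Fin m → R)
theorem mk3_0 : mk3 a b c d 0 = a := rfl
theorem mk3_1 : mk3 a b c d (j1 m) = b := rfl
theorem mk3_2 : mk3 a b c d (j2 m) = c := rfl
theorem mk3_3 (j : Fin m) : mk3 a b c d (j3 j) = d j := rfl
end

theorem cases3 {m : ℕ} {P : Fin (m + 3) → Prop} (h0 : P 0) (h1 : P (j1 m)) (h2 : P (j2 m))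
    (h3 : ∀ j, P (j3 j)) : ∀ j, P j :=
  Fin.cases h0 (Fin.cases h1 (Fin.cases h2 h3))

theorem sum3 {m : ℕ} (f : Fin (m + 3) → ℝ) :
    ∑ j, f j = f 0 + f (j1 m) + f (j2 m) + ∑ j, f (j3 j) := by
  rw [Fin.sum_univ_succ, Fin.sum_univ_succ, Fin.sum_univ_succ]
  simp only [j1, j2, j3]; ring

theorem B3 {m : ℕ} (x y : V (m + 2)) : B x y = -(x 0 * y 0) + x (j1 m) * y (j1 m)
    + x (j2 m) * y (j2 m) + ∑ j, x (j3 j) * y (j3 j) := by
  unfold B lorentz
  rw [Fin.sum_univ_succ, Fin.sum_univ_succ]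
  simp only [j1, j2, j3]; ring

theorem abs_sum_le {n : ℕ} {x y : V n} {C : ℝ} (hx : ∀ j, |x j| ≤ C) (hy : ∀ j, |y j| ≤ C) :
    ∑ j, |x j * y j| ≤ (n + 1) * C ^ 2 := by
  have : ∑ j, |x j * y j| ≤ ∑ _j : Fin (n + 1), C ^ 2 := Finset.sum_le_sum fun j _ => by
    rw [abs_mul, pow_two]
    exact mul_le_mul (hx j) (hy j) (abs_nonneg _) ((abs_nonneg _).trans (hx j))
  simpa using this

theorem abs_B_le {n : ℕ} {x y : V n} {C : ℝ} (hx : ∀ j, |x j| ≤ C) (hy : ∀ j, |y j| ≤ C) :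
    |B x y| ≤ (n + 1) * C ^ 2 := by
  refine le_trans ?_ (abs_sum_le hx hy)
  unfold B lorentz
  rw [Fin.sum_univ_succ]
  refine (abs_add_le _ _).trans (add_le_add (by rw [abs_neg]) (Finset.abs_sum_le_sum_abs _ _))

noncomputable def rotL (m : ℕ) (t : ℝ) : V (m + 2) →ₗ[ℝ] V (m + 2) where
  toFun x := mk3 (x 0) (cos t * x (j1 m) - sin t * x (j2 m)) (sin t * x (j1 m) + cos t * x (j2 m))
    fun j => x (j3 j)
  map_add' x y := by
    funext j; revert j
    apply cases3 <;> simp only [Pi.add_apply, mk3_0, mk3_1, mk3_2, mk3_3, implies_true] <;> ring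
  map_smul' a x := by
    funext j; revert j
    apply cases3 <;> simp only [Pi.smul_apply, smul_eq_mul, RingHom.id_apply, mk3_0, mk3_1, mk3_2,
      mk3_3, implies_true] <;> ring

theorem rotL_apply (m : ℕ) (t : ℝ) (x : V (m + 2)) : rotL m t x =
    mk3 (x 0) (cos t * x (j1 m) - sin t * x (j2 m)) (sin t * x (j1 m) + cos t * x (j2 m))
    fun j => x (j3 j) := rfl

theorem rotL_add (m : ℕ) (s t : ℝ) (x : V (m + 2)) : rotL m s (rotL m t x) = rotL m (s + t) x := by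
  funext j; revert j
  apply cases3 <;> simp only [rotL_apply, mk3_0, mk3_1, mk3_2, mk3_3, implies_true, cos_add,
    sin_add] <;> ring

theorem rotL_int (m : ℕ) (k : ℤ) (x : V (m + 2)) : rotL m (k * (2 * π)) x = x := by
  funext j; revert j
  have h1 : sin (k * (2 * π)) = 0 := by simpa using sin_add_int_mul_two_pi 0 k
  apply cases3 <;> simp only [rotL_apply, mk3_0, mk3_1, mk3_2, mk3_3, implies_true,
    cos_int_mul_two_pi, h1] <;> ring

noncomputable def rotE (m : ℕ) (t : ℝ) : V (m + 2) ≃ₗ[ℝ] V (m + 2) :=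
  LinearEquiv.ofLinearMap (rotL m t) (rotL m (-t))
    (LinearMap.ext fun x => by simpa [rotL_add] using rotL_int m 0 x)
    (LinearMap.ext fun x => by simpa [rotL_add] using rotL_int m 0 x)

theorem rotE_apply (m : ℕ) (t : ℝ) (x : V (m + 2)) : rotE m t x = rotL m t x := rfl

theorem rotE_lor (m : ℕ) (t : ℝ) : IsLor (rotE m t) := by
  have h : ∀ x y, B (rotE m t x) (rotE m t y) = B x y := fun x y => by
    simp only [B3, rotE_apply, rotL_apply, mk3_0, mk3_1, mk3_2, mk3_3]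
    linear_combination (x (j1 m) * y (j1 m) + x (j2 m) * y (j2 m)) * sin_sq_add_cos_sq t
  exact ⟨h, fun x hx => ⟨by rw [h, hx.1], hx.2⟩⟩

theorem rotE_o (m : ℕ) (t : ℝ) : rotE m t (oV (m + 2)) = oV (m + 2) := by
  funext j; revert j
  have h1 : oV (m + 2) (j1 m) = 0 := Pi.single_eq_of_ne (Fin.succ_ne_zero _) _
  have h2 : oV (m + 2) (j2 m) = 0 := Pi.single_eq_of_ne (Fin.succ_ne_zero _) _
  apply cases3 <;> simp only [rotE_apply, rotL_apply, mk3_0, mk3_1, mk3_2, mk3_3, h1, h2,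
    implies_true] <;> ring

noncomputable def Rz (m p : ℕ) (j : ZMod p) : V (m + 2) ≃ₗ[ℝ] V (m + 2) :=
  rotE m (j.val * (2 * π / p))

theorem Rz_add (m : ℕ) {p : ℕ} [NeZero p] (j k : ZMod p) (x : V (m + 2)) :
    Rz m p (j + k) x = Rz m p j (Rz m p k x) := by
  simp only [Rz, rotE_apply, rotL_add]
  have h1 := Nat.mod_add_div (j.val + k.val) p
  rw [← ZMod.val_add] at h1
  have h2 : ((j + k).val : ℝ) + p * ((j.val + k.val) / p : ℕ) = j.val + k.val := by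
    exact_mod_cast h1
  have hp : (p : ℝ) ≠ 0 := by exact_mod_cast NeZero.ne p
  rw [← rotL_int m ((j.val + k.val) / p : ℕ) x, rotL_add]
  conv_rhs => rw [rotL_int]
  congr 2
  rw [← add_mul, ← h2, Int.cast_natCast]
  field_simp

theorem Rz_zero (m p : ℕ) (x : V (m + 2)) : Rz m p 0 x = x := by
  simpa [Rz, rotE_apply] using rotL_int m 0 x

section
variable {A I : Type} [CommRing A] [IsDomain A] [Fintype I] (σ : I → A →+* ℝ) (θ u : A) {m : ℕ}

noncomputable def Ψ (i : I) (v : Fin (m + 3) → A) : V (m + 2) :=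
  mk3 (√|σ i u ^ 2 - 1| * σ i (v 0)) (σ i (v (j1 m)) + σ i θ / 2 * σ i (v (j2 m)))
    (√(1 - (σ i θ / 2) ^ 2) * σ i (v (j2 m))) fun j => σ i (v (j3 j))

def FF (v w : Fin (m + 3) → A) : A :=
  -2 * (u ^ 2 - 1) * (v 0 * w 0) + 2 * (v (j1 m) * w (j1 m)) + 2 * (v (j2 m) * w (j2 m))
    + θ * (v (j1 m) * w (j2 m) + v (j2 m) * w (j1 m)) + 2 * ∑ j, v (j3 j) * w (j3 j)

def ρA (v : Fin (m + 3) → A) : Fin (m + 3) → A :=
  mk3 (v 0) (-v (j2 m)) (v (j1 m) + θ * v (j2 m)) fun j => v (j3 j)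

theorem Ψ_add (i : I) (v w : Fin (m + 3) → A) : Ψ σ θ u i (v + w) = Ψ σ θ u i v + Ψ σ θ u i w := by
  funext j; revert j
  apply cases3 <;> simp only [Ψ, Pi.add_apply, mk3_0, mk3_1, mk3_2, mk3_3, implies_true,
    map_add] <;> ring

theorem Ψ_smul (i : I) (t : A) (v : Fin (m + 3) → A) :
    Ψ σ θ u i (t • v) = σ i t • Ψ σ θ u i v := by
  funext j; revert j
  apply cases3 <;> simp only [Ψ, Pi.smul_apply, smul_eq_mul, mk3_0, mk3_1, mk3_2, mk3_3,
    implies_true, map_mul] <;> ring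

theorem Ψ_zero (i : I) : Ψ σ θ u i (0 : Fin (m + 3) → A) = 0 := by
  rw [← zero_smul A (0 : Fin (m + 3) → A), Ψ_smul]; simp

theorem Ψ_neg (i : I) (v : Fin (m + 3) → A) : Ψ σ θ u i (-v) = - Ψ σ θ u i v := by
  rw [← neg_one_smul A v, Ψ_smul]; simp

theorem Ψ_sum (i : I) {κ : Type} (s : Finset κ) (f : κ → Fin (m + 3) → A) :
    Ψ σ θ u i (∑ k ∈ s, f k) = ∑ k ∈ s, Ψ σ θ u i (f k) := by
  classical
  induction s using Finset.induction_on with
  | empty => simp [Ψ_zero]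
  | insert a s ha ih => rw [Finset.sum_insert ha, Finset.sum_insert ha, Ψ_add, ih]

end

structure ArU {A I : Type} [CommRing A] (p : ℕ) (σ : I → A →+* ℝ) (i0 i1 : I) (θ u : A) : Prop
    extends ArH p σ i0 θ where
  seven : 7 ≤ p
  ne : i1 ≠ i0
  u_small : ∀ i, i ≠ i0 → |σ i u| < 1
  u_big : 3 < σ i0 u ^ 2 * (1 - cos (2 * π / p))

theorem ArH.exists_u {A I : Type} [CommRing A] [IsDomain A] [Fintype I] {p : ℕ}
    {σ : I → A →+* ℝ} {i0 : I} {θ : A} (h : ArH p σ i0 θ) (hp : 7 ≤ p) :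
    ∃ i1 u, ArU p σ i0 i1 θ u := by
  classical
  obtain ⟨i1, hi⟩ := h.exists_other hp
  let e : A →+ (I → ℝ) := { toFun := fun a i => σ i a
                            map_zero' := by funext i; simp
                            map_add' := fun a b => by funext i; simp }
  obtain ⟨Vol, hV, H⟩ := mink_box e.range fun ψ hψ => h.span_top fun a => hψ _ ⟨a, rfl⟩
  obtain ⟨_, ⟨w, rfl⟩, hw0, hw⟩ := H LinearMap.id rfl (Function.update (fun _ => 1) i0 (Vol + 1))
    (fun j => by rw [Function.update_apply]; split_ifs <;> linarith)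
    (by rw [prod_update_eq]; simp)
  have h1 : ∀ i, i ≠ i0 → |σ i w| < 1 := fun i hi => by
    have := hw i; rwa [Function.update_of_ne hi] at this
  have h2 : 1 < |σ i0 w| := by
    by_contra hc
    rcases (not_lt.1 hc).lt_or_eq with h3 | h3
    · apply hw0
      rw [h.small_zero (a := w) fun i => by
        by_cases hi : i = i0
        · rw [hi]; exact h3
        · exact h1 i hi, map_zero]
    · have h4 : w ^ 2 = 1 := h.inj i0 (by rw [map_pow, map_one, ← sq_abs, h3]; norm_num)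
      have h5 := congrArg (σ i1) h4
      rw [map_pow, map_one, ← sq_abs] at h5
      nlinarith [h1 i1 hi, abs_nonneg (σ i1 w)]
  have hb := cos_bounds hp
  obtain ⟨k, hk⟩ := pow_unbounded_of_one_lt (3 / (1 - cos (2 * π / p))) h2
  refine ⟨i1, w ^ (k + 1), h, hp, hi, fun i hi => ?_, ?_⟩
  · rw [map_pow, abs_pow]; exact pow_lt_one₀ (abs_nonneg _) (h1 i hi) (by omega)
  · rw [div_lt_iff₀ (by linarith)] at hk
    refine hk.trans_le (mul_le_mul_of_nonneg_right ?_ (by linarith))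
    rw [map_pow, ← sq_abs, abs_pow, ← pow_mul]
    exact pow_le_pow_right₀ h2.le (by omega)

namespace ArU

variable {A I : Type} [CommRing A] [IsDomain A] [Fintype I] {p : ℕ} {σ : I → A →+* ℝ}
  {i0 i1 : I} {θ u : A} (h : ArU p σ i0 i1 θ u) {m : ℕ}
include h

theorem a0_pos : 0 < σ i0 u ^ 2 - 1 := by
  have hb := cos_bounds h.seven
  nlinarith [h.u_big, sq_nonneg (σ i0 u)]

theorem ai_neg {i : I} (hi : i ≠ i0) : σ i u ^ 2 - 1 < 0 := by
  have := h.u_small i hi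
  rw [← sq_abs]; nlinarith [abs_nonneg (σ i u)]

theorem α_pos (i : I) : 0 < √|σ i u ^ 2 - 1| := by
  apply Real.sqrt_pos.2 (abs_pos.2 _)
  by_cases hi : i = i0
  · rw [hi]; exact h.a0_pos.ne'
  · exact (h.ai_neg hi).ne

theorem γ_aux (i : I) : 0 < 1 - (σ i θ / 2) ^ 2 := by
  have := h.θlt i
  rw [div_pow, ← sq_abs]; nlinarith [abs_nonneg (σ i θ)]

theorem γ_pos (i : I) : 0 < √(1 - (σ i θ / 2) ^ 2) := Real.sqrt_pos.2 (h.γ_aux i)

theorem B_Ψ (v w : Fin (m + 3) → A) :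
    2 * B (Ψ σ θ u i0 v) (Ψ σ θ u i0 w) = σ i0 (FF θ u v w) := by
  have h1 := Real.mul_self_sqrt (abs_nonneg (σ i0 u ^ 2 - 1))
  have h2 := Real.mul_self_sqrt (h.γ_aux i0).le
  rw [abs_of_pos h.a0_pos] at h1
  simp only [B3, Ψ, FF, mk3_0, mk3_1, mk3_2, mk3_3, map_add, map_mul, map_sum, map_neg, map_sub,
    map_pow, map_one, map_ofNat, abs_of_pos h.a0_pos]
  linear_combination (-2 * σ i0 (v 0) * σ i0 (w 0)) * h1
    + (2 * σ i0 (v (j2 m)) * σ i0 (w (j2 m))) * h2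

theorem E_Ψ {i : I} (hi : i ≠ i0) (v w : Fin (m + 3) → A) :
    2 * ∑ j, Ψ σ θ u i v j * Ψ σ θ u i w j = σ i (FF θ u v w) := by
  have h1 := Real.mul_self_sqrt (abs_nonneg (σ i u ^ 2 - 1))
  have h2 := Real.mul_self_sqrt (h.γ_aux i).le
  rw [abs_of_neg (h.ai_neg hi)] at h1
  simp only [sum3, Ψ, FF, mk3_0, mk3_1, mk3_2, mk3_3, map_add, map_mul, map_sum, map_neg, map_sub,
    map_pow, map_one, map_ofNat, abs_of_neg (h.ai_neg hi)]
  linear_combination (2 * σ i (v 0) * σ i (w 0)) * h1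
    + (2 * σ i (v (j2 m)) * σ i (w (j2 m))) * h2

theorem Ψ_eq_zero {i : I} {v : Fin (m + 3) → A} (hv : Ψ σ θ u i v = 0) : v = 0 := by
  have h0 := congrFun hv 0
  have h1 := congrFun hv (j1 m)
  have h2 := congrFun hv (j2 m)
  have h3 := fun j => congrFun hv (j3 j)
  simp only [Ψ, mk3_0, mk3_1, mk3_2, mk3_3, Pi.zero_apply, mul_eq_zero, (h.α_pos i).ne',
    (h.γ_pos i).ne', false_or] at h0 h1 h2 h3
  rw [h2, mul_zero, add_zero] at h1
  funext j; revert j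
  apply cases3
  · exact h.inj i (by simpa using h0)
  · exact h.inj i (by simpa using h1)
  · exact h.inj i (by simpa using h2)
  · exact fun j => h.inj i (by simpa using h3 j)

theorem aniso {v : Fin (m + 3) → A} (hv : FF θ u v v = 0) : v = 0 := by
  have h1 := h.E_Ψ h.ne v v
  rw [hv, map_zero] at h1
  apply h.Ψ_eq_zero (i := i1)
  funext j
  have := (Finset.sum_eq_zero_iff_of_nonneg fun j _ => mul_self_nonneg (Ψ σ θ u i1 v j)).1
    (by linarith) j (Finset.mem_univ j)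
  exact mul_self_eq_zero.1 this

theorem FF_cs {i : I} (hi : i ≠ i0) {v w : Fin (m + 3) → A} (hv : FF θ u v v = 2)
    (hw : FF θ u w w = 2) : |σ i (FF θ u v w)| ≤ 2 := by
  have h1 := h.E_Ψ hi v v
  have h2 := h.E_Ψ hi w w
  rw [hv, map_ofNat] at h1
  rw [hw, map_ofNat] at h2
  have h3 := Finset.sum_mul_sq_le_sq_mul_sq Finset.univ (Ψ σ θ u i v) (Ψ σ θ u i w)
  simp only [pow_two (Ψ σ θ u i _ _)] at h3
  rw [← h.E_Ψ hi, abs_le]
  constructor <;> nlinarith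

theorem Ψ_ρA (v : Fin (m + 3) → A) :
    Ψ σ θ u i0 (ρA θ v) = rotL m (2 * π / p) (Ψ σ θ u i0 v) := by
  have hp' : (7 : ℝ) ≤ p := by exact_mod_cast h.seven
  have h1 : √(1 - (σ i0 θ / 2) ^ 2) = sin (2 * π / p) := by
    rw [h.θ0, show 2 * cos (2 * π / p) / 2 = cos (2 * π / p) by ring, ← sin_sq,
      Real.sqrt_sq (sin_nonneg_of_nonneg_of_le_pi (by have := pi_pos; positivity) (by
        rw [div_le_iff₀ (by linarith)]; nlinarith [pi_pos]))]
  funext j; revert j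
  apply cases3 <;> simp only [Ψ, ρA, rotL_apply, mk3_0, mk3_1, mk3_2, mk3_3, implies_true,
    map_add, map_mul, map_neg, h1]
  · rw [h.θ0]; linear_combination (σ i0 (v (j2 m))) * sin_sq_add_cos_sq (2 * π / p)
  · rw [h.θ0]; ring

theorem Ψ_Rz (j : ZMod p) (v : Fin (m + 3) → A) :
    ∃ w, Ψ σ θ u i0 w = Rz m p j (Ψ σ θ u i0 v) ∧ w 0 = v 0 := by
  unfold Rz
  rw [rotE_apply]
  induction j.val with
  | zero => exact ⟨v, by simpa using (rotL_int m 0 _).symm, rfl⟩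
  | succ k ih =>
    obtain ⟨w, h1, h2⟩ := ih
    refine ⟨ρA θ w, ?_, h2⟩
    rw [h.Ψ_ρA, h1, rotL_add]; congr 2; push_cast; ring

theorem finΨ (C : ℝ) : {v : Fin (m + 3) → A | ∀ i j, |Ψ σ θ u i v j| ≤ C}.Finite := by
  have : Nonempty I := ⟨i0⟩
  obtain ⟨i₀, hi₀⟩ := Finite.exists_min (fun i => min 1 (min (√|σ i u ^ 2 - 1|)
    (√(1 - (σ i θ / 2) ^ 2))))
  set δ := min 1 (min (√|σ i₀ u ^ 2 - 1|) (√(1 - (σ i₀ θ / 2) ^ 2)))
  have hδ : 0 < δ := lt_min one_pos (lt_min (h.α_pos _) (h.γ_pos _))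
  apply (Set.Finite.pi' fun _ : Fin (m + 3) => h.finite (2 * C / δ)).subset
  intro v hv j i
  have h0 := hv i 0
  have h1 := hv i (j1 m)
  have h2 := hv i (j2 m)
  have h3 := fun j => hv i (j3 j)
  have hC : 0 ≤ C := (abs_nonneg _).trans h0
  simp only [Ψ, mk3_0, mk3_1, mk3_2, mk3_3, abs_mul, abs_of_pos (h.α_pos i),
    abs_of_pos (h.γ_pos i)] at h0 h1 h2 h3
  have d1 : δ ≤ 1 := (hi₀ i).trans (min_le_left _ _)
  have d2 : δ ≤ √|σ i u ^ 2 - 1| := (hi₀ i).trans ((min_le_right _ _).trans (min_le_left _ _))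
  have d3 : δ ≤ √(1 - (σ i θ / 2) ^ 2) :=
    (hi₀ i).trans ((min_le_right _ _).trans (min_le_right _ _))
  rw [le_div_iff₀ hδ]
  have e2 : |σ i (v (j2 m))| * δ ≤ C := by nlinarith [abs_nonneg (σ i (v (j2 m)))]
  revert j
  apply cases3
  · nlinarith [abs_nonneg (σ i (v 0))]
  · have e1 : |σ i (v (j1 m))| ≤ C + |σ i (v (j2 m))| := by
      have := abs_sub (σ i (v (j1 m)) + σ i θ / 2 * σ i (v (j2 m))) (σ i θ / 2 * σ i (v (j2 m)))
      rw [add_sub_cancel_right, abs_mul, abs_div, abs_two] at this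
      nlinarith [h.θlt i, abs_nonneg (σ i (v (j2 m)))]
    nlinarith
  · linarith
  · intro j; nlinarith [h3 j, abs_nonneg (σ i (v (j3 j)))]

theorem finF (f : A) (C : ℝ) :
    {v : Fin (m + 3) → A | FF θ u v v = f ∧ |Ψ σ θ u i0 v 0| ≤ C}.Finite := by
  obtain ⟨M, hM⟩ := (Set.finite_range fun i => |σ i f|).bddAbove
  have hM' : ∀ i, |σ i f| ≤ M := fun i => hM ⟨i, rfl⟩
  have hM0 : 0 ≤ M := (abs_nonneg _).trans (hM' i0)
  apply (h.finΨ (|C| + M + 1 + (|C| + M) ^ 2)).subset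
  rintro v ⟨h1, h2⟩ i j
  by_cases hi : i = i0
  · subst hi
    have h3 := h.B_Ψ v v
    rw [h1] at h3
    apply coord_bound
    · linarith [le_abs_self (σ i f), hM' i, abs_nonneg C]
    · linarith [le_abs_self C]
  · have h3 := h.E_Ψ hi v v
    rw [h1] at h3
    have h4 := Finset.single_le_sum (f := fun j => Ψ σ θ u i v j * Ψ σ θ u i v j)
      (fun _ _ => mul_self_nonneg _) (Finset.mem_univ j)
    rw [← abs_mul_abs_self] at h4
    nlinarith [le_abs_self (σ i f), hM' i, abs_nonneg C, sq_nonneg (|Ψ σ θ u i v j| - 1),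
      sq_nonneg (|C| + M)]

end ArU

end Pool.Agent.Lib.MP_6d95fe_co.Hn
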