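import Pool.Agent.Lib.MP_6d95fe_co.Hn.Defs

/-!
Lorentz geometry in dimension `n + 1`.
-/

namespace Pool.Agent.Lib.MP_6d95fe_co.Hn

abbrev V (n : ℕ) := Fin (n + 1) → ℝ

variable {n : ℕ}

abbrev B (x y : V n) : ℝ := lorentz x y

theorem B_comm (x y : V n) : B x y = B y x := by
  simp only [lorentz, mul_comm]
theorem B_add_left (x y z : V n) : B (x + y) z = B x z + B y z := by
  simp only [lorentz, Pi.add_apply, add_mul, Finset.sum_add_distrib]; ring
theorem B_smul_left (a : ℝ) (x y : V n) : B (a • x) y = a * B x y := by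
  simp only [lorentz, Pi.smul_apply, smul_eq_mul, mul_add, Finset.mul_sum, mul_assoc]; ring
theorem B_add_right (x y z : V n) : B x (y + z) = B x y + B x z := by
  rw [B_comm, B_add_left, B_comm y, B_comm z]
theorem B_smul_right (a : ℝ) (x y : V n) : B x (a • y) = a * B x y := by
  rw [B_comm, B_smul_left, B_comm]
theorem B_neg_left (x y : V n) : B (-x) y = - B x y := by
  rw [← neg_one_smul ℝ x, B_smul_left]; ring
theorem B_neg_right (x y : V n) : B x (-y) = - B x y := by
  rw [B_comm, B_neg_left, B_comm]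
theorem B_sub_left (x y z : V n) : B (x - y) z = B x z - B y z := by
  rw [sub_eq_add_neg, B_add_left, B_neg_left]; ring
theorem B_sub_right (x y z : V n) : B x (y - z) = B x y - B x z := by
  rw [B_comm, B_sub_left, B_comm y, B_comm z]
theorem B_zero_left (y : V n) : B 0 y = 0 := by simp [lorentz]
theorem B_zero_right (y : V n) : B y 0 = 0 := by simp [lorentz]

/-- The form as a linear map in the left variable. -/
def Bl (y : V n) : V n →ₗ[ℝ] ℝ where
  toFun x := B x y
  map_add' x x' := B_add_left x x' y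
  map_smul' a x := B_smul_left a x y

theorem B_sum_left {ι : Type*} (s : Finset ι) (f : ι → V n) (y : V n) :
    B (∑ i ∈ s, f i) y = ∑ i ∈ s, B (f i) y := map_sum (Bl y) f s

def Hyp (x : V n) : Prop := B x x = -1 ∧ 0 < x 0

def oV (n : ℕ) : V n := Pi.single 0 1

theorem B_oV (x : V n) : B x (oV n) = - x 0 := by
  simp [lorentz, oV, Fin.succ_ne_zero]

theorem Hyp_oV : Hyp (oV n) := ⟨by rw [B_oV]; simp [oV], by simp [oV]⟩

theorem sp_nonneg (x : V n) : 0 ≤ ∑ i : Fin n, x i.succ * x i.succ :=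
  Finset.sum_nonneg fun _ _ => mul_self_nonneg _

theorem sp_cs (x y : V n) : (∑ i : Fin n, x i.succ * y i.succ) ^ 2 ≤
    (∑ i : Fin n, x i.succ * x i.succ) * ∑ i : Fin n, y i.succ * y i.succ := by
  have := Finset.sum_mul_sq_le_sq_mul_sq Finset.univ (fun i : Fin n => x i.succ)
    (fun i => y i.succ)
  simpa only [pow_two] using this

theorem orth_timelike {x w : V n} (hx : B x x < 0) (h : B x w = 0) : 0 ≤ B w w := by
  have h2 := sp_cs x w
  have h5 := sp_nonneg x
  have h6 := sp_nonneg w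
  unfold B lorentz at *
  set a := ∑ i : Fin n, x i.succ * x i.succ
  set b := ∑ i : Fin n, w i.succ * w i.succ
  set c := ∑ i : Fin n, x i.succ * w i.succ
  have h0 : 0 < x 0 * x 0 := by linarith
  have h1 : (x 0 * w 0) ^ 2 = c ^ 2 := by rw [show x 0 * w 0 = c by linarith]
  have h3 : a * b ≤ (x 0 * x 0) * b := mul_le_mul_of_nonneg_right (by linarith) h6
  have h4 : (x 0 * x 0) * (w 0 * w 0) ≤ (x 0 * x 0) * b := by nlinarith
  have := le_of_mul_le_mul_left h4 h0
  linarith

theorem eq_zero_of_B {x : V n} (h : ∀ y, B x y = 0) : x = 0 := by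
  funext i
  refine Fin.cases ?_ (fun i => ?_) i
  · have := h (oV n); rw [B_oV] at this; simpa using this
  · have := h (Pi.single i.succ 1)
    simpa [lorentz, Pi.single_apply, (Fin.succ_ne_zero _).symm] using this

theorem orth_timelike_eq {x w : V n} (hx : B x x < 0) (h : B x w = 0) (hw : B w w ≤ 0) :
    w = 0 := by
  apply eq_zero_of_B
  intro y
  have hw0 : B w w = 0 := le_antisymm hw (orth_timelike hx h)
  have hx' := hx.ne
  set y' := y - (B x y / B x x) • x with hy'
  have h1 : B x y' = 0 := by rw [hy', B_sub_right, B_smul_right]; field_simp; ring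
  have h2 : B w y' = B w y := by rw [hy', B_sub_right, B_smul_right, B_comm w x, h]; ring
  rw [← h2]
  have h3 : ∀ t : ℝ, 0 ≤ B y' y' * (t * t) + 2 * B w y' * t + 0 := by
    intro t
    have := orth_timelike (w := w + t • y') hx (by rw [B_add_right, B_smul_right, h, h1]; ring)
    simp only [B_add_left, B_add_right, B_smul_left, B_smul_right, hw0, B_comm y' w] at this
    linarith
  have := discrim_le_zero h3
  unfold discrim at this
  nlinarith [sq_nonneg (B w y')]

/-- Reverse Cauchy-Schwarz inequality. -/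
theorem rcs {x : V n} (hx : B x x = -1) (u : V n) : - B u u ≤ (B x u) ^ 2 := by
  have h := orth_timelike (x := x) (w := u + B x u • x) (by rw [hx]; norm_num)
    (by rw [B_add_right, B_smul_right, hx]; ring)
  rw [B_add_left, B_add_right, B_add_right, B_smul_left, B_smul_right, B_smul_left,
    B_smul_right, hx, B_comm u x] at h
  nlinarith

theorem B_neg_of_future {x u : V n} (hx : B x x < 0) (hx0 : 0 < x 0) (hu : B u u < 0)
    (hu0 : 0 < u 0) : B x u < 0 := by
  have h2 := sp_cs x u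
  have h5 := sp_nonneg x
  have h6 := sp_nonneg u
  unfold B lorentz at *
  set a := ∑ i : Fin n, x i.succ * x i.succ
  set b := ∑ i : Fin n, u i.succ * u i.succ
  set c := ∑ i : Fin n, x i.succ * u i.succ
  by_contra hc
  push Not at hc
  have h3 : a * b < (x 0 * x 0) * (u 0 * u 0) := by
    apply mul_lt_mul'' <;> linarith
  have h4 : 0 < x 0 * u 0 := mul_pos hx0 hu0
  have h5 : (x 0 * u 0) ^ 2 ≤ c ^ 2 := by
    apply pow_le_pow_left₀ h4.le; linarith
  nlinarith

theorem time_ne_zero {x : V n} (hx : B x x < 0) : x 0 ≠ 0 := by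
  intro h1
  have := sp_nonneg x
  unfold B lorentz at hx; rw [h1] at hx
  linarith

theorem future_of_B_neg {x u : V n} (hx : B x x < 0) (hu : B u u < 0)
    (hu0 : 0 < u 0) (h : B x u < 0) : 0 < x 0 := by
  rcases lt_trichotomy (x 0) 0 with h1 | h1 | h1
  · have := B_neg_of_future (x := -x) (u := u) (by rw [B_neg_left, B_neg_right]; linarith)
      (by simpa using h1) hu hu0
    rw [B_neg_left] at this; linarith
  · exact absurd h1 (time_ne_zero hx)
  · exact h1

theorem Hyp.neg {x : V n} (hx : Hyp x) : B x x < 0 := by rw [hx.1]; norm_num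

theorem Hyp.B_le {x y : V n} (hx : Hyp x) (hy : Hyp y) : B x y ≤ -1 := by
  have h1 := rcs hx.1 y
  have h2 := B_neg_of_future hx.neg hx.2 hy.neg hy.2
  rw [hy.1] at h1
  nlinarith

theorem Hyp.eq_of_B {x y : V n} (hx : Hyp x) (hy : Hyp y) (h : -1 ≤ B x y) : x = y := by
  have h1 : B x y = -1 := le_antisymm (hx.B_le hy) h
  apply sub_eq_zero.1
  apply orth_timelike_eq hx.neg
  · rw [B_sub_right, hx.1, h1]; ring
  · simp only [B_sub_left, B_sub_right, hx.1, hy.1, h1, B_comm y x]; norm_num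

theorem hyp_of_B {x u : V n} (hx : B x x = -1) (hu : Hyp u) (h : B x u < 0) : Hyp x :=
  ⟨hx, future_of_B_neg (by rw [hx]; norm_num) hu.neg hu.2 h⟩

/-- Disjoint outer half-spaces. -/
theorem far_sum {s t x o : V n} (hs : B s s = 1) (ht : B t t = 1) (hst : B s t ≤ -2)
    (ho : Hyp o) (hos : B o s < 0) (hot : B o t < 0) (hx : Hyp x) : B x s + B x t ≤ -1 := by
  have h2 : B (s + t) (s + t) ≤ -2 := by
    simp only [B_add_left, B_add_right, hs, ht, B_comm t s]; linarith
  have h3 := rcs hx.1 (s + t)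
  have h5 : 0 < (s + t) 0 := future_of_B_neg (by linarith) ho.neg ho.2
    (by rw [B_comm, B_add_right]; linarith)
  have h4 := B_neg_of_future hx.neg hx.2 (u := s + t) (by linarith) h5
  rw [← B_add_right]
  nlinarith

/-- A wall between two points is close to both. -/
theorem sep_bound {s x y : V n} (hs : B s s = 1) (hx : Hyp x) (hy : Hyp y) (h1 : B x s ≤ 0)
    (h2 : 0 ≤ B y s) : - B x s ≤ - B x y ∧ B y s ≤ - B x y := by
  set a := - B x s with ha
  set b := B y s with hb
  have e1 : B (x + a • s) (x + a • s) = -1 - a ^ 2 := by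
    simp only [B_add_left, B_add_right, B_smul_left, B_smul_right, hx.1, hs, B_comm s x]
    rw [ha]; ring
  have e2 : B (y - b • s) (y - b • s) = -1 - b ^ 2 := by
    simp only [B_sub_left, B_sub_right, B_smul_left, B_smul_right, hy.1, hs, B_comm s y]
    rw [hb]; ring
  have e3 : B (x + a • s) (y - b • s) = B x y + a * b := by
    simp only [B_add_left, B_sub_right, B_smul_left, B_smul_right, hs, B_comm s y]
    rw [ha, hb]; ring
  have ha0 : 0 ≤ a := by linarith
  have h3 := rcs hx.1 (y - b • s)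
  have h4 := rcs hy.1 (x + a • s)
  rw [e2, B_sub_right, B_smul_right] at h3
  rw [e1, B_add_right, B_smul_right, B_comm y x] at h4
  have h5 := hx.B_le hy
  have f1 : 0 < (y - b • s) 0 := future_of_B_neg (by rw [e2]; nlinarith) hy.neg hy.2 (by
    rw [B_sub_left, B_smul_left, hy.1, B_comm s y]; nlinarith)
  have f2 : 0 < (x + a • s) 0 := future_of_B_neg (by rw [e1]; nlinarith) hx.neg hx.2 (by
    rw [B_add_left, B_smul_left, hx.1, B_comm s x]; nlinarith)
  have f3 := B_neg_of_future (by rw [e1]; nlinarith) f2 (by rw [e2]; nlinarith) f1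
  rw [e3] at f3
  have hab : 0 ≤ a * b := mul_nonneg ha0 h2
  have e4 : B x y - b * B x s = B x y + a * b := by rw [ha]; ring
  rw [e4] at h3
  constructor
  · nlinarith
  · nlinarith

/-- A form of the triangle inequality. -/
theorem B_tri {x y z : V n} (hx : Hyp x) (hy : Hyp y) (hz : Hyp z) :
    - B x z ≤ 2 * (- B x y) * (- B y z) := by
  set a := - B x y with ha
  set b := - B y z with hb
  have ha1 : 1 ≤ a := by linarith [hx.B_le hy]
  have hb1 : 1 ≤ b := by linarith [hy.B_le hz]
  have o1 : B y (x - a • y) = 0 := by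
    rw [B_sub_right, B_smul_right, hy.1, B_comm y x, ha]; ring
  have o2 : B y (z - b • y) = 0 := by rw [B_sub_right, B_smul_right, hy.1, hb]; ring
  have h := orth_timelike (w := b • (x - a • y) + a • (z - b • y)) hy.neg
    (by rw [B_add_right, B_smul_right, B_smul_right, o1, o2]; ring)
  have e1 : B x y = -a := by rw [ha]; ring
  have e2 : B y z = -b := by rw [hb]; ring
  simp only [B_add_left, B_add_right, B_sub_left, B_sub_right, B_smul_left, B_smul_right, hx.1,
    hy.1, hz.1, B_comm y x, B_comm z y, B_comm z x, e1, e2] at h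
  have hab : 0 < a * b := by positivity
  by_contra hc
  push Not at hc
  nlinarith

/-- Orthochronous Lorentz maps. -/
def IsLor (f : V n ≃ₗ[ℝ] V n) : Prop := (∀ x y, B (f x) (f y) = B x y) ∧ ∀ x, Hyp x → Hyp (f x)

theorem IsLor.one : IsLor (1 : V n ≃ₗ[ℝ] V n) := ⟨fun _ _ => rfl, fun _ h => h⟩

theorem IsLor.mul {f g : V n ≃ₗ[ℝ] V n} (hf : IsLor f) (hg : IsLor g) : IsLor (f * g) :=
  ⟨fun x y => by simp [hf.1, hg.1], fun x h => hf.2 _ (hg.2 _ h)⟩

theorem isLor_of {f : V n ≃ₗ[ℝ] V n} (h : ∀ x y, B (f x) (f y) = B x y) {u : V n}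
    (hu : B u u < 0) (hu0 : 0 < u 0) (hfu : 0 < f u 0) : IsLor f := by
  refine ⟨h, fun x hx => ⟨by rw [h, hx.1], ?_⟩⟩
  apply future_of_B_neg (u := f u) (by rw [h, hx.1]; norm_num) (by rwa [h]) hfu
  rw [h]
  exact B_neg_of_future hx.neg hx.2 hu hu0

theorem IsLor.hyp_of {f : V n ≃ₗ[ℝ] V n} (hf : IsLor f) {x : V n} (h : Hyp (f x)) : Hyp x := by
  apply hyp_of_B (by rw [← hf.1, h.1]) Hyp_oV
  rw [← hf.1]
  linarith [h.B_le (hf.2 _ Hyp_oV)]

theorem inv_apply_self (f : V n ≃ₗ[ℝ] V n) (x : V n) : f⁻¹ (f x) = x := f.symm_apply_apply x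
theorem self_apply_inv (f : V n ≃ₗ[ℝ] V n) (x : V n) : f (f⁻¹ x) = x := f.apply_symm_apply x

theorem IsLor.inv {f : V n ≃ₗ[ℝ] V n} (hf : IsLor f) : IsLor f⁻¹ :=
  ⟨fun x y => by rw [← hf.1, self_apply_inv, self_apply_inv],
    fun x hx => hf.hyp_of (by rwa [self_apply_inv])⟩

theorem IsLor.B_inv {f : V n ≃ₗ[ℝ] V n} (hf : IsLor f) (x y : V n) : B (f⁻¹ x) y = B x (f y) := by
  rw [← hf.1, self_apply_inv]

/-- The reflection in a non-isotropic vector. -/
noncomputable def reflL (s : V n) : V n →ₗ[ℝ] V n where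
  toFun x := x - (2 * B x s / B s s) • s
  map_add' x y := by simp only [B_add_left]; match_scalars <;> ring
  map_smul' a x := by simp only [B_smul_left, RingHom.id_apply]; match_scalars <;> ring

theorem reflL_apply (s x : V n) : reflL s x = x - (2 * B x s / B s s) • s := rfl

theorem reflL_invol (s x : V n) : reflL s (reflL s x) = x := by
  rw [reflL_apply, reflL_apply, B_sub_left, B_smul_left]
  by_cases h : B s s = 0
  · simp [h]
  · match_scalars
    · ring
    · field_simp; ring

noncomputable def refl (s : V n) : V n ≃ₗ[ℝ] V n :=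
  LinearEquiv.ofInvolutive (reflL s) (reflL_invol s)

theorem refl_apply' (s x : V n) : refl s x = x - (2 * B x s / B s s) • s := rfl

theorem refl_apply {s : V n} (hs : B s s = 1) (x : V n) : refl s x = x - (2 * B x s) • s := by
  rw [refl_apply', hs, div_one]

theorem refl_refl (s x : V n) : refl s (refl s x) = x := reflL_invol s x

theorem refl_mul_self (s : V n) : refl s * refl s = 1 := LinearEquiv.ext (refl_refl s)

theorem refl_B (s x y : V n) : B (refl s x) (refl s y) = B x y := by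
  simp only [refl_apply', B_sub_left, B_sub_right, B_smul_left, B_smul_right, B_comm s y]
  by_cases h : B s s = 0
  · simp [h]
  · field_simp; ring

theorem refl_lor {s : V n} (hs : 0 ≤ B s s) : IsLor (refl s) := by
  refine ⟨refl_B s, fun x hx => hyp_of_B (by rw [refl_B, hx.1]) hx ?_⟩
  rw [refl_apply', B_sub_left, B_smul_left, hx.1, B_comm s x]
  have : 0 ≤ 2 * B x s / B s s * B x s := by
    rw [show 2 * B x s / B s s * B x s = 2 * (B x s) ^ 2 / B s s by ring]; positivity
  linarith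

theorem B_refl {s : V n} (hs : B s s = 1) (x y : V n) :
    B x (refl s y) = B x y - 2 * B x s * B y s := by
  rw [refl_apply hs, B_sub_right, B_smul_right]; ring

theorem B_refl_self {s : V n} (hs : B s s = 1) (x : V n) : B (refl s x) s = - B x s := by
  rw [B_comm, B_refl hs, hs, B_comm s x]; ring

theorem IsLor.refl_conj {f : V n ≃ₗ[ℝ] V n} (hf : IsLor f) (s : V n) :
    refl (f s) * f = f * refl s := by
  ext1 x
  simp only [LinearEquiv.mul_apply, refl_apply', hf.1, map_sub, map_smul]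

theorem exists_boost {x : V n} (hx : Hyp x) :
    ∃ T : V n ≃ₗ[ℝ] V n, IsLor T ∧ T * T = 1 ∧ T x = oV n := by
  have ho : Hyp (oV n) := Hyp_oV
  have h1 : B (x - oV n) (x - oV n) = -2 - 2 * B x (oV n) := by
    simp only [B_sub_left, B_sub_right, hx.1, ho.1, B_comm (oV n) x]; ring
  refine ⟨refl (x - oV n), refl_lor (by rw [h1]; linarith [hx.B_le ho]), refl_mul_self _, ?_⟩
  by_cases h : x = oV n
  · rw [refl_apply', h]; simp
  · have h2 : B x (oV n) < -1 := lt_of_not_ge fun h2 => h (hx.eq_of_B ho h2)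
    rw [refl_apply', h1, B_sub_right, hx.1]
    have : -2 - 2 * B x (oV n) ≠ 0 := by linarith
    rw [show 2 * (-1 - B x (oV n)) / (-2 - 2 * B x (oV n)) = 1 by
      rw [div_eq_one_iff_eq this]; ring]
    simp

theorem coord_bound {x : V n} {C : ℝ} (h1 : B x x ≤ C) (h2 : |x 0| ≤ C) (i : Fin (n + 1)) :
    |x i| ≤ C + 1 + C ^ 2 := by
  have hC : 0 ≤ C := (abs_nonneg _).trans h2
  refine Fin.cases (by nlinarith) (fun i => ?_) i
  have h3 : x i.succ * x i.succ ≤ ∑ i : Fin n, x i.succ * x i.succ :=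
    Finset.single_le_sum (f := fun i : Fin n => x i.succ * x i.succ)
      (fun _ _ => mul_self_nonneg _) (Finset.mem_univ i)
  have h4 : x 0 * x 0 ≤ C ^ 2 := by
    rw [← abs_mul_abs_self]; nlinarith [abs_nonneg (x 0)]
  unfold B lorentz at h1
  have h5 : |x i.succ| * |x i.succ| ≤ C + C ^ 2 := by rw [abs_mul_abs_self]; linarith
  nlinarith [abs_nonneg (x i.succ), sq_nonneg (|x i.succ| - 1)]

theorem continuous_B_left (y : V n) : Continuous fun x : V n => B x y := by
  unfold B lorentz; fun_prop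

theorem continuous_B_sub (y : V n) : Continuous fun x : HypSpace n => B x.1 y :=
  (continuous_B_left y).comp continuous_subtype_val

theorem isCompact_ball (y : HypSpace n) (C : ℝ) : IsCompact {x : HypSpace n | -B x.1 y.1 ≤ C} := by
  have hc : IsClosed {x : V n | lorentz x x = -1 ∧ 0 < x 0} := by
    have : {x : V n | lorentz x x = -1 ∧ 0 < x 0} = {x : V n | lorentz x x = -1} ∩ {x | 0 ≤ x 0} := by
      ext x
      simp only [Set.mem_ofPred_eq, Set.mem_inter_iff, and_congr_right_iff]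
      intro h
      exact ⟨le_of_lt, fun h' => lt_of_le_of_ne h' (time_ne_zero (by rw [B, h]; norm_num)).symm⟩
    rw [this]
    refine IsClosed.inter (isClosed_eq ?_ continuous_const)
      (isClosed_le continuous_const (continuous_apply 0))
    unfold lorentz; fun_prop
  apply IsCompact.of_isClosed_subset (s := Subtype.val ⁻¹' Metric.closedBall (0 : V n)
    (let D := 2 * C * (y.1 0) + 1; D + 1 + D ^ 2))
  · exact hc.isClosedEmbedding_subtypeVal.isCompact_preimage (isCompact_closedBall _ _)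
  · exact isClosed_le (continuous_B_sub _).neg continuous_const
  · intro x hx
    simp only [Set.mem_preimage, mem_closedBall_zero_iff]
    have h1 := B_tri (x := x.1) (y := y.1) x.2 y.2 Hyp_oV
    rw [B_oV, B_oV, neg_neg, neg_neg] at h1
    have h2 : -B x.1 y.1 ≤ C := hx
    have h3 : 1 ≤ -B x.1 y.1 := by linarith [Hyp.B_le (x := x.1) (y := y.1) x.2 y.2]
    have h4 := y.2.2
    have h5 : x.1 0 ≤ 2 * C * y.1 0 + 1 := by nlinarith
    have h6 : 0 ≤ 2 * C * y.1 0 := by nlinarith
    rw [pi_norm_le_iff_of_nonneg (by positivity)]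
    intro i
    apply coord_bound
    · rw [B, x.2.1]; linarith
    · rw [abs_of_pos x.2.2]; exact h5

theorem hdist_le_iff (z p z' q : HypSpace n) :
    hdist z p ≤ hdist z' q ↔ B z'.1 q.1 ≤ B z.1 p.1 := by
  have h1 := Hyp.B_le (x := z.1) (y := p.1) z.2 p.2
  have h2 := Hyp.B_le (x := z'.1) (y := q.1) z'.2 q.2
  unfold hdist
  rw [Real.arcosh_le_arcosh (by linarith) (by linarith), neg_le_neg_iff]

theorem hdist_eq_iff (z p z' q : HypSpace n) :
    hdist z p = hdist z' q ↔ B z'.1 q.1 = B z.1 p.1 := by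
  rw [le_antisymm_iff, le_antisymm_iff, hdist_le_iff, hdist_le_iff]

theorem isIsom_iff (g : HypSpace n ≃ HypSpace n) :
    IsIsom g ↔ ∀ x y, B (g x).1 (g y).1 = B x.1 y.1 := by
  simp only [IsIsom, hdist_eq_iff, eq_comm]

/-- A Lorentz map induces an isometry. -/
def IsLor.toEquiv {f : V n ≃ₗ[ℝ] V n} (hf : IsLor f) : HypSpace n ≃ HypSpace n where
  toFun x := ⟨f x.1, hf.2 _ x.2⟩
  invFun x := ⟨f⁻¹ x.1, hf.inv.2 _ x.2⟩
  left_inv x := Subtype.ext (inv_apply_self f x.1)
  right_inv x := Subtype.ext (self_apply_inv f x.1)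

theorem IsLor.isIsom {f : V n ≃ₗ[ℝ] V n} (hf : IsLor f) : IsIsom hf.toEquiv :=
  (isIsom_iff _).2 fun x y => hf.1 x.1 y.1

/-- Moving off a hyperplane. -/
theorem exists_push {ν : V n} (hν : B ν ν = 1) {x : HypSpace n} (hx : B x.1 ν = 0)
    {U : Set (HypSpace n)} (hU : IsOpen U) (hxU : x ∈ U) : ∃ y ∈ U, 0 < B y.1 ν := by
  have h1 : ∀ τ : ℝ, Hyp (Real.cosh τ • x.1 + Real.sinh τ • ν) := by
    intro τ
    have hx1 : B x.1 x.1 = -1 := x.2.1
    apply hyp_of_B (u := x.1) _ x.2
    · simp only [B_add_left, B_smul_left, hx1, hx, B_comm ν x.1]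
      linarith [Real.cosh_pos τ]
    · simp only [B_add_left, B_add_right, B_smul_left, B_smul_right, hx1, hν, hx, B_comm ν x.1]
      nlinarith [Real.cosh_sq τ]
  let c : ℝ → HypSpace n := fun τ => ⟨_, h1 τ⟩
  have hc : Continuous c := by
    apply Continuous.subtype_mk
    fun_prop
  have h2 : c ⁻¹' U ∈ nhds (0 : ℝ) := by
    apply (hU.preimage hc).mem_nhds
    simpa [c] using hxU
  obtain ⟨ε, hε, h3⟩ := Metric.mem_nhds_iff.1 h2
  refine ⟨c (ε / 2), h3 (by simp [abs_of_pos hε]; linarith), ?_⟩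
  simp only [c, B_add_left, B_smul_left, hx, hν]
  have := Real.sinh_pos_iff.2 (half_pos hε)
  linarith

theorem interior_hyperplane {ν : V n} (hν : 0 < B ν ν) :
    interior {z : HypSpace n | B z.1 ν = 0} = ∅ := by
  ext z
  simp only [Set.mem_empty_iff_false, iff_false]
  intro hz
  have hz0 : B z.1 ν = 0 := (interior_subset hz : z ∈ {z : HypSpace n | B z.1 ν = 0})
  have hs := Real.sqrt_pos.2 hν
  obtain ⟨y, hy, h⟩ := exists_push (ν := (√(B ν ν))⁻¹ • ν) (by
    rw [B_smul_left, B_smul_right]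
    have := Real.mul_self_sqrt hν.le
    field_simp; nlinarith) (by rw [B_smul_right, hz0]; ring) isOpen_interior hz
  have hy0 : B y.1 ν = 0 := (interior_subset hy : y ∈ {z : HypSpace n | B z.1 ν = 0})
  rw [B_smul_right, hy0] at h
  simp at h

/-- A relatively dense set of points spans. -/
theorem dense_span {Z : Set (V n)} (hZ : ∀ z ∈ Z, Hyp z) {R : ℝ}
    (hR : ∀ y, Hyp y → ∃ z ∈ Z, -B z y ≤ R) {ν : V n} (h : ∀ z ∈ Z, B z ν = 0) : ν = 0 := by
  obtain ⟨z₀, hz₀, -⟩ := hR _ Hyp_oV
  by_contra hν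
  have h1 : 0 < B ν ν := lt_of_not_ge fun h1 =>
    hν (orth_timelike_eq (hZ _ hz₀).neg (h _ hz₀) h1)
  have hs := Real.sqrt_pos.2 h1
  set s := (√(B ν ν))⁻¹ • ν with hsdef
  have h2 : B s s = 1 := by
    rw [hsdef, B_smul_left, B_smul_right]
    have := Real.mul_self_sqrt h1.le
    field_simp; nlinarith
  have h3 : ∀ z ∈ Z, B z s = 0 := fun z hz => by rw [hsdef, B_smul_right, h z hz]; ring
  set t := |R| + 1 with ht
  have ht0 : 0 < t := by positivity
  have hq := Real.mul_self_sqrt (show 0 ≤ 1 + t ^ 2 by positivity)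
  have hq0 := Real.sqrt_pos.2 (show 0 < 1 + t ^ 2 by positivity)
  have hy : Hyp (√(1 + t ^ 2) • z₀ + t • s) := by
    apply hyp_of_B (u := z₀) _ (hZ _ hz₀)
    · simp only [B_add_left, B_smul_left, (hZ _ hz₀).1, h3 _ hz₀, B_comm s z₀]; linarith
    · simp only [B_add_left, B_add_right, B_smul_left, B_smul_right, (hZ _ hz₀).1, h2, h3 _ hz₀,
        B_comm s z₀]
      nlinarith
  obtain ⟨z, hz, h4⟩ := hR _ hy
  have h5 : B (√(1 + t ^ 2) • z₀ + t • s) s = t := by
    simp only [B_add_left, B_smul_left, h3 _ hz₀, h2]; ring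
  have := (sep_bound h2 (hZ z hz) hy (h3 z hz).le (by rw [h5]; exact ht0.le)).2
  rw [h5] at this
  linarith [le_abs_self R]

end Pool.Agent.Lib.MP_6d95fe_co.Hn
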