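import Mathlib

/-!
A reversible shift register driving the gluing pattern.
-/

set_option linter.unusedSectionVars false

namespace Pool.Agent.Lib.MP_6d95fe_co.Hn

def bcons (b : Bool) (ω : ℕ → Bool) : ℕ → Bool
  | 0 => b
  | i + 1 => ω i

def io1 (H : ℕ) (ω : ℕ → Bool) (v : ℕ) : ℕ → Bool :=
  if v % 6 = 1 then fun i => ω (i + 1)
  else if v % 6 = 2 ∨ v % 6 = 4 then bcons (decide (H ≤ v / 6)) ω else ω

def io2 (H : ℕ) (b : Bool) (v : ℕ) : ℕ :=
  if v % 6 = 1 then (if v / 6 % 2 = 0 then 2 else 4) + 6 * (v / 6 / 2 + if b then H else 0)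
  else if v % 6 = 2 then 1 + 6 * (2 * (if H ≤ v / 6 then v / 6 - H else v / 6))
  else if v % 6 = 4 then 1 + 6 * (2 * (if H ≤ v / 6 then v / 6 - H else v / 6) + 1)
  else v

theorem io2_lt {H v : ℕ} (b : Bool) (h : v < 12 * H) : io2 H b v < 12 * H := by
  unfold io2; split_ifs <;> omega

theorem io2_dvd (H : ℕ) (b : Bool) (v : ℕ) : 3 ∣ io2 H b v ↔ 3 ∣ v := by
  unfold io2; split_ifs <;> omega

theorem io_io {H v : ℕ} (ω : ℕ → Bool) (h : v < 12 * H) :
    io1 H (io1 H ω v) (io2 H (ω 0) v) = ω ∧ io2 H (io1 H ω v 0) (io2 H (ω 0) v) = v := by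
  by_cases h1 : v % 6 = 1
  · have e1 : io1 H ω v = fun i => ω (i + 1) := by simp [io1, h1]
    have e2 : io2 H (ω 0) v % 6 = 2 ∨ io2 H (ω 0) v % 6 = 4 := by
      unfold io2; split_ifs <;> omega
    have e3 : (H ≤ io2 H (ω 0) v / 6) ↔ ω 0 = true := by
      unfold io2; split_ifs <;> simp_all <;> omega
    constructor
    · rw [e1]; unfold io1
      rw [if_neg (by omega), if_pos e2]
      funext i
      cases i with
      | zero => simp only [bcons, e3]; simp
      | succ i => rfl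
    · generalize io1 H ω v 0 = b
      generalize ω 0 = b'
      unfold io2; split_ifs <;> omega
  by_cases h2 : v % 6 = 2 ∨ v % 6 = 4
  · have e1 : io1 H ω v = bcons (decide (H ≤ v / 6)) ω := by simp [io1, h1, h2]
    have e2 : io2 H (ω 0) v % 6 = 1 := by
      unfold io2; split_ifs <;> omega
    constructor
    · rw [e1]; unfold io1
      rw [if_pos e2]; rfl
    · rw [e1]
      simp only [bcons]
      generalize ω 0 = b'
      by_cases h3 : H ≤ v / 6
      · rw [decide_eq_true h3]; unfold io2; simp only [if_true]; split_ifs <;> omega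
      · rw [decide_eq_false h3]; unfold io2
        simp only [Bool.false_eq_true, if_false]; split_ifs <;> omega
  · have e1 : io1 H ω v = ω := by simp [io1, h1, h2]
    have e2 : ∀ b, io2 H b v = v := by intro b; unfold io2; split_ifs <;> omega
    rw [e1, e2, e2, e1]
    exact ⟨rfl, rfl⟩

theorem io2_level {H v v' : ℕ} (b b' : Bool) {t : ℤ} (h : (v : ℤ) = v' + 12 * t) :
    ∃ c d : ℤ, (io2 H b v : ℤ) = io2 H b' v' + 6 * t * c + 6 * H * d := by
  have key : ∀ c : ℤ, ((io2 H b v : ℤ) = io2 H b' v' + 6 * t * c ∨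
      (io2 H b v : ℤ) = io2 H b' v' + 6 * t * c + 6 * H ∨
      (io2 H b v : ℤ) = io2 H b' v' + 6 * t * c - 6 * H ∨
      (io2 H b v : ℤ) = io2 H b' v' + 6 * t * c + 12 * H ∨
      (io2 H b v : ℤ) = io2 H b' v' + 6 * t * c - 12 * H) →
      ∃ c d : ℤ, (io2 H b v : ℤ) = io2 H b' v' + 6 * t * c + 6 * H * d := by
    rintro c (h | h | h | h | h)
    · exact ⟨c, 0, by linarith⟩
    · exact ⟨c, 1, by linarith⟩
    · exact ⟨c, -1, by linarith⟩
    · exact ⟨c, 2, by linarith⟩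
    · exact ⟨c, -2, by linarith⟩
  by_cases h1 : v % 6 = 1
  · apply key 1; unfold io2; split_ifs <;> omega
  by_cases h2 : v % 6 = 2 ∨ v % 6 = 4
  · apply key 4; unfold io2; split_ifs <;> omega
  · apply key 2; unfold io2; split_ifs <;> omega

@[ext] structure St (p : ℕ) where
  ω : ℕ → Bool
  f : ZMod p
  cen : Bool

section
variable {H : ℕ} [NeZero (12 * H)]

def St.mv (l : ZMod (12 * H)) (s : St (12 * H)) : St (12 * H) :=
  if 3 ∣ (l - s.f).val then ⟨s.ω, s.f, !s.cen⟩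
  else if s.cen then ⟨io1 H s.ω (l - s.f).val, l - (io2 H (s.ω 0) (l - s.f).val : ℕ), true⟩
  else s

theorem St.mv_b {l : ZMod (12 * H)} {s : St (12 * H)} (h : 3 ∣ (l - s.f).val) :
    s.mv l = ⟨s.ω, s.f, !s.cen⟩ := by unfold St.mv; rw [if_pos h]

theorem St.mv_a {l : ZMod (12 * H)} {s : St (12 * H)} (h : ¬ 3 ∣ (l - s.f).val)
    (hc : s.cen = true) :
    s.mv l = ⟨io1 H s.ω (l - s.f).val, l - (io2 H (s.ω 0) (l - s.f).val : ℕ), true⟩ := by
  unfold St.mv; rw [if_neg h, if_pos hc]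

theorem St.mv_s {l : ZMod (12 * H)} {s : St (12 * H)} (h : ¬ 3 ∣ (l - s.f).val)
    (hc : s.cen = false) : s.mv l = s := by
  unfold St.mv; rw [if_neg h, if_neg (by simp [hc])]

theorem St.mv_mv (l : ZMod (12 * H)) (s : St (12 * H)) : (s.mv l).mv l = s := by
  by_cases h : 3 ∣ (l - s.f).val
  · rw [St.mv_b h, St.mv_b (by exact h)]; simp
  rcases hc : s.cen with _ | _
  · rw [St.mv_s h hc, St.mv_s h hc]
  · have hv := ZMod.val_lt (l - s.f)
    have e : (l - (l - (io2 H (s.ω 0) (l - s.f).val : ℕ))).val = io2 H (s.ω 0) (l - s.f).val := by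
      rw [sub_sub_cancel, ZMod.val_natCast, Nat.mod_eq_of_lt (io2_lt _ hv)]
    obtain ⟨h1, h2⟩ := io_io s.ω hv
    rw [St.mv_a h hc, St.mv_a (by simp only [e, io2_dvd]; exact h) rfl]
    simp only [e, h1, h2]
    ext <;> simp [hc]

theorem St.mv_sat {l : ZMod (12 * H)} {s : St (12 * H)} (h1 : s.cen = false)
    (h2 : (s.mv l).cen = false) : s.mv l = s := by
  by_cases h : 3 ∣ (l - s.f).val
  · rw [St.mv_b h] at h2; simp [h1] at h2
  · exact St.mv_s h h1

theorem St.mv_self_cen {s : St (12 * H)} (h1 : s.cen = false) : (s.mv s.f).cen = true := by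
  rw [St.mv_b (by simp)]; simp [h1]

theorem St.cen_mv_iff {l : ZMod (12 * H)} {s : St (12 * H)} (h1 : s.cen = true) :
    (s.mv l).cen = true ↔ ¬ 3 ∣ (l - s.f).val := by
  by_cases h : 3 ∣ (l - s.f).val
  · rw [St.mv_b h]; simp [h1, h]
  · rw [St.mv_a h h1]; simp [h]

theorem val_eq {j : ZMod (12 * H)} {a : ℤ} (h : j = (a : ℤ)) :
    ∃ d : ℤ, (j.val : ℤ) = a + 12 * H * d := by
  have h1 : ((a : ℤ) : ZMod (12 * H)) = ((j.val : ℤ) : ZMod (12 * H)) := by simp [h]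
  obtain ⟨d, hd⟩ := (ZMod.intCast_eq_intCast_iff_dvd_sub _ _ _).1 h1
  exact ⟨d, by push_cast at hd; linarith⟩

/-- Agreement of two states up to level `l`, after a shift of labels by `δ`. -/
def Lev (δ : ZMod (12 * H)) (l : ℕ) (s s' : St (12 * H)) : Prop :=
  s.cen = s'.cen ∧ ∃ a : ℤ, s'.f - δ - s.f = ((6 * 2 ^ l * a : ℤ) : ZMod (12 * H))

theorem Lev.mono {δ : ZMod (12 * H)} {l : ℕ} {s s' : St (12 * H)} (h : Lev δ (l + 1) s s') :
    Lev δ l s s' := by
  obtain ⟨h1, a, ha⟩ := h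
  exact ⟨h1, 2 * a, by rw [ha]; congr 1; ring⟩

theorem Lev.symm {δ : ZMod (12 * H)} {l : ℕ} {s s' : St (12 * H)} (h : Lev δ l s s') :
    Lev (-δ) l s' s := by
  obtain ⟨h1, a, ha⟩ := h
  refine ⟨h1.symm, -a, ?_⟩
  push_cast at ha ⊢
  linear_combination -ha

theorem Lev.mv {δ : ZMod (12 * H)} {l : ℕ} (hl : 2 ^ l ∣ H) {s s' : St (12 * H)}
    (h : Lev δ (l + 1) s s') (x : ZMod (12 * H)) : Lev δ l (s.mv x) (s'.mv (x + δ)) := by
  have hm := h.mono
  obtain ⟨h1, a, ha⟩ := h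
  obtain ⟨H', hH⟩ := hl
  obtain ⟨d, hd⟩ := val_eq (j := x - s.f) (a := (x + δ - s'.f).val + 6 * 2 ^ (l + 1) * a) (by
    rw [Int.cast_add, ← ha]; simp; ring)
  have e : ((x - s.f).val : ℤ) = (x + δ - s'.f).val + 12 * (2 ^ l * (a + H' * d)) := by
    have hH' : (H : ℤ) = 2 ^ l * H' := by exact_mod_cast hH
    rw [hd, hH']; ring
  have h3 : 3 ∣ (x - s.f).val ↔ 3 ∣ (x + δ - s'.f).val := by omega
  by_cases h2 : 3 ∣ (x - s.f).val
  · rw [St.mv_b h2, St.mv_b (h3.1 h2)]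
    exact ⟨by simp [h1], hm.2⟩
  rcases hc : s.cen with _ | _
  · rw [St.mv_s h2 hc, St.mv_s (mt h3.2 h2) (h1 ▸ hc)]; exact hm
  · rw [St.mv_a h2 hc, St.mv_a (mt h3.2 h2) (h1 ▸ hc)]
    obtain ⟨c, d', h4⟩ := io2_level (H := H) (s.ω 0) (s'.ω 0) e
    refine ⟨rfl, (a + H' * d) * c + H' * d', ?_⟩
    have h5 := congrArg (fun z : ℤ => (z : ZMod (12 * H))) h4
    have h6 : ((H : ℕ) : ZMod (12 * H)) = 2 ^ l * H' := by
      have := congrArg (Nat.cast : ℕ → ZMod (12 * H)) hH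
      push_cast at this; exact this
    push_cast at h5 ⊢
    rw [h6] at h5
    linear_combination h5

theorem decode {k : ℕ} (hH : H = 2 ^ k) (E : St (12 * H) → St (12 * H) → Prop)
    (hc : ∀ s s', E s s' → s.cen = true ∧ s'.cen = true)
    (hcol : ∀ s s', E s s' → ∀ l, 3 ∣ (l - s.f).val ↔ 3 ∣ (l - s'.f).val)
    (hmv : ∀ s s', E s s' → ∀ l, ¬ 3 ∣ (l - s.f).val → E (s.mv l) (s'.mv l)) :
    ∀ s s', E s s' → s.f = s'.f → s.ω = s'.ω := by
  have hH0 : 0 < H := by rw [hH]; positivity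
  have v1 : (1 : ZMod (12 * H)).val = 1 := by
    have := ZMod.val_natCast (12 * H) 1
    rwa [Nat.cast_one, Nat.mod_eq_of_lt (by omega)] at this
  have n1 : ∀ s : St (12 * H), ¬ 3 ∣ (s.f + 1 - s.f).val := by
    intro s; rw [add_sub_cancel_left, v1]; omega
  have A : ∀ a ≤ k, ∀ s s', E s s' → ∀ c : ℤ,
      s.f - s'.f = ((6 * 2 ^ a * (2 * c + 1) : ℤ) : ZMod (12 * H)) → False := by
    intro a
    induction a with
    | zero =>
      intro _ s s' h c hf
      have h1 := hmv _ _ h _ (n1 s)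
      obtain ⟨d, hd⟩ := val_eq (j := s.f + 1 - s'.f) (a := 1 + 6 * 2 ^ 0 * (2 * c + 1)) (by
        rw [Int.cast_add, ← hf]; push_cast; ring)
      rw [St.mv_a (n1 s) (hc _ _ h).1, St.mv_a (mt (hcol _ _ h _).2 (n1 s)) (hc _ _ h).2] at h1
      have h2 := (hcol _ _ h1 _).1 (by rw [sub_self]; simp)
      simp only [add_sub_cancel_left, v1] at h2
      obtain ⟨d', hd'⟩ := val_eq (j := s.f + 1 - ((io2 H (s.ω 0) 1 : ℕ) : ZMod (12 * H)) -
        (s.f + 1 - ((io2 H (s'.ω 0) (s.f + 1 - s'.f).val : ℕ) : ZMod (12 * H))))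
        (a := ((io2 H (s'.ω 0) (s.f + 1 - s'.f).val : ℕ) : ℤ) - ((io2 H (s.ω 0) 1 : ℕ) : ℤ)) (by
          push_cast; ring)
      have e1 : 12 * (H : ℤ) * d = 12 * (H * d) := by ring
      have e2 : 12 * (H : ℤ) * d' = 12 * (H * d') := by ring
      rw [e1] at hd
      rw [e2] at hd'
      generalize (H : ℤ) * d = x at hd
      generalize (H : ℤ) * d' = y at hd'
      have e3 : io2 H (s.ω 0) 1 % 3 = 2 := by unfold io2; split_ifs <;> omega
      have e4 : io2 H (s'.ω 0) (s.f + 1 - s'.f).val % 3 = 1 := by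
        unfold io2; split_ifs <;> omega
      omega
    | succ a ih =>
      intro ha s s' h c hf
      have h1 := hmv _ _ h _ (n1 s)
      obtain ⟨d, hd⟩ := val_eq (j := s.f + 1 - s'.f) (a := 1 + 6 * 2 ^ (a + 1) * (2 * c + 1)) (by
        rw [Int.cast_add, ← hf]; push_cast; ring)
      rw [St.mv_a (n1 s) (hc _ _ h).1, St.mv_a (mt (hcol _ _ h _).2 (n1 s)) (hc _ _ h).2] at h1
      obtain ⟨H', hH'⟩ : 2 ^ (a + 1) ∣ H := by rw [hH]; exact pow_dvd_pow 2 ha
      have hH'' : (H : ℤ) = 2 ^ (a + 1) * H' := by exact_mod_cast hH'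
      have e : ((s.f + 1 - s'.f).val : ℤ) = 1 + 12 * (2 ^ a * (2 * (c + H' * d) + 1)) := by
        rw [hd, hH'']; ring
      have e5 : ∃ δ : ℤ, (io2 H (s'.ω 0) (s.f + 1 - s'.f).val : ℤ) = io2 H (s.ω 0) 1 +
          6 * (2 ^ a * (2 * (c + H' * d) + 1)) + 6 * H * δ := by
        generalize 2 ^ a * (2 * (c + H' * d) + 1) = x at e
        have : (io2 H (s'.ω 0) (s.f + 1 - s'.f).val : ℤ) = io2 H (s.ω 0) 1 + 6 * x ∨
            (io2 H (s'.ω 0) (s.f + 1 - s'.f).val : ℤ) = io2 H (s.ω 0) 1 + 6 * x + 6 * H ∨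
            (io2 H (s'.ω 0) (s.f + 1 - s'.f).val : ℤ) = io2 H (s.ω 0) 1 + 6 * x - 6 * H := by
          unfold io2; split_ifs <;> omega
        rcases this with h | h | h
        · exact ⟨0, by linarith⟩
        · exact ⟨1, by linarith⟩
        · exact ⟨-1, by linarith⟩
      obtain ⟨δ, hδ⟩ := e5
      apply ih (by omega) _ _ h1 (c + H' * d + H' * δ)
      simp only [add_sub_cancel_left, v1]
      rw [hH''] at hδ
      have h5 := congrArg (fun z : ℤ => (z : ZMod (12 * H))) hδ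
      push_cast at h5 ⊢
      linear_combination h5
  have Bz : ∀ s s', E s s' → s.f = s'.f → s.ω 0 = s'.ω 0 := by
    intro s s' h hf
    have h1 := hmv _ _ h _ (n1 s)
    rw [St.mv_a (n1 s) (hc _ _ h).1, St.mv_a (mt (hcol _ _ h _).2 (n1 s)) (hc _ _ h).2, ← hf] at h1
    by_contra hne
    have h6 : ((H : ℕ) : ZMod (12 * H)) = 2 ^ k := by
      have := congrArg (Nat.cast : ℕ → ZMod (12 * H)) hH
      push_cast at this; exact this
    rcases h2 : s.ω 0 with _ | _ <;> rcases h3 : s'.ω 0 with _ | _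
    · exact hne (h2.trans h3.symm)
    · apply A k le_rfl _ _ h1 0
      simp only [add_sub_cancel_left, v1, h2, h3, io2]
      push_cast; simp [h6]
    · apply A k le_rfl _ _ h1 (-1)
      simp only [add_sub_cancel_left, v1, h2, h3, io2]
      push_cast; simp [h6]
    · exact hne (h2.trans h3.symm)
  intro s s' h hf
  funext i
  induction i generalizing s s' with
  | zero => exact Bz s s' h hf
  | succ i ih =>
    have h0 := Bz s s' h hf
    have h1 := hmv _ _ h _ (n1 s)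
    rw [St.mv_a (n1 s) (hc _ _ h).1, St.mv_a (mt (hcol _ _ h _).2 (n1 s)) (hc _ _ h).2, ← hf] at h1
    have := ih _ _ h1 (by simp only [h0])
    simpa [add_sub_cancel_left, v1, io1] using this

end

end Pool.Agent.Lib.MP_6d95fe_co.Hn
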