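import Pool.Agent.Lib.MP_6d95fe_co.Hn.Count
import Pool.Agent.Lib.MP_6d95fe_co.Hn.Reg

/-!
A chamber bounded by disjoint labelled walls, its tree of mirror images, and the point sets
selected by the shift register.
-/

set_option linter.unusedSectionVars false

namespace Pool.Agent.Lib.MP_6d95fe_co.Hn

def SymP {n p : ℕ} (S : Set (V n)) (ℓ : V n → ZMod p) (X0 : Set (V n))
    (h : V n ≃ₗ[ℝ] V n) (j : ZMod p) : Prop :=
  IsLor h ∧ (∀ s, s ∈ S ↔ h s ∈ S) ∧ (∀ s ∈ S, ℓ (h s) = ℓ s + j) ∧ ∀ x, x ∈ X0 ↔ h x ∈ X0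

theorem SymP.inv {n p : ℕ} {S : Set (V n)} {ℓ : V n → ZMod p} {X0 : Set (V n)}
    {h : V n ≃ₗ[ℝ] V n} {j : ZMod p} (H : SymP S ℓ X0 h j) : SymP S ℓ X0 h⁻¹ (-j) := by
  obtain ⟨h1, h2, h3, h4⟩ := H
  refine ⟨h1.inv, fun s => by rw [h2 (h⁻¹ s), self_apply_inv], fun s hs => ?_,
    fun x => by rw [h4 (h⁻¹ x), self_apply_inv]⟩
  have := h3 (h⁻¹ s) (by rw [h2, self_apply_inv]; exact hs)
  rw [self_apply_inv] at this
  rw [this]; ring

structure D2 (n p : ℕ) where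
  S : Set (V n)
  ℓ : V n → ZMod p
  X0 : Set (V n)
  unit : ∀ s ∈ S, B s s = 1
  far : ∀ s ∈ S, ∀ t ∈ S, s ≠ t → B s t ≤ -2
  o_mem : oV n ∈ X0
  hyp : ∀ x ∈ X0, Hyp x
  ins : ∀ x ∈ X0, ∀ s ∈ S, B x s < 0
  labels : ∀ j, ∃ s ∈ S, ℓ s = j
  finX : ∀ C, {x | x ∈ X0 ∧ -B x (oV n) ≤ C}.Finite
  finS : ∀ C, {s | s ∈ S ∧ -B (oV n) s ≤ C}.Finite
  cocpt : ∃ R, ∀ y, Hyp y → (∀ s ∈ S, B y s ≤ 0) → ∃ x ∈ X0, -B x y ≤ R
  sym : ∀ x ∈ X0, ∀ x' ∈ X0, ∀ j, ∃ h, SymP S ℓ X0 h j ∧ h x = x'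

namespace D2

variable {n H : ℕ} [NeZero (12 * H)] (D : D2 n (12 * H))

noncomputable def wφ : List D.S → (V n ≃ₗ[ℝ] V n)
  | [] => 1
  | s :: w => refl s.1 * wφ w

def wst (w : List D.S) (st : St (12 * H)) : St (12 * H) :=
  w.foldl (fun st s => st.mv (D.ℓ s.1)) st

theorem wφ_nil : D.wφ [] = 1 := rfl
theorem wφ_cons (s : D.S) (w : List D.S) : D.wφ (s :: w) = refl s.1 * D.wφ w := rfl
theorem wst_nil (st : St (12 * H)) : D.wst [] st = st := rfl
theorem wst_cons (s : D.S) (w : List D.S) (st : St (12 * H)) :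
    D.wst (s :: w) st = D.wst w (st.mv (D.ℓ s.1)) := rfl

theorem wφ_append (u w : List D.S) : D.wφ (u ++ w) = D.wφ u * D.wφ w := by
  induction u with
  | nil => simp [wφ_nil]
  | cons s u ih => rw [List.cons_append, wφ_cons, wφ_cons, ih, mul_assoc]

theorem wst_append (u w : List D.S) (st : St (12 * H)) :
    D.wst (u ++ w) st = D.wst w (D.wst u st) := List.foldl_append

theorem wφ_lor (w : List D.S) : IsLor (D.wφ w) := by
  induction w with
  | nil => exact IsLor.one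
  | cons s w ih => exact (refl_lor (by rw [D.unit _ s.2]; norm_num)).mul ih

theorem wφ_rev (w : List D.S) : D.wφ w.reverse * D.wφ w = 1 := by
  induction w with
  | nil => simp [wφ_nil]
  | cons s w ih =>
    rw [List.reverse_cons, wφ_append, wφ_cons, wφ_cons, wφ_nil, mul_one, mul_assoc,
      ← mul_assoc (refl s.1), refl_mul_self, one_mul, ih]

theorem wφ_rev' (w : List D.S) : D.wφ w * D.wφ w.reverse = 1 := by
  have := D.wφ_rev w.reverse
  rwa [List.reverse_reverse] at this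

theorem wst_rev (w : List D.S) (st : St (12 * H)) : D.wst w.reverse (D.wst w st) = st := by
  induction w generalizing st with
  | nil => rfl
  | cons s w ih => rw [List.reverse_cons, wst_append, wst_cons, wst_cons, wst_nil, ih, St.mv_mv]

theorem B_wφ (u : List D.S) (y z : V n) : B y (D.wφ u z) = B (D.wφ u.reverse y) z := by
  rw [← (D.wφ_lor u.reverse).1, ← LinearEquiv.mul_apply, wφ_rev]; rfl

theorem reduce (w : List D.S) : ∃ w' : List D.S, w'.IsChain (· ≠ ·) ∧ w'.length ≤ w.length ∧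
    D.wφ w' = D.wφ w ∧ ∀ st, D.wst w' st = D.wst w st := by
  induction w with
  | nil => exact ⟨[], List.isChain_nil, le_rfl, rfl, fun _ => rfl⟩
  | cons s w ih =>
    obtain ⟨u, h1, h2, h3, h4⟩ := ih
    cases u with
    | nil =>
      exact ⟨[s], List.isChain_singleton s, by simp, by rw [wφ_cons, wφ_cons, h3],
        fun st => by rw [wst_cons, wst_cons, h4]⟩
    | cons t u =>
      by_cases hst : s = t
      · subst hst
        refine ⟨u, h1.tail, by simp at h2 ⊢; omega, ?_, fun st => ?_⟩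
        · rw [wφ_cons, ← h3, wφ_cons, ← mul_assoc, refl_mul_self, one_mul]
        · rw [wst_cons, ← h4, wst_cons, St.mv_mv]
      · exact ⟨s :: t :: u, List.isChain_cons_cons.2 ⟨hst, h1⟩, by simp at h2 ⊢; omega,
          by rw [wφ_cons, D.wφ_cons s w, h3], fun st => by rw [wst_cons, D.wst_cons s w, h4]⟩

def Ω0 (y : V n) : Prop := Hyp y ∧ ∀ s ∈ D.S, B y s ≤ 0

theorem far1 {s t : D.S} (h : s ≠ t) {x : V n} (hx : Hyp x) : B x s.1 + B x t.1 ≤ -1 :=
  far_sum (D.unit _ s.2) (D.unit _ t.2) (D.far _ s.2 _ t.2 fun h' => h (Subtype.ext h')) Hyp_oV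
    (D.ins _ D.o_mem _ s.2) (D.ins _ D.o_mem _ t.2) hx

theorem nested {y : V n} (hy : D.Ω0 y) (w : List D.S) : ∀ s : D.S, (s :: w).IsChain (· ≠ ·) →
    (w.length : ℝ) ≤ B (D.wφ (s :: w) y) s.1 := by
  induction w with
  | nil =>
    intro s _
    simp only [wφ_cons, wφ_nil, mul_one, B_refl_self (D.unit _ s.2), List.length_nil]
    have := hy.2 _ s.2
    push_cast; linarith
  | cons t w ih =>
    intro s h
    rw [List.isChain_cons_cons] at h
    have h1 := ih t h.2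
    have h2 := D.far1 h.1 ((D.wφ_lor (t :: w)).2 _ hy.1)
    rw [wφ_cons, LinearEquiv.mul_apply, B_refl_self (D.unit _ s.2), List.length_cons]
    push_cast; linarith

theorem X0_Ω0 {x : V n} (hx : x ∈ D.X0) : D.Ω0 x := ⟨D.hyp x hx, fun s hs => (D.ins x hx s hs).le⟩

theorem uniq {w : List D.S} {x x' : V n} (hx : x ∈ D.X0) (hx' : x' ∈ D.X0)
    (h : D.wφ w x' = x) : D.wφ w = 1 ∧ ∀ st, D.wst w st = st := by
  obtain ⟨u, h1, -, h3, h4⟩ := D.reduce w
  cases u with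
  | nil => exact ⟨h3.symm, fun st => (h4 st).symm⟩
  | cons s u =>
    have h5 := D.nested (D.X0_Ω0 hx') u s h1
    rw [h3, h] at h5
    have := D.ins x hx _ s.2
    have : (0 : ℝ) ≤ u.length := Nat.cast_nonneg _
    linarith

theorem cover_aux (m : ℕ) : ∀ y, Hyp y → (∀ s ∈ D.S, B y s ≤ m) →
    ∃ w y₀, D.Ω0 y₀ ∧ y = D.wφ w y₀ := by
  induction m with
  | zero => intro y hy h; exact ⟨[], y, ⟨hy, by simpa using h⟩, rfl⟩
  | succ m ih =>
    intro y hy h
    by_cases h1 : ∀ s ∈ D.S, B y s ≤ 0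
    · exact ⟨[], y, ⟨hy, h1⟩, rfl⟩
    push Not at h1
    obtain ⟨s, hs, h1⟩ := h1
    have hy' := (refl_lor (s := s) (by rw [D.unit _ hs]; norm_num)).2 y hy
    obtain ⟨w, y₀, h2, h3⟩ := ih (refl s y) hy' (by
      intro t ht
      have e := B_refl_self (D.unit _ hs) y
      have : (0 : ℝ) ≤ m := Nat.cast_nonneg _
      by_cases hst : s = t
      · subst hst; linarith
      · have h4 := D.far1 (s := ⟨s, hs⟩) (t := ⟨t, ht⟩) (fun h => hst (congrArg Subtype.val h)) hy'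
        have h5 := h s hs
        push_cast at h5
        simp only at h4
        linarith)
    exact ⟨⟨s, hs⟩ :: w, y₀, h2, by rw [wφ_cons, LinearEquiv.mul_apply, ← h3, refl_refl]⟩

theorem cover {y : V n} (hy : Hyp y) : ∃ w y₀, D.Ω0 y₀ ∧ y = D.wφ w y₀ := by
  obtain ⟨m, hm⟩ := exists_nat_ge (-B (oV n) y)
  apply D.cover_aux m y hy
  intro s hs
  by_cases h : B y s ≤ 0
  · exact h.trans (Nat.cast_nonneg _)
  · exact (sep_bound (D.unit _ hs) Hyp_oV hy (D.ins _ D.o_mem _ hs).le (by linarith)).2.trans hm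

def Xhat : Set (V n) := {x | ∃ w, ∃ x₀ ∈ D.X0, x = D.wφ w x₀}

theorem Xhat_aux (L : ℕ) : ∀ C, {x | (∃ w : List D.S, w.IsChain (· ≠ ·) ∧ w.length ≤ L ∧
    ∃ x₀ ∈ D.X0, x = D.wφ w x₀) ∧ -B x (oV n) ≤ C}.Finite := by
  induction L with
  | zero =>
    intro C
    apply (D.finX C).subset
    rintro _ ⟨⟨w, -, h, x₀, hx₀, rfl⟩, h'⟩
    rw [Nat.le_zero, List.length_eq_zero_iff] at h
    subst h
    exact ⟨hx₀, h'⟩
  | succ L ih =>
    intro C
    apply ((D.finX C).union ((D.finS C).biUnion fun s _ => (ih C).image (refl s))).subset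
    rintro _ ⟨⟨w, h1, h, x₀, hx₀, rfl⟩, h'⟩
    cases w with
    | nil => exact Or.inl ⟨hx₀, h'⟩
    | cons s w =>
      right
      have h2 := D.nested (D.X0_Ω0 hx₀) w s h1
      have h3 : (0 : ℝ) ≤ w.length := Nat.cast_nonneg _
      have h4 := D.ins _ D.o_mem _ s.2
      have h5 := (sep_bound (D.unit _ s.2) Hyp_oV ((D.wφ_lor (s :: w)).2 _ (D.hyp _ hx₀)) h4.le
        (by linarith)).1
      rw [B_comm (oV n) (D.wφ _ _)] at h5
      refine Set.mem_iUnion₂.2 ⟨s.1, ⟨s.2, by linarith⟩, D.wφ w x₀,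
        ⟨⟨w, h1.tail, by simpa using h, x₀, hx₀, rfl⟩, ?_⟩, rfl⟩
      rw [wφ_cons, LinearEquiv.mul_apply] at h' h2
      rw [B_refl_self (D.unit _ s.2)] at h2
      rw [B_comm, B_refl (D.unit _ s.2), B_comm (oV n) (D.wφ w x₀)] at h'
      nlinarith

theorem Xhat_fin (C : ℝ) : {x | x ∈ D.Xhat ∧ -B x (oV n) ≤ C}.Finite := by
  obtain ⟨m, hm⟩ := exists_nat_ge C
  apply (D.Xhat_aux (m + 1) C).subset
  rintro _ ⟨⟨w, x₀, hx₀, rfl⟩, h⟩
  obtain ⟨u, h1, -, h3, -⟩ := D.reduce w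
  refine ⟨⟨u, h1, ?_, x₀, hx₀, by rw [h3]⟩, h⟩
  cases u with
  | nil => simp
  | cons s u =>
    have h2 := D.nested (D.X0_Ω0 hx₀) u s h1
    have h4 : (0 : ℝ) ≤ u.length := Nat.cast_nonneg _
    have h5 := (sep_bound (D.unit _ s.2) Hyp_oV ((D.wφ_lor (s :: u)).2 _ (D.hyp _ hx₀))
      (D.ins _ D.o_mem _ s.2).le (by linarith)).2
    rw [B_comm (oV n), h3] at h5
    rw [h3] at h2
    have : (u.length : ℝ) ≤ m := by linarith
    simp only [List.length_cons]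
    exact Nat.succ_le_succ (by exact_mod_cast this)

theorem Xhat_countable : D.Xhat.Countable := by
  have : D.Xhat = ⋃ C : ℕ, {x | x ∈ D.Xhat ∧ -B x (oV n) ≤ C} := by
    ext x
    simp only [Set.mem_iUnion, Set.mem_ofPred_eq]
    exact ⟨fun h => (exists_nat_ge (-B x (oV n))).imp fun _ h' => ⟨h, h'⟩, fun ⟨_, h⟩ => h.1⟩
  rw [this]
  exact Set.countable_iUnion fun C => (D.Xhat_fin C).countable

def Pts (φ : V n ≃ₗ[ℝ] V n) (st : St (12 * H)) : Set (V n) :=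
  {x | ∃ w, (D.wst w st).cen = true ∧ ∃ x₀ ∈ D.X0, x = φ (D.wφ w x₀)}

theorem Pts_act (φ : V n ≃ₗ[ℝ] V n) (st : St (12 * H)) (u : List D.S) :
    D.Pts (φ * D.wφ u) (D.wst u st) = D.Pts φ st := by
  ext x
  constructor
  · rintro ⟨w, h1, x₀, h2, rfl⟩
    exact ⟨u ++ w, by rwa [wst_append], x₀, h2, by rw [wφ_append]; rfl⟩
  · rintro ⟨w, h1, x₀, h2, rfl⟩
    refine ⟨u.reverse ++ w, by rwa [wst_append, wst_rev], x₀, h2, ?_⟩
    rw [wφ_append, ← LinearEquiv.mul_apply (φ * _), mul_assoc, ← mul_assoc (D.wφ u), wφ_rev',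
      one_mul]; rfl

theorem Pts_sub (st : St (12 * H)) : D.Pts 1 st ⊆ D.Xhat := by
  rintro _ ⟨w, -, x₀, h, rfl⟩; exact ⟨w, x₀, h, rfl⟩

theorem exists_del : ∃ R, ∀ st, Del (D.Pts 1 st) R := by
  obtain ⟨R, hR⟩ := D.cocpt
  choose sj hsj hsj' using D.labels
  obtain ⟨M, hM⟩ := (Set.finite_range fun j => -B (oV n) (sj j)).bddAbove
  have hM' : ∀ j, -B (oV n) (sj j) ≤ M := fun j => hM ⟨j, rfl⟩
  have hhyp : ∀ x ∈ D.Xhat, Hyp x := by
    rintro _ ⟨w, x₀, h, rfl⟩; exact (D.wφ_lor w).2 _ (D.hyp _ h)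
  refine ⟨2 * (1 + 2 * M ^ 2) * R, fun st => ⟨fun x hx => hhyp x (D.Pts_sub st hx),
    fun y C hy => ?_, fun y hy => ?_⟩⟩
  · apply (D.Xhat_fin (2 * C * (-B y (oV n)))).subset
    rintro x ⟨hx, h⟩
    have h1 := hhyp x (D.Pts_sub st hx)
    refine ⟨D.Pts_sub st hx, (B_tri h1 hy Hyp_oV).trans ?_⟩
    have := hy.B_le Hyp_oV
    nlinarith
  · obtain ⟨w, y₀, h1, rfl⟩ := D.cover hy
    obtain ⟨x₀, hx₀, h2⟩ := hR y₀ h1.1 h1.2
    have h3 := (D.hyp _ hx₀).B_le h1.1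
    rcases hc : (D.wst w st).cen with _ | _
    · obtain ⟨h, ⟨a1, a2, a3, -⟩, a5⟩ := D.sym _ D.o_mem _ hx₀ 0
      set j := (D.wst w st).f
      have hs := (a2 _).1 (hsj j)
      refine ⟨D.wφ w (refl (h (sj j)) x₀), ⟨w ++ [⟨_, hs⟩], ?_, x₀, hx₀, ?_⟩, ?_⟩
      · rw [wst_append, wst_cons, wst_nil]
        simp only [a3 _ (hsj j), hsj', add_zero]
        exact St.mv_self_cen hc
      · rw [wφ_append, wφ_cons, wφ_nil, mul_one]; rfl
      · rw [(D.wφ_lor w).1]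
        have h4 := (refl_lor (s := h (sj j)) (by rw [D.unit _ hs]; norm_num)).2 _ (D.hyp _ hx₀)
        have h5 := B_tri h4 (D.hyp _ hx₀) h1.1
        have h6 : B x₀ (h (sj j)) = B (oV n) (sj j) := by rw [← a5, a1.1]
        rw [B_comm _ x₀, B_refl (D.unit _ hs), (D.hyp _ hx₀).1, h6] at h5
        have h7 := hM' j
        have h8 := D.ins _ D.o_mem _ (hsj j)
        have h9 : B (oV n) (sj j) * B (oV n) (sj j) ≤ M ^ 2 := by nlinarith
        have h10 : (1 + 2 * (B (oV n) (sj j) * B (oV n) (sj j))) * (-B x₀ y₀)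
            ≤ (1 + 2 * M ^ 2) * R :=
          mul_le_mul (by linarith) h2 (by linarith) (by positivity)
        linarith
    · refine ⟨D.wφ w x₀, ⟨w, hc, x₀, hx₀, rfl⟩, ?_⟩
      rw [(D.wφ_lor w).1]
      nlinarith [sq_nonneg M]

theorem loc {φ : V n ≃ₗ[ℝ] V n} (hφ : IsLor φ) {st : St (12 * H)} {y₀ x : V n} (hy : D.Ω0 y₀)
    (hx : x ∈ D.Pts φ st) (hn : ∀ x' ∈ D.Pts φ st, B (φ y₀) x' ≤ B (φ y₀) x) :
    ∃ w : List D.S, w.length ≤ 2 ∧ (D.wst w st).cen = true ∧ ∃ x₀ ∈ D.X0, x = φ (D.wφ w x₀) := by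
  obtain ⟨w₀, h1, x₀, hx₀, rfl⟩ := hx
  obtain ⟨w, hc, -, h3, h4⟩ := D.reduce w₀
  rw [← h4] at h1
  rw [← h3] at hn ⊢
  by_contra hcon
  have hlen : 3 ≤ w.length := by
    by_contra h
    exact hcon ⟨w, by omega, h1, x₀, hx₀, rfl⟩
  obtain ⟨v, rfl⟩ : ∃ v : List D.S, w = v.reverse := ⟨w.reverse, by simp⟩
  rw [List.isChain_reverse] at hc
  match v, hlen with
  | t :: s :: r :: u, _ =>
    rw [List.isChain_cons_cons, List.isChain_cons_cons] at hc
    obtain ⟨hts, hsr, hc⟩ := hc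
    have hc' : (r :: u).IsChain (· ≠ ·) := hc.imp fun _ _ h => Ne.symm h
    set y₁ := D.wφ (r :: u) y₀ with hy₁
    have hy1 : Hyp y₁ := (D.wφ_lor _).2 _ hy.1
    have b1 : 0 ≤ B y₁ r.1 := (Nat.cast_nonneg _).trans (D.nested hy u r hc')
    have b2 : B y₁ s.1 ≤ -1 := by linarith [D.far1 (s := r) (t := s) hsr hy1]
    have us := D.unit _ s.2
    have ut := D.unit _ t.2
    have ls := refl_lor (s := s.1) (by rw [us]; norm_num)
    have lt := refl_lor (s := t.1) (by rw [ut]; norm_num)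
    have b3 : B (refl s.1 y₁) t.1 ≤ -2 := by
      have := D.far1 (s := s) (t := t) hts (ls.2 _ hy1)
      rw [B_refl_self us] at this; linarith
    have i1 := D.ins _ hx₀ _ s.2
    have i2 := D.ins _ hx₀ _ t.2
    have b4 : B (refl t.1 x₀) s.1 < 0 := by
      have := D.far1 (s := s) (t := t) hts (lt.2 _ (D.hyp _ hx₀))
      rw [B_refl_self ut] at this; linarith
    have key : ∀ v : List D.S, (D.wst ((r :: u).reverse ++ v) st).cen = true →
        B y₁ (D.wφ v x₀) ≤ B y₁ (refl s.1 (refl t.1 x₀)) := by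
      intro v hv
      have := hn _ ⟨_, hv, x₀, hx₀, rfl⟩
      rw [hφ.1, hφ.1, show (t :: s :: r :: u).reverse = (r :: u).reverse ++ [s, t] by simp,
        wφ_append, wφ_append, LinearEquiv.mul_apply, LinearEquiv.mul_apply,
        D.B_wφ (r :: u).reverse, D.B_wφ (r :: u).reverse, List.reverse_reverse] at this
      exact this
    have e1 : B y₁ (refl s.1 (refl t.1 x₀)) < B y₁ (refl s.1 x₀) := by
      rw [← refl_B s.1, refl_refl, ← refl_B s.1 y₁, refl_refl, B_refl ut]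
      nlinarith
    have e2 : B y₁ (refl s.1 x₀) < B y₁ x₀ := by rw [B_refl us]; nlinarith
    have e3 : B y₁ (refl s.1 (refl t.1 x₀)) < B y₁ (refl t.1 x₀) := by
      rw [B_refl us]; nlinarith
    rw [show (t :: s :: r :: u).reverse = (r :: u).reverse ++ [s, t] by simp, wst_append] at h1
    rcases c2 : (D.wst ((r :: u).reverse ++ [s]) st).cen with _ | _
    · rcases c1 : (D.wst ((r :: u).reverse ++ []) st).cen with _ | _
      · rw [List.append_nil] at c1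
        rw [wst_append, wst_cons, wst_nil] at c2
        rw [wst_cons, St.mv_sat c1 c2] at h1
        have := key [t] (by rw [wst_append]; exact h1)
        rw [wφ_cons, wφ_nil, mul_one] at this
        linarith
      · have := key [] c1
        rw [wφ_nil] at this
        simp only [LinearEquiv.coe_one, id_eq] at this
        linarith
    · have := key [s] c2
      rw [wφ_cons, wφ_nil, mul_one] at this
      linarith

end D2

end Pool.Agent.Lib.MP_6d95fe_co.Hn
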