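import Pool.Agent.Lib.MP_6d95fe_co.Hn.Lor

/-!
Voronoi tilings of Delone sets in hyperbolic space.
-/

namespace Pool.Agent.Lib.MP_6d95fe_co.Hn

variable {n : ℕ}

structure Del (X : Set (V n)) (R : ℝ) : Prop where
  hyp : ∀ x ∈ X, Hyp x
  fin : ∀ y C, Hyp y → {x | x ∈ X ∧ -B x y ≤ C}.Finite
  dense : ∀ y, Hyp y → ∃ x ∈ X, -B x y ≤ R

def cell (X : Set (V n)) (x : V n) : Set (HypSpace n) := {z | ∀ x' ∈ X, B z.1 x' ≤ B z.1 x}

def vor (X : Set (V n)) : Set (Set (HypSpace n)) := cell X '' X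

theorem isClosed_cell (X : Set (V n)) (x : V n) : IsClosed (cell X x) := by
  have : cell X x = ⋂ x' ∈ X, {z | B z.1 x' ≤ B z.1 x} := by ext z; simp [cell]
  rw [this]
  exact isClosed_biInter fun _ _ => isClosed_le (continuous_B_sub _) (continuous_B_sub _)

instance : PreconnectedSpace (HypSpace n) := by
  let f : (Fin n → ℝ) → HypSpace n := fun y =>
    ⟨Fin.cons (√(1 + ∑ i, y i * y i)) y, by
      have h : 0 ≤ ∑ i, y i * y i := Finset.sum_nonneg fun _ _ => mul_self_nonneg _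
      constructor
      · simp only [lorentz, Fin.cons_zero, Fin.cons_succ]
        rw [Real.mul_self_sqrt (by linarith)]; ring
      · simp only [Fin.cons_zero]; exact Real.sqrt_pos.2 (by linarith)⟩
  have hf : Continuous f := by
    apply Continuous.subtype_mk
    apply continuous_pi
    intro i
    refine Fin.cases ?_ (fun i => ?_) i
    · simp only [Fin.cons_zero]; fun_prop
    · simp only [Fin.cons_succ]; fun_prop
  have hs : Function.Surjective f := by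
    intro x
    refine ⟨fun i => x.1 i.succ, Subtype.ext ?_⟩
    funext i
    refine Fin.cases ?_ (fun i => ?_) i
    · simp only [f, Fin.cons_zero]
      have h := x.2.1
      unfold lorentz at h
      rw [show 1 + ∑ i : Fin n, x.1 i.succ * x.1 i.succ = x.1 0 * x.1 0 by linarith,
        Real.sqrt_mul_self x.2.2.le]
    · simp only [f, Fin.cons_succ]
  constructor
  rw [← hs.range_eq]
  exact isPreconnected_range hf

namespace Del

variable {X : Set (V n)} {R : ℝ} (D : Del X R)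
include D

theorem one_le : 1 ≤ R := by
  obtain ⟨x, hx, h⟩ := D.dense _ Hyp_oV
  linarith [(D.hyp x hx).B_le Hyp_oV]

theorem exists_nearest {y : V n} (hy : Hyp y) : ∃ x ∈ X, ∀ x' ∈ X, B y x' ≤ B y x := by
  obtain ⟨x₀, hx₀, h₀⟩ := D.dense y hy
  obtain ⟨x, ⟨hx, hx'⟩, h⟩ := Set.exists_max_image _ (fun x => B y x) (D.fin y R hy)
    ⟨x₀, hx₀, h₀⟩
  refine ⟨x, hx, fun x' h' => ?_⟩
  by_cases h1 : -B x' y ≤ R
  · exact h x' ⟨h', h1⟩
  · rw [B_comm y x', B_comm y x]; linarith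

theorem cell_bound {x : V n} {z : HypSpace n} (hz : z ∈ cell X x) : -B z.1 x ≤ R := by
  obtain ⟨x', hx', h⟩ := D.dense z.1 z.2
  have := hz x' hx'
  rw [B_comm] at h; linarith

theorem self_mem {x : V n} (hx : x ∈ X) : (⟨x, D.hyp x hx⟩ : HypSpace n) ∈ cell X x := by
  intro x' hx'
  show B x x' ≤ B x x
  rw [(D.hyp x hx).1]; exact (D.hyp x hx).B_le (D.hyp x' hx')

theorem isCompact_cell {x : V n} (hx : x ∈ X) : IsCompact (cell X x) :=
  (isCompact_ball ⟨x, D.hyp x hx⟩ R).of_isClosed_subset (isClosed_cell X x)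
    fun _ hz => D.cell_bound hz

theorem cell_eq_finite {x : V n} (hx : x ∈ X) :
    cell X x = cell {x' | x' ∈ X ∧ -B x' x ≤ 2 * R * (R + 1)} x := by
  have hR := D.one_le
  have hx1 := D.hyp x hx
  have step : ∀ z : HypSpace n, z ∈ cell {x' | x' ∈ X ∧ -B x' x ≤ 2 * R * (R + 1)} x →
      -B z.1 x ≤ R + 1 → z ∈ cell X x := by
    intro z hz h
    obtain ⟨x₁, hx₁, h₁⟩ := D.exists_nearest (y := z.1) z.2
    have h2 : -B z.1 x₁ ≤ R := D.cell_bound (x := x₁) (z := z) h₁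
    have h3 := B_tri (D.hyp _ hx₁) (y := z.1) z.2 hx1
    have h4 := Hyp.B_le (x := z.1) z.2 (D.hyp _ hx₁)
    have h5 := Hyp.B_le (x := z.1) z.2 hx1
    rw [B_comm x₁ z.1] at h3
    have h6 : -B z.1 x₁ * -B z.1 x ≤ R * (R + 1) :=
      mul_le_mul h2 h (by linarith) (by linarith)
    intro x' hx'
    exact (h₁ x' hx').trans (hz x₁ ⟨hx₁, by linarith⟩)
  apply Set.Subset.antisymm
  · exact fun z hz x' hx' => hz x' hx'.1
  intro z hz
  by_cases h : -B z.1 x ≤ R + 1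
  · exact step z hz h
  exfalso
  push Not at h
  set c := -B z.1 x with hc
  set ρ := R + 1 with hρ
  have hc1 : 0 < c ^ 2 - 1 := by nlinarith
  set τ := √((ρ ^ 2 - 1) / (c ^ 2 - 1)) with hτ
  have hτ0 : 0 ≤ τ := Real.sqrt_nonneg _
  have hτ2 : τ ^ 2 * (c ^ 2 - 1) = ρ ^ 2 - 1 := by
    rw [hτ, Real.sq_sqrt (div_nonneg (by nlinarith) hc1.le)]; field_simp
  have hτc : τ * c ≤ ρ := by
    apply le_of_pow_le_pow_left₀ two_ne_zero (by linarith)
    have : (τ * c) ^ 2 * (c ^ 2 - 1) ≤ ρ ^ 2 * (c ^ 2 - 1) := by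
      have e : (τ * c) ^ 2 * (c ^ 2 - 1) = (ρ ^ 2 - 1) * c ^ 2 := by rw [← hτ2]; ring
      rw [e]; nlinarith
    exact le_of_mul_le_mul_right this hc1
  have hz1 : B z.1 z.1 = -1 := z.2.1
  have hzx : B z.1 x = -c := by rw [hc]; ring
  have e1 : B ((ρ - τ * c) • x + τ • z.1) x = -ρ := by
    simp only [B_add_left, B_smul_left, hx1.1, hzx]; ring
  have hw : Hyp ((ρ - τ * c) • x + τ • z.1) := by
    apply hyp_of_B _ hx1 (by rw [e1]; linarith)
    simp only [B_add_left, B_add_right, B_smul_left, B_smul_right, hx1.1, hzx, hz1, B_comm x z.1]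
    nlinarith
  have h1 := step ⟨_, hw⟩ (by
    intro x' hx'
    show B (_ + _) x' ≤ B (_ + _) x
    simp only [B_add_left, B_smul_left]
    have a1 := hz x' hx'
    have a2 : B x x' ≤ B x x := by rw [hx1.1]; exact hx1.B_le (D.hyp _ hx'.1)
    nlinarith [mul_le_mul_of_nonneg_left a1 hτ0,
      mul_le_mul_of_nonneg_left a2 (sub_nonneg.2 hτc)]) (by rw [e1]; linarith)
  have h2 := D.cell_bound h1
  rw [e1] at h2
  linarith

theorem isPolytope {x : V n} (hx : x ∈ X) : IsPolytope (cell X x) := by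
  have hx1 := D.hyp x hx
  have hF := D.fin x (2 * R * (R + 1)) hx1
  set F := {x' | x' ∈ X ∧ -B x' x ≤ 2 * R * (R + 1)} with hFdef
  refine ⟨D.isCompact_cell hx, ?_, ?_⟩
  · have ho : IsOpen (⋂ x' ∈ F \ {x}, {z : HypSpace n | B z.1 x' < B z.1 x}) :=
      (hF.subset Set.sdiff_subset).isOpen_biInter fun _ _ =>
        isOpen_lt (continuous_B_sub _) (continuous_B_sub _)
    refine ⟨⟨x, hx1⟩, interior_maximal ?_ ho ?_⟩
    · rw [D.cell_eq_finite hx]
      intro z hz x' hx'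
      by_cases h : x' = x
      · rw [h]
      · exact (Set.mem_iInter₂.1 hz x' ⟨hx', h⟩).le
    · refine Set.mem_iInter₂.2 fun x' hx' => ?_
      show B x x' < B x x
      rw [hx1.1]
      exact lt_of_not_ge fun h => hx'.2 (hx1.eq_of_B (D.hyp _ hx'.1.1) h).symm
  · refine ⟨{a | a.1.1 = x ∧ a.2.1 ∈ F \ {x}}, ?_, ?_, ?_⟩
    · apply Set.Finite.of_finite_image (f := fun a => a.2.1)
      · exact (hF.subset Set.sdiff_subset).subset (by rintro _ ⟨a, ha, rfl⟩; exact ha.2)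
      · intro a ha b hb hab
        exact Prod.ext (Subtype.ext (ha.1.trans hb.1.symm)) (Subtype.ext hab)
    · rintro a ⟨h1, h2⟩ h
      exact h2.2 (by rw [← h, h1]; rfl)
    · rw [D.cell_eq_finite hx]
      ext z
      simp only [cell, Set.mem_ofPred_eq, hdist_le_iff]
      constructor
      · rintro h a ⟨h1, h2⟩; rw [h1]; exact h _ h2.1
      · intro h x' hx'
        by_cases h' : x' = x
        · rw [h']
        · exact h (⟨x, hx1⟩, ⟨x', D.hyp _ hx'.1⟩) ⟨rfl, hx', h'⟩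

theorem countable : X.Countable := by
  have : X = ⋃ C : ℕ, {x | x ∈ X ∧ -B x (oV n) ≤ C} := by
    ext x
    simp only [Set.mem_iUnion, Set.mem_ofPred_eq]
    exact ⟨fun h => (exists_nat_ge (-B x (oV n))).imp fun _ h' => ⟨h, h'⟩, fun ⟨_, h⟩ => h.1⟩
  rw [this]
  exact Set.countable_iUnion fun C => (D.fin _ C Hyp_oV).countable

theorem isTiling : IsTiling (vor X) := by
  refine ⟨D.countable.image _, by rintro _ ⟨x, -, rfl⟩; exact isClosed_cell X x, fun z => ?_, ?_⟩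
  · obtain ⟨x, hx, h⟩ := D.exists_nearest (y := z.1) z.2
    exact ⟨_, ⟨x, hx, rfl⟩, h⟩
  · rintro _ ⟨x, hx, rfl⟩ _ ⟨x', hx', rfl⟩ h
    have hne : x ≠ x' := fun h' => h (by rw [h'])
    have h1 : B x x' < -1 := lt_of_not_ge fun h => hne ((D.hyp _ hx).eq_of_B (D.hyp _ hx') h)
    rw [Set.disjoint_iff_inter_eq_empty, ← interior_inter, ← Set.subset_empty_iff,
      ← interior_hyperplane (ν := x - x') (by
        simp only [B_sub_left, B_sub_right, (D.hyp _ hx).1, (D.hyp _ hx').1, B_comm x' x]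
        linarith)]
    apply interior_mono
    rintro z ⟨h2, h3⟩
    show B z.1 (x - x') = 0
    rw [B_sub_right]; linarith [h2 x' hx', h3 x hx]

theorem isFace {x x' : V n} (hx : x ∈ X) (hx' : x' ∈ X) :
    IsFaceOf (cell X x ∩ cell X x') (cell X x) := by
  by_cases h : x = x'
  · left; rw [← h, Set.inter_self]
  · right
    refine ⟨⟨x, D.hyp _ hx⟩, ⟨x', D.hyp _ hx'⟩, fun h' => h (congrArg Subtype.val h'),
      fun z hz => (hdist_le_iff _ _ _ _).2 (hz x' hx'), ?_⟩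
    ext z
    simp only [Set.mem_inter_iff, Set.mem_ofPred_eq, hdist_eq_iff, and_congr_right_iff]
    intro hz
    exact ⟨fun h' => le_antisymm (hz x' hx') (h' x hx), fun h' y hy => h' ▸ hz y hy⟩

theorem isFaceToFace : IsFaceToFace (vor X) := by
  refine ⟨by rintro _ ⟨x, hx, rfl⟩; exact D.isPolytope hx, ?_⟩
  rintro _ ⟨x, hx, rfl⟩ _ ⟨x', hx', rfl⟩
  exact Or.inr ⟨D.isFace hx hx', by rw [Set.inter_comm]; exact D.isFace hx' hx⟩

theorem finite_nbrs {P : Set (HypSpace n)} (hP : P ∈ vor X) :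
    {Q | Q ∈ vor X ∧ (P ∩ Q).Nonempty}.Finite := by
  obtain ⟨x, hx, rfl⟩ := hP
  apply ((D.fin x (2 * R * R) (D.hyp _ hx)).image (cell X)).subset
  rintro _ ⟨⟨x', hx', rfl⟩, z, h1, h2⟩
  refine ⟨x', ⟨hx', ?_⟩, rfl⟩
  have a1 := D.cell_bound h1
  have a2 := D.cell_bound h2
  have a3 := B_tri (D.hyp _ hx') (y := z.1) z.2 (D.hyp _ hx)
  have a4 := Hyp.B_le (x := z.1) z.2 (D.hyp _ hx')
  have a5 := Hyp.B_le (x := z.1) z.2 (D.hyp _ hx)
  rw [B_comm x' z.1] at a3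
  have : -B z.1 x' * -B z.1 x ≤ R * R := mul_le_mul a2 a1 (by linarith) (by linarith)
  linarith

theorem isClosed_union (Y : Set (V n)) (hY : Y ⊆ X) : IsClosed (⋃ x : Y, cell X x.1) := by
  refine LocallyFinite.isClosed_iUnion ?_ fun x => isClosed_cell X x.1
  intro z
  refine ⟨{w | -B w.1 z.1 < 2}, (isOpen_lt (continuous_B_sub _).neg continuous_const).mem_nhds
    (by show -B z.1 z.1 < 2; rw [B, z.2.1]; norm_num), ?_⟩
  apply Set.Finite.of_finite_image (f := Subtype.val) _ Subtype.val_injective.injOn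
  apply (D.fin z.1 (2 * R * 2) z.2).subset
  rintro _ ⟨x, ⟨w, h1, h2⟩, rfl⟩
  refine ⟨hY x.2, ?_⟩
  have a1 := D.cell_bound h1
  have a2 : -B w.1 z.1 < 2 := h2
  have a3 := B_tri (D.hyp _ (hY x.2)) (y := w.1) w.2 (z := z.1) z.2
  have a4 := Hyp.B_le (x := w.1) w.2 (D.hyp _ (hY x.2))
  have a5 := Hyp.B_le (x := w.1) (y := z.1) w.2 z.2
  rw [B_comm x.1 w.1] at a3
  have : -B w.1 x.1 * -B w.1 z.1 ≤ R * 2 := mul_le_mul a1 a2.le (by linarith) (by linarith)
  linarith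

theorem connect (p : Set (HypSpace n) → Prop) {P₀ : Set (HypSpace n)} (h₀ : P₀ ∈ vor X)
    (hp₀ : p P₀) (hstep : ∀ P ∈ vor X, ∀ Q ∈ vor X, (P ∩ Q).Nonempty → p P → p Q) :
    ∀ Q ∈ vor X, p Q := by
  have c1 := D.isClosed_union {x | x ∈ X ∧ p (cell X x)} fun _ h => h.1
  have c2 := D.isClosed_union {x | x ∈ X ∧ ¬ p (cell X x)} fun _ h => h.1
  by_contra hc
  push Not at hc
  obtain ⟨_, ⟨x₁, hx₁, rfl⟩, h₁⟩ := hc
  obtain ⟨x₀, hx₀, rfl⟩ := h₀
  obtain ⟨z, -, hz1, hz2⟩ := (isPreconnected_closed_iff.1 isPreconnected_univ) _ _ c1 c2 (by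
      intro z _
      obtain ⟨x, hx, h⟩ := D.exists_nearest (y := z.1) z.2
      by_cases hp : p (cell X x)
      · exact Or.inl (Set.mem_iUnion.2 ⟨⟨x, hx, hp⟩, h⟩)
      · exact Or.inr (Set.mem_iUnion.2 ⟨⟨x, hx, hp⟩, h⟩))
    ⟨_, Set.mem_univ _, Set.mem_iUnion.2 ⟨⟨x₀, hx₀, hp₀⟩, D.self_mem hx₀⟩⟩
    ⟨_, Set.mem_univ _, Set.mem_iUnion.2 ⟨⟨x₁, hx₁, h₁⟩, D.self_mem hx₁⟩⟩
  obtain ⟨a, ha⟩ := Set.mem_iUnion.1 hz1
  obtain ⟨b, hb⟩ := Set.mem_iUnion.1 hz2
  exact b.2.2 (hstep _ ⟨a, a.2.1, rfl⟩ _ ⟨b, b.2.1, rfl⟩ ⟨z, ha, hb⟩ a.2.2)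

end Del

/-- Transfer of coronas along a graded simulation. -/
theorem corona_sub {T T' : Set (Set (HypSpace n))} (γ : HypSpace n → HypSpace n)
    (R : ℕ → Set (HypSpace n) → Prop) (K : ℕ) (hT : ∀ l P, R l P → γ '' P ∈ T')
    (hstep : ∀ l P Q, R (l + 1) P → Q ∈ T → (P ∩ Q).Nonempty → R l Q)
    {P : Set (HypSpace n)} (h : R K P) :
    ∀ Q ∈ corona T K P, γ '' Q ∈ corona T' K (γ '' P) := by
  rintro Q ⟨m, hm, c, h0, hQ, hc, hint⟩
  have key : ∀ i ≤ m, R (K - i) (c i) := by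
    intro i hi
    induction i with
    | zero => rw [h0]; exact h
    | succ i ih =>
      have h2 := ih (by omega)
      rw [show K - i = (K - (i + 1)) + 1 by omega] at h2
      exact hstep _ _ _ h2 (hc _ hi) (hint i (by omega))
  refine ⟨m, hm, fun i => γ '' c i, by simp only [h0], by simp only [hQ],
    fun i hi => hT _ _ (key i hi), fun i hi => ?_⟩
  obtain ⟨z, h1, h2⟩ := hint i hi
  exact ⟨γ z, ⟨z, h1, rfl⟩, ⟨z, h2, rfl⟩⟩

end Pool.Agent.Lib.MP_6d95fe_co.Hn
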